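import Pool.Agent.Lib.MP_c7bce0_lc.Upper

/-!
# The upper bound: analysis of the greedy algorithm
-/

namespace Pool.Agent.Lib.MP_c7bce0_lc

open MeasureTheory

/-- A complete run gives a schedule. -/
theorem exists_sched {n : ℕ} {I : Inst n} {π : Policy} {H : History} (hH : Run π I H)
    (hc : Complete I H) : ∃ S : Sched, ∀ j ∈ I.jobs, Started H j (S.rect j) (S.start j) := by
  have h1 : ∀ j ∈ I.jobs, ∃ (r : Rect) (s : ℝ), Started H j r s := fun j hj =>
    hH.finished_started (hc j hj)
  have : Nonempty Rect := ⟨⟨0, 0, 0, 0⟩⟩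
  choose! r s h2 using h1
  exact ⟨⟨s, r⟩, h2⟩

/-- The schedule of a complete run is feasible. -/
theorem sched_of_run_feasible {n : ℕ} {I : Inst n} {π : Policy} {H : History} (hH : Run π I H)
    {S : Sched} (hS : ∀ j ∈ I.jobs, Started H j (S.rect j) (S.start j)) : Feasible I S where
  start_nonneg j hj := hH.started_nonneg (hS j hj)
  fits j hj := (hH.started_fits (hS j hj)).2
  prec j hj i hi := by
    obtain ⟨-, r', s', h1, h2⟩ := hH.pre_fin (hS j hj) i hi
    obtain ⟨h3, h4⟩ := hH.started_unique (hS i (I.pre_sub j hj hi)) h1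
    unfold Inst.fin
    rw [h3, h4]
    exact h2
  disj τ i hi j hj hij h1 h2 h3 h4 := by
    unfold Inst.fin at h2 h4
    rcases hH.conflict (hS i hi) (hS j hj) hij with h | h | h
    · exact h
    · linarith
    · linarith

theorem dur_ge {n : ℕ} {I : Inst n} {j : ℕ} (hj : j ∈ I.jobs) {r : Rect} (hr : I.Fits j r) :
    I.t j ≤ I.dur j r := by
  unfold Inst.dur
  obtain ⟨h1, h2, h3, h4, -, -⟩ := hr
  have h1' : (1 : ℝ) ≤ r.w := by exact_mod_cast h1
  have h3' : (1 : ℝ) ≤ r.h := by exact_mod_cast h3
  have h2' : (r.w : ℝ) ≤ I.a j := by exact_mod_cast h2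
  have h4' : (r.h : ℝ) ≤ I.b j := by exact_mod_cast h4
  have ht := I.t_nonneg j hj
  rw [le_div_iff₀ (by positivity)]
  gcongr

theorem area_mul_dur {n : ℕ} {I : Inst n} {j : ℕ} {r : Rect} (hr : I.Fits j r) :
    (r.w * r.h : ℝ) * I.dur j r = I.t j * (I.a j * I.b j) := by
  unfold Inst.dur
  obtain ⟨h1, -, h3, -, -, -⟩ := hr
  have h1' : (1 : ℝ) ≤ r.w := by exact_mod_cast h1
  have h3' : (1 : ℝ) ≤ r.h := by exact_mod_cast h3
  field_simp

/-- The total work is at most the number of processors times the makespan of any feasible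
schedule. -/
theorem work_le {n : ℕ} {I : Inst n} {S : Sched} (hS : Feasible I S) {M : ℝ} (hM : 0 ≤ M)
    (hfin : ∀ j ∈ I.jobs, I.fin S j ≤ M) :
    ∑ j ∈ I.jobs, I.t j * (I.a j * I.b j) ≤ (n : ℝ) ^ 2 * M := by
  have h1 := area_time I.jobs S.start (fun j => I.fin S j)
    (fun j => ((S.rect j).w * (S.rect j).h : ℝ)) 0 M ((n : ℝ) ^ 2) hM
    (fun j hj => by
      have := I.dur_nonneg hj (S.rect j)
      unfold Inst.fin
      linarith)
    (fun j hj => hS.start_nonneg j hj) hfin (by
      intro t _ _
      rw [← Finset.sum_filter]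
      set A := I.jobs.filter fun j => S.start j ≤ t ∧ t < I.fin S j with hA
      have h2 : ∑ j ∈ A, (S.rect j).w * (S.rect j).h ≤ n ^ 2 := by
        calc ∑ j ∈ A, (S.rect j).w * (S.rect j).h = ∑ j ∈ A, (S.rect j).cells.card :=
              Finset.sum_congr rfl fun j _ => (card_cells _).symm
          _ = (A.biUnion fun j => (S.rect j).cells).card := by
              rw [Finset.card_biUnion]
              intro i hi j hj hij
              obtain ⟨h3, h4, h5⟩ := Finset.mem_filter.1 hi
              obtain ⟨h6, h7, h8⟩ := Finset.mem_filter.1 hj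
              exact hS.disj t i h3 j h6 hij h4 h5 h7 h8
          _ ≤ (Finset.range n ×ˢ Finset.range n).card := by
              refine Finset.card_le_card (Finset.biUnion_subset.2 fun j hj => ?_)
              intro p hp
              obtain ⟨h3, -⟩ := Finset.mem_filter.1 hj
              obtain ⟨⟨_, h4⟩, _, h5⟩ := mem_cells.1 hp
              obtain ⟨-, -, -, -, h6, h7⟩ := hS.fits j h3
              rw [Finset.mem_product, Finset.mem_range, Finset.mem_range]
              omega
          _ = n ^ 2 := by rw [Finset.card_product, Finset.card_range, pow_two]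
      exact_mod_cast h2)
  refine le_trans (le_of_eq (Finset.sum_congr rfl fun j hj => ?_)) (h1.trans (le_of_eq (by ring)))
  rw [← area_mul_dur (hS.fits j hj)]
  unfold Inst.fin
  ring

namespace GPar

variable {G : GPar} {I : Inst G.n} {H : History} {S : Sched}

/-- The area in use at time `t`. -/
noncomputable def use (I : Inst G.n) (S : Sched) (t : ℝ) : ℝ :=
  ∑ j ∈ I.jobs, (if S.start j ≤ t ∧ t < I.fin S j then ((S.rect j).w * (S.rect j).h : ℝ) else 0)

/-- While an available job waits, a constant fraction of the submesh of its class is in use. -/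
theorem busy (hH : Run G.greedy I H) (hc : Complete I H)
    (hS : ∀ j ∈ I.jobs, Started H j (S.rect j) (S.start j)) {j : ℕ} (hj : j ∈ I.jobs) {t : ℝ}
    (ht0 : 0 ≤ t) (hpre : ∀ i ∈ I.pre j, I.fin S i ≤ t) (htj : t < S.start j) :
    (G.side : ℝ) ^ 2 / 4 ≤ use I S t := by
  classical
  -- split the history at time `t`
  obtain ⟨T, e, H', hsplit, he, hnow, hrun', hT⟩ : ∃ (T : History) (e : Entry) (H' : History),
      H = T ++ e :: H' ∧ t < e.time ∧ now H' ≤ t ∧ Run G.greedy I H' ∧
        ∀ e' ∈ T ++ [e], t < e'.time := by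
    have key : ∀ H₁ : History, Run G.greedy I H₁ → t < now H₁ →
        ∃ (T : History) (e : Entry) (H' : History),
          H₁ = T ++ e :: H' ∧ t < e.time ∧ now H' ≤ t ∧ Run G.greedy I H' ∧
            ∀ e' ∈ T ++ [e], t < e'.time := by
      intro H₁
      induction H₁ with
      | nil => intro h1; exact absurd rfl h1.ne_nil
      | cons e H₁ ih =>
        intro h1 h2
        by_cases hne : H₁ = []
        · subst hne
          exfalso
          cases h1 with
          | init => exact absurd h2 (not_lt.2 ht0)
          | start hH => exact absurd rfl hH.ne_nil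
          | finish hH => exact absurd rfl hH.ne_nil
        · have h3 := h1.tail hne
          rcases le_or_gt (now H₁) t with h4 | h4
          · refine ⟨[], e, H₁, rfl, h2, h4, h3, fun e' he' => ?_⟩
            rw [List.nil_append, List.mem_singleton] at he'
            rw [he']
            exact h2
          · obtain ⟨T, e', H', h5, h6, h7, h8, h9⟩ := ih h3 h4
            refine ⟨e :: T, e', H', by rw [h5]; rfl, h6, h7, h8, ?_⟩
            intro e'' he''
            rw [List.cons_append, List.mem_cons] at he''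
            rcases he'' with rfl | he''
            · exact h2
            · exact h9 e'' he''
    exact key H hH (lt_of_lt_of_le htj (hH.started_le (hS j hj)))
  have hmem : ∀ e' ∈ H, e'.time ≤ t → e' ∈ H' := by
    intro e' he' hle
    rw [hsplit] at he'
    have : e' ∈ (T ++ [e]) ++ H' := by simpa using he'
    rcases List.mem_append.1 this with h1 | h1
    · exact absurd (hT e' h1) (not_lt.2 hle)
    · exact h1
  have hsuf : H = (T ++ [e]) ++ H' := by rw [hsplit]; simp
  have hrune : Run G.greedy I (e :: H') := by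
    have : Run G.greedy I (T ++ e :: H') := by rw [← hsplit]; exact hH
    exact this.suffix (by simp)
  -- finished jobs
  have hfin : ∀ i ∈ I.jobs, I.fin S i ≤ t → Finished H' i := by
    intro i hi hle
    obtain ⟨e', he', hev⟩ := hc i hi
    obtain ⟨r, s, h1, h2⟩ := hH.finish_time e' he' i hev
    obtain ⟨h3, h4⟩ := hH.started_unique (hS i hi) h1
    refine ⟨e', hmem e' he' ?_, hev⟩
    rw [h2, ← h3, ← h4]
    exact hle
  have hknown : Known H' j (I.a j) (I.b j) :=
    (known_iff hrun').2 ⟨hj, rfl, rfl, fun i hi => hfin i (I.pre_sub j hj hi) (hpre i hi)⟩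
  have hns : ∀ r' s', ¬ Started H' j r' s' := by
    intro r' s' h1
    have h2 : Started H j r' s' := by rw [hsuf]; exact h1.mono
    obtain ⟨-, h3⟩ := hH.started_unique (hS j hj) h2
    have h4 := hrun'.started_le h1
    linarith
  have hnone : G.greedy H' = none := by
    by_contra hcon
    rcases hg : G.greedy H' with _ | ⟨τ, j', r'⟩
    · exact hcon hg
    obtain ⟨rfl, -⟩ := greedy_some hg
    cases hrune with
    | init => exact absurd rfl hrun'.ne_nil
    | start hH' hπ =>
      rw [hg] at hπ
      simp only [Option.some.injEq, Prod.mk.injEq] at hπ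
      rw [← hπ.1] at he
      linarith
    | finish hH' hst hnf hmin hπ =>
      have := hπ _ _ _ hg
      simp only at he
      linarith
  -- all rectangles of the class are in use
  have hall : ∀ r, G.IsSlot (I.a j) (I.b j) r → ∃ i, i ∈ I.jobs ∧ S.rect i = r ∧
      S.start i ≤ t ∧ t < I.fin S i := by
    intro r hr
    by_contra hcon
    push Not at hcon
    apply greedy_none hnone j r
    refine ⟨I.a j, I.b j, hknown, hns, hr, ?_⟩
    intro i s' h1
    have h2 : Started H i r s' := by rw [hsuf]; exact h1.mono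
    have hi := (hH.started_fits h2).1
    obtain ⟨h3, h4⟩ := hH.started_unique (hS i hi) h2
    have h5 := hrun'.started_le h1
    apply hfin i hi
    by_contra h6
    exact absurd (hcon i hi h3 (by rw [h4]; exact h5.trans hnow)) (not_le.2 (not_le.1 h6))
  -- count the area
  set w := G.len (G.cls (I.a j)) with hw
  set h := G.len (G.cls (I.b j)) with hh
  let idx : Finset (ℕ × ℕ) := Finset.range (G.side / w) ×ˢ Finset.range (G.side / h)
  have hall' : ∀ p ∈ idx, ∃ i, i ∈ I.jobs ∧
      S.rect i = G.gslot (G.cls (I.a j)) (G.cls (I.b j)) p.1 p.2 ∧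
      S.start i ≤ t ∧ t < I.fin S i := by
    intro p hp
    rw [Finset.mem_product, Finset.mem_range, Finset.mem_range] at hp
    exact hall _ ⟨p.1, hp.1, p.2, hp.2, rfl⟩
  choose! f hf1 hf2 hf3 hf4 using hall'
  have hinj : Set.InjOn f idx := by
    intro p hp p' hp' hpp
    have h1 := hf2 p hp
    have h2 := hf2 p' hp'
    rw [hpp, h2] at h1
    unfold gslot at h1
    simp only [Rect.mk.injEq] at h1
    obtain ⟨h3, h4, -, -⟩ := h1
    have hwpos : 0 < w := G.len_pos _
    have hhpos : 0 < h := G.len_pos _
    have h5 : p'.1 * w = p.1 * w := Nat.add_left_cancel h3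
    have h6 : p'.2 * h = p.2 * h := Nat.add_left_cancel h4
    exact Prod.ext (Nat.eq_of_mul_eq_mul_right hwpos h5).symm
      (Nat.eq_of_mul_eq_mul_right hhpos h6).symm
  have harea : ((G.side / w * w : ℕ) : ℝ) * ((G.side / h * h : ℕ) : ℝ) ≤ use I S t := by
    unfold use
    rw [← Finset.sum_filter]
    calc ((G.side / w * w : ℕ) : ℝ) * ((G.side / h * h : ℕ) : ℝ)
        = ∑ _p ∈ idx, (w * h : ℝ) := by
          rw [Finset.sum_const, Finset.card_product, Finset.card_range, Finset.card_range,
            nsmul_eq_mul]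
          push_cast
          ring
      _ = ∑ i ∈ idx.image f, (w * h : ℝ) := by
          rw [Finset.sum_image hinj]
      _ = ∑ i ∈ idx.image f, ((S.rect i).w * (S.rect i).h : ℝ) := by
          refine Finset.sum_congr rfl fun i hi => ?_
          obtain ⟨p, hp, rfl⟩ := Finset.mem_image.1 hi
          rw [hf2 p hp]
          rfl
      _ ≤ _ := by
          refine Finset.sum_le_sum_of_subset_of_nonneg ?_ fun _ _ _ => by positivity
          intro i hi
          obtain ⟨p, hp, rfl⟩ := Finset.mem_image.1 hi
          exact Finset.mem_filter.2 ⟨hf1 p hp, hf3 p hp, hf4 p hp⟩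
  refine le_trans ?_ harea
  have h1 : (G.side : ℝ) ≤ 2 * ((G.side / w * w : ℕ) : ℝ) := by
    exact_mod_cast G.two_mul_div_len _
  have h2 : (G.side : ℝ) ≤ 2 * ((G.side / h * h : ℕ) : ℝ) := by
    exact_mod_cast G.two_mul_div_len _
  have h3 : (0 : ℝ) ≤ G.side := Nat.cast_nonneg _
  calc (G.side : ℝ) ^ 2 / 4 = (G.side * G.side) / 4 := by ring
    _ ≤ ((2 * ((G.side / w * w : ℕ) : ℝ)) * (2 * ((G.side / h * h : ℕ) : ℝ))) / 4 := by gcongr
    _ = _ := by ring

theorem use_integrable (I : Inst G.n) (S : Sched) (a b : ℝ) :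
    IntervalIntegrable (use I S) volume a b := by
  unfold use
  apply MeasureTheory.Integrable.intervalIntegrable
  refine integrable_finsetSum _ fun j _ => ?_
  have h1 : (fun t => if S.start j ≤ t ∧ t < I.fin S j then
      ((S.rect j).w * (S.rect j).h : ℝ) else 0) =
      Set.indicator (Set.Ico (S.start j) (I.fin S j))
        (fun _ => ((S.rect j).w * (S.rect j).h : ℝ)) := by
    funext t
    unfold Set.indicator
    simp only [Set.mem_Ico]
  rw [h1, integrable_indicator_iff measurableSet_Ico]
  exact integrableOn_const (by simp)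

theorem use_nonneg (I : Inst G.n) (S : Sched) (t : ℝ) : 0 ≤ use I S t := by
  unfold use
  refine Finset.sum_nonneg fun j _ => ?_
  split_ifs <;> positivity

/-- The total area-time in use is the total work. -/
theorem integral_use_le (hH : Run G.greedy I H)
    (hS : ∀ j ∈ I.jobs, Started H j (S.rect j) (S.start j)) {t : ℝ} (ht : 0 ≤ t) :
    ∫ x in (0 : ℝ)..t, use I S x ≤ ∑ j ∈ I.jobs, I.t j * (I.a j * I.b j) := by
  have hint : ∀ j ∈ I.jobs, IntervalIntegrable (fun x => if S.start j ≤ x ∧ x < I.fin S j then
      ((S.rect j).w * (S.rect j).h : ℝ) else 0) volume 0 t := by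
    intro j _
    apply MeasureTheory.Integrable.intervalIntegrable
    have h1 : (fun t => if S.start j ≤ t ∧ t < I.fin S j then
        ((S.rect j).w * (S.rect j).h : ℝ) else 0) =
        Set.indicator (Set.Ico (S.start j) (I.fin S j))
          (fun _ => ((S.rect j).w * (S.rect j).h : ℝ)) := by
      funext t
      unfold Set.indicator
      simp only [Set.mem_Ico]
    rw [h1, integrable_indicator_iff measurableSet_Ico]
    exact integrableOn_const (by simp)
  unfold use
  rw [intervalIntegral.integral_finsetSum hint]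
  refine Finset.sum_le_sum fun j hj => ?_
  have hfit := (hH.started_fits (hS j hj)).2
  rw [← area_mul_dur hfit]
  have hd := I.dur_nonneg hj (S.rect j)
  have h1 : (fun t => if S.start j ≤ t ∧ t < I.fin S j then
      ((S.rect j).w * (S.rect j).h : ℝ) else 0) =
      Set.indicator (Set.Ico (S.start j) (I.fin S j))
        (fun _ => ((S.rect j).w * (S.rect j).h : ℝ)) := by
    funext t
    unfold Set.indicator
    simp only [Set.mem_Ico]
  rw [h1, intervalIntegral.integral_of_le ht]
  calc ∫ x in Set.Ioc 0 t, Set.indicator (Set.Ico (S.start j) (I.fin S j))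
        (fun _ => ((S.rect j).w * (S.rect j).h : ℝ)) x
      ≤ ∫ x, Set.indicator (Set.Ico (S.start j) (I.fin S j))
        (fun _ => ((S.rect j).w * (S.rect j).h : ℝ)) x := by
        refine setIntegral_le_integral ?_ ?_
        · rw [integrable_indicator_iff measurableSet_Ico]
          exact integrableOn_const (by simp)
        · refine Filter.Eventually.of_forall fun x => ?_
          exact Set.indicator_nonneg (fun _ _ => by positivity) _
    _ = ((S.rect j).w * (S.rect j).h : ℝ) * I.dur j (S.rect j) := by
        rw [integral_indicator measurableSet_Ico, setIntegral_const, smul_eq_mul,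
          Real.volume_real_Ico_of_le (by unfold Inst.fin; linarith)]
        unfold Inst.fin
        ring

/-- The greedy algorithm ends every job in time. -/
theorem fin_le (hH : Run G.greedy I H) (hc : Complete I H)
    (hS : ∀ j ∈ I.jobs, Started H j (S.rect j) (S.start j)) {S' : Sched} (hS' : Feasible I S') :
    ∀ j ∈ I.jobs, I.fin S j ≤ (G.mu : ℝ) ^ 2 * I.fin S' j +
      4 / (G.side : ℝ) ^ 2 * ∫ x in (0 : ℝ)..I.fin S j, use I S x := by
  obtain ⟨rank, hrank⟩ := I.acyclic
  have hfeas := sched_of_run_feasible hH hS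
  have hside : (0 : ℝ) < G.side := by exact_mod_cast G.side_pos
  have hdur : ∀ j ∈ I.jobs, I.dur j (S.rect j) ≤ (G.mu : ℝ) ^ 2 * I.t j := by
    intro j hj
    obtain ⟨u, hu, v, hv, hr⟩ := started_slot hH (hS j hj)
    have ht := I.t_nonneg j hj
    rw [hr]
    unfold Inst.dur gslot
    simp only
    have h1 : (I.a j : ℝ) ≤ G.mu * G.len (G.cls (I.a j)) := by
      exact_mod_cast le_mu_len (I.a_le j hj)
    have h2 : (I.b j : ℝ) ≤ G.mu * G.len (G.cls (I.b j)) := by
      exact_mod_cast le_mu_len (I.b_le j hj)
    have h3 : (0 : ℝ) < G.len (G.cls (I.a j)) := by exact_mod_cast G.len_pos _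
    have h4 : (0 : ℝ) < G.len (G.cls (I.b j)) := by exact_mod_cast G.len_pos _
    rw [div_le_iff₀ (by positivity)]
    calc I.t j * (I.a j * I.b j)
        ≤ I.t j * ((G.mu * G.len (G.cls (I.a j))) * (G.mu * G.len (G.cls (I.b j)))) := by gcongr
      _ = _ := by ring
  have hmono : ∀ a b : ℝ, 0 ≤ a → a ≤ b → ∫ x in (0 : ℝ)..a, use I S x ≤
      ∫ x in (0 : ℝ)..b, use I S x := by
    intro a b ha hab
    rw [← intervalIntegral.integral_add_adjacent_intervals (use_integrable I S 0 a)
      (use_integrable I S a b)]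
    have := intervalIntegral.integral_nonneg (μ := volume) hab fun x _ => use_nonneg I S x
    linarith
  have main : ∀ k : ℕ, ∀ j ∈ I.jobs, rank j = k → I.fin S j ≤ (G.mu : ℝ) ^ 2 * I.fin S' j +
      4 / (G.side : ℝ) ^ 2 * ∫ x in (0 : ℝ)..I.fin S j, use I S x := by
    intro k
    induction k using Nat.strong_induction_on with
    | _ k ih =>
      intro j hj hjk
      -- the time at which the job becomes available
      obtain ⟨α, hα0, hαs, hαpre, hα⟩ : ∃ α : ℝ, 0 ≤ α ∧ α ≤ S.start j ∧
          (∀ i ∈ I.pre j, I.fin S i ≤ α) ∧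
          α ≤ (G.mu : ℝ) ^ 2 * S'.start j +
            4 / (G.side : ℝ) ^ 2 * ∫ x in (0 : ℝ)..α, use I S x := by
        rcases (I.pre j).eq_empty_or_nonempty with hem | hne
        · refine ⟨0, le_rfl, hfeas.start_nonneg j hj, by rw [hem]; simp, ?_⟩
          have := hS'.start_nonneg j hj
          rw [intervalIntegral.integral_same]
          positivity
        · obtain ⟨i, hi, hmax⟩ := (I.pre j).exists_max_image (fun i => I.fin S i) hne
          have hij := I.pre_sub j hj hi
          have h0 : 0 ≤ I.fin S i := by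
            have := hfeas.start_nonneg i hij
            have := I.dur_nonneg hij (S.rect i)
            unfold Inst.fin
            linarith
          refine ⟨I.fin S i, h0, hfeas.prec j hj i hi, hmax, ?_⟩
          have h1 := ih (rank i) (by rw [← hjk]; exact hrank j hj i hi) i hij rfl
          have h2 := hS'.prec j hj i hi
          have h3 : (G.mu : ℝ) ^ 2 * I.fin S' i ≤ (G.mu : ℝ) ^ 2 * S'.start j := by gcongr
          linarith
      -- the waiting time
      have hwait : S.start j - α ≤ 4 / (G.side : ℝ) ^ 2 * ∫ x in α..S.start j, use I S x := by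
        have h1 : (S.start j - α) * ((G.side : ℝ) ^ 2 / 4) ≤ ∫ x in α..S.start j, use I S x := by
          have h2 : ∫ _x in α..S.start j, ((G.side : ℝ) ^ 2 / 4) =
              (S.start j - α) * ((G.side : ℝ) ^ 2 / 4) := by
            rw [intervalIntegral.integral_const, smul_eq_mul]
          rw [← h2]
          refine intervalIntegral.integral_mono_on_of_le_Ioo hαs
            intervalIntegrable_const (use_integrable I S _ _) ?_
          intro x hx
          exact busy hH hc hS hj (hα0.trans hx.1.le) (fun i hi => (hαpre i hi).trans hx.1.le) hx.2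
        rw [div_mul_eq_mul_div, le_div_iff₀ (by positivity)]
        linarith
      have hadd := intervalIntegral.integral_add_adjacent_intervals (use_integrable I S 0 α)
        (use_integrable I S α (S.start j))
      have h5 : 4 / (G.side : ℝ) ^ 2 * ∫ x in (0 : ℝ)..S.start j, use I S x ≤
          4 / (G.side : ℝ) ^ 2 * ∫ x in (0 : ℝ)..I.fin S j, use I S x := by
        gcongr
        refine hmono _ _ (hfeas.start_nonneg j hj) ?_
        have := I.dur_nonneg hj (S.rect j)
        unfold Inst.fin
        linarith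
      have h6 : I.t j ≤ I.dur j (S'.rect j) := dur_ge hj (hS'.fits j hj)
      have h7 := hdur j hj
      have h8 : (G.mu : ℝ) ^ 2 * (S'.start j + I.t j) ≤ (G.mu : ℝ) ^ 2 * I.fin S' j := by
        unfold Inst.fin
        gcongr
      have h9 : I.fin S j = S.start j + I.dur j (S.rect j) := rfl
      rw [← hadd, mul_add] at h5
      rw [mul_add] at h8
      linarith
  exact fun j hj => main (rank j) j hj rfl

/-- The makespan of the greedy algorithm is at most `5 mu ^ 2` times the makespan of any feasible
schedule. -/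
theorem now_le (hH : Run G.greedy I H) (hc : Complete I H) {S' : Sched} (hS' : Feasible I S')
    {M : ℝ} (hM : 0 ≤ M) (hfin : ∀ j ∈ I.jobs, I.fin S' j ≤ M) :
    now H ≤ 5 * (G.mu : ℝ) ^ 2 * M := by
  obtain ⟨S, hS⟩ := exists_sched hH hc
  have hfeas := sched_of_run_feasible hH hS
  have hside : (0 : ℝ) < G.side := by exact_mod_cast G.side_pos
  have hjob : ∀ j ∈ I.jobs, I.fin S j ≤ 5 * (G.mu : ℝ) ^ 2 * M := by
    intro j hj
    have h1 := fin_le hH hc hS hS' j hj
    have h0 : 0 ≤ I.fin S j := by
      have := hfeas.start_nonneg j hj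
      have := I.dur_nonneg hj (S.rect j)
      unfold Inst.fin
      linarith
    have h2 := integral_use_le hH hS h0
    have h3 := work_le hS' hM hfin
    have h4 : (G.n : ℝ) ≤ G.mu * G.side := by
      have h5 : G.n ≤ G.mu * G.side :=
        G.n_lt_side.le.trans (Nat.mul_le_mul_right _ (le_max_right _ _))
      exact_mod_cast h5
    have h5 : 4 / (G.side : ℝ) ^ 2 * ∫ x in (0 : ℝ)..I.fin S j, use I S x ≤
        4 * (G.mu : ℝ) ^ 2 * M := by
      calc 4 / (G.side : ℝ) ^ 2 * ∫ x in (0 : ℝ)..I.fin S j, use I S x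
          ≤ 4 / (G.side : ℝ) ^ 2 * ((G.n : ℝ) ^ 2 * M) := by
            gcongr
            exact h2.trans h3
        _ ≤ 4 / (G.side : ℝ) ^ 2 * ((G.mu * G.side : ℝ) ^ 2 * M) := by gcongr
        _ = 4 * (G.mu : ℝ) ^ 2 * M := by field_simp
    have h6 : (G.mu : ℝ) ^ 2 * I.fin S' j ≤ (G.mu : ℝ) ^ 2 * M := by
      gcongr
      exact hfin j hj
    linarith
  have h0 : 0 ≤ 5 * (G.mu : ℝ) ^ 2 * M := by positivity
  cases hH with
  | init => exact h0
  | @start H' τ j r hH' hπ hτ hj hns hpre hfit hrun =>
    exfalso
    have h1 := hc j hj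
    rw [finished_start] at h1
    obtain ⟨r', s', h2⟩ := hH'.finished_started h1
    exact hns _ _ h2
  | @finish H' j r s hH' hst hnf hmin hπ =>
    have hj := (hH'.started_fits hst).1
    have h1 := (Run.finish hH' hst hnf hmin hπ).started_unique (started_finish.2 hst) (hS j hj)
    have h2 : s + I.dur j r = I.fin S j := by
      unfold Inst.fin
      rw [h1.1, h1.2]
    show s + I.dur j r ≤ _
    rw [h2]
    exact hjob j hj

theorem Rdet_le (G : GPar) : Rdet G.n ≤ ENNReal.ofReal (5 * (G.mu : ℝ) ^ 2) := by
  unfold Rdet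
  refine sInf_le ⟨G.greedy, fun I => ?_⟩
  obtain ⟨H, hH, hc⟩ := G.exists_complete I
  have hmu : (0 : ℝ) < G.mu := by
    have : 0 < G.mu := lt_of_lt_of_le (by have := G.two_le_q; omega) (le_max_left G.q _)
    exact_mod_cast this
  have hcost : cost G.greedy I ≤ ENNReal.ofReal (now H) := by
    unfold cost
    exact iInf_le_of_le H (iInf_le_of_le hH (iInf_le_of_le hc le_rfl))
  have hopt : now H ≤ 5 * (G.mu : ℝ) ^ 2 * opt I := by
    have h1 : now H / (5 * (G.mu : ℝ) ^ 2) ≤ opt I := by
      unfold opt
      refine le_csInf ?_ ?_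
      · obtain ⟨S, hS⟩ := exists_sched hH hc
        refine ⟨now H, hH.now_nonneg, S, sched_of_run_feasible hH hS, fun j hj => ?_⟩
        exact hH.fin_le_now (hc j hj) (hS j hj)
      · rintro M ⟨hM, S', hS', hfin⟩
        rw [div_le_iff₀ (by positivity)]
        have := now_le hH hc hS' hM hfin
        linarith
    rw [div_le_iff₀ (by positivity)] at h1
    linarith
  calc cost G.greedy I ≤ ENNReal.ofReal (now H) := hcost
    _ ≤ ENNReal.ofReal (5 * (G.mu : ℝ) ^ 2 * opt I) := ENNReal.ofReal_le_ofReal hopt
    _ = ENNReal.ofReal (5 * (G.mu : ℝ) ^ 2) * ENNReal.ofReal (opt I) :=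
        ENNReal.ofReal_mul (by positivity)

end GPar

/-- Randomization does not hurt. -/
theorem Rrand_le_Rdet (n : ℕ) : Rrand n ≤ Rdet n := by
  unfold Rdet
  refine le_sInf fun c hc => ?_
  obtain ⟨π, hπ⟩ := hc
  unfold Rrand
  refine sInf_le ⟨{ Ω := Unit, mΩ := inferInstance, P := Measure.dirac (), prob := inferInstance, policy := fun _ => π, meas := fun _ => measurable_const }, fun I => ?_⟩
  have : RandAlg.expCost (n := n) { Ω := Unit, mΩ := inferInstance, P := Measure.dirac (), prob := inferInstance, policy := fun _ => π, meas := fun _ => measurable_const } I = cost π I := by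
    unfold RandAlg.expCost
    simp
  rw [this]
  exact hπ I

end Pool.Agent.Lib.MP_c7bce0_lc
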