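import Pool.Agent.Lib.MP_c7bce0_lc.Lower
import Pool.Agent.Lib.MP_c7bce0_lc.Upper2

/-!
# Asymptotic form of the bounds
-/

namespace Pool.Agent.Lib.MP_c7bce0_lc

open Filter

theorem two_mul_pow_le (D : ℕ) (hD : 0 < D) : 2 * (D - 1) ^ D ≤ D ^ D := by
  have h1 := pow_add_mul_le_add_pow (R := ℕ) (a := D - 1) (b := 1) (Nat.zero_le _)
    (Nat.zero_le _) D
  rw [Nat.sub_add_cancel hD, mul_one] at h1
  have h2 : (D - 1) ^ D ≤ D * (D - 1) ^ (D - 1) := by
    calc (D - 1) ^ D = (D - 1) * (D - 1) ^ (D - 1) := by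
          rw [← pow_succ', Nat.sub_add_cancel hD]
      _ ≤ D * (D - 1) ^ (D - 1) := Nat.mul_le_mul_right _ (Nat.sub_le _ _)
  have h3 : D * (D - 1) ^ (D - 1) = (D : ℕ) * (D - 1) ^ (D - 1) := rfl
  simp only [Nat.cast_id] at h1
  omega

theorem pow_bound {D m B : ℕ} (hD : 0 < D) (hB : B ≤ 2 ^ m) :
    B * (D - 1) ^ (D * m) ≤ D ^ (D * m) := by
  calc B * (D - 1) ^ (D * m) ≤ 2 ^ m * ((D - 1) ^ D) ^ m := by
        rw [pow_mul]; exact Nat.mul_le_mul_right _ hB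
    _ = (2 * (D - 1) ^ D) ^ m := by rw [mul_pow]
    _ ≤ (D ^ D) ^ m := Nat.pow_le_pow_left (two_mul_pow_le D hD) m
    _ = D ^ (D * m) := by rw [pow_mul]

/-- The lower bound in terms of binary logarithms. -/
theorem le_Rrand_log {n ℓ lam K : ℕ} (hℓ : ℓ = Nat.log 2 n) (hlam : lam = Nat.log 2 ℓ + 1)
    (hK : K = ℓ / (22 * lam)) (hbig : 44 * lam ≤ ℓ) :
    ENNReal.ofReal ((K * K : ℝ) / 24) ≤ Rrand n := by
  have hlampos : 0 < lam := by omega
  have hℓpos : 0 < ℓ := by omega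
  have hn : n ≠ 0 := by
    rintro rfl
    simp at hℓ
    omega
  have hK2 : 2 ≤ K := by
    rw [hK, Nat.le_div_iff_mul_le (by positivity)]
    omega
  have hKℓ : K ≤ ℓ := by rw [hK]; exact Nat.div_le_self _ _
  have hℓ2 : ℓ < 2 ^ lam := by rw [hlam]; exact Nat.lt_pow_succ_log_self (by norm_num) _
  have hK2' : K < 2 ^ lam := lt_of_le_of_lt hKℓ hℓ2
  have hn2 : n < 2 ^ (ℓ + 1) := by rw [hℓ]; exact Nat.lt_pow_succ_log_self (by norm_num) _
  have hn2' : 2 ^ ℓ ≤ n := by rw [hℓ]; exact Nat.pow_log_le_self 2 hn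
  refine le_Rrand (q := 2 ^ (22 * lam)) (k := 16 * (K * K) ^ 2 * (4 * ℓ + 2 * lam + 8))
    hK2 (by positivity) ?_ ?_ ?_
  · calc (2 ^ (22 * lam)) ^ K = 2 ^ (22 * lam * K) := by rw [← pow_mul]
      _ ≤ 2 ^ ℓ := Nat.pow_le_pow_right (by norm_num) (by
          rw [hK]; exact Nat.mul_div_le _ _)
      _ ≤ n := hn2'
  · have h1 : 4 * ℓ + 2 * lam + 8 ≤ 2 ^ (lam + 4) := by
      have h2 : lam < 2 ^ lam := Nat.lt_two_pow_self
      have h3 : 2 ^ (lam + 4) = 16 * 2 ^ lam := by rw [pow_add]; ring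
      have h4 : 1 ≤ 2 ^ lam := Nat.one_le_two_pow
      omega
    have h2 : (K * K) ^ 6 ≤ 2 ^ (12 * lam) := by
      calc (K * K) ^ 6 = K ^ 12 := by ring
        _ ≤ (2 ^ lam) ^ 12 := Nat.pow_le_pow_left hK2'.le 12
        _ = 2 ^ (12 * lam) := by rw [← pow_mul, mul_comm]
    calc 2 * (K * K) ^ 4 * (16 * (K * K) ^ 2 * (4 * ℓ + 2 * lam + 8))
        = 2 ^ 5 * (K * K) ^ 6 * (4 * ℓ + 2 * lam + 8) := by ring
      _ ≤ 2 ^ 5 * 2 ^ (12 * lam) * 2 ^ (lam + 4) := by gcongr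
      _ = 2 ^ (13 * lam + 9) := by rw [← pow_add, ← pow_add]; congr 1; ring
      _ ≤ 2 ^ (22 * lam) := Nat.pow_le_pow_right (by norm_num) (by omega)
  · apply pow_bound (by positivity)
    calc 16 * (K * K) * n ^ 4 ≤ 2 ^ 4 * (2 ^ lam * 2 ^ lam) * (2 ^ (ℓ + 1)) ^ 4 := by
          gcongr
          norm_num
      _ = 2 ^ (4 * ℓ + 2 * lam + 8) := by
          rw [← pow_mul, ← pow_add, ← pow_add, ← pow_add]; congr 1; ring

/-- Eventual facts on `x = log (n ^ 2)`. -/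
theorem eventually_facts : ∀ᶠ x : ℝ in atTop, 8 ≤ x ∧ 1 ≤ Real.log x ∧ 264 * Real.log x ≤ x ∧
    (Real.sqrt x + 2) * Real.log x ≤ x := by
  have h1 : ∀ᶠ x : ℝ in atTop, 8 ≤ x := eventually_ge_atTop 8
  have h2 : ∀ᶠ x : ℝ in atTop, 1 ≤ Real.log x := Real.tendsto_log_atTop.eventually_ge_atTop 1
  have h3 : ∀ᶠ x : ℝ in atTop, ‖Real.log x‖ ≤ 1 / 264 * ‖id x‖ :=
    Real.isLittleO_log_id_atTop.bound (by norm_num)
  have h4 : ∀ᶠ x : ℝ in atTop, ‖Real.log x ^ 2‖ ≤ 1 / 4 * ‖id x‖ :=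
    Real.isLittleO_pow_log_id_atTop.bound (by norm_num)
  filter_upwards [h1, h2, h3, h4] with x hx1 hx2 hx3 hx4
  have hx0 : 0 ≤ x := by linarith
  rw [id, Real.norm_of_nonneg (by linarith), Real.norm_of_nonneg hx0] at hx3
  rw [id, Real.norm_of_nonneg (by positivity), Real.norm_of_nonneg hx0] at hx4
  refine ⟨hx1, hx2, by linarith, ?_⟩
  have h5 : 2 * Real.log x ≤ Real.sqrt x := by
    apply Real.le_sqrt_of_sq_le
    linarith [mul_pow 2 (Real.log x) 2]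
  have h6 : Real.sqrt x * Real.sqrt x = x := Real.mul_self_sqrt hx0
  have h7 : 0 ≤ Real.sqrt x := Real.sqrt_nonneg x
  nlinarith

theorem tendsto_log_sq : Tendsto (fun n : ℕ => Real.log ((n : ℝ) ^ 2)) atTop atTop :=
  Real.tendsto_log_atTop.comp ((tendsto_pow_atTop two_ne_zero).comp tendsto_natCast_atTop_atTop)

/-- Comparison of the binary logarithm `ℓ` of `n` with `x = log (n ^ 2)`. -/
theorem log_facts {n ℓ : ℕ} {x : ℝ} (hn : n ≠ 0) (hℓ : ℓ = Nat.log 2 n)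
    (hx : x = Real.log ((n : ℝ) ^ 2)) (hx8 : 8 ≤ x) : x / 2 ≤ ℓ ∧ (ℓ : ℝ) ≤ x := by
  have hn0 : (0 : ℝ) < n := by exact_mod_cast Nat.pos_of_ne_zero hn
  have h1 : (2 : ℝ) ^ ℓ ≤ n := by
    rw [hℓ]
    exact_mod_cast Nat.pow_log_le_self 2 hn
  have h2 : (n : ℝ) < 2 ^ (ℓ + 1) := by
    rw [hℓ]
    exact_mod_cast Nat.lt_pow_succ_log_self (by norm_num : 1 < 2) n
  have hxn : x = 2 * Real.log n := by rw [hx, Real.log_pow]; norm_num
  have h3 : (ℓ : ℝ) * Real.log 2 ≤ Real.log n := by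
    rw [← Real.log_pow]
    exact Real.log_le_log (by positivity) h1
  have h4 : Real.log n < ((ℓ : ℝ) + 1) * Real.log 2 := by
    have := Real.log_lt_log hn0 h2
    rw [Real.log_pow] at this
    push_cast at this
    exact this
  have h5 := Real.log_two_gt_d9
  have h6 := Real.log_two_lt_d9
  have h7 : (0 : ℝ) ≤ ℓ := Nat.cast_nonneg _
  constructor
  · nlinarith
  · nlinarith

theorem Rrand_lower : ∀ᶠ n : ℕ in atTop,
    ENNReal.ofReal (1 / (24 * 264 ^ 2) *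
      (Real.log ((n : ℝ) ^ 2) / Real.log (Real.log ((n : ℝ) ^ 2))) ^ 2) ≤ Rrand n := by
  filter_upwards [tendsto_log_sq.eventually eventually_facts, eventually_gt_atTop 0]
    with n hfacts hn
  obtain ⟨hx8, hlog1, h264, -⟩ := hfacts
  set x := Real.log ((n : ℝ) ^ 2) with hx
  obtain ⟨ℓ, hℓ⟩ : ∃ ℓ, ℓ = Nat.log 2 n := ⟨_, rfl⟩
  obtain ⟨lam, hlam⟩ : ∃ lam, lam = Nat.log 2 ℓ + 1 := ⟨_, rfl⟩
  obtain ⟨K, hK⟩ : ∃ K, K = ℓ / (22 * lam) := ⟨_, rfl⟩
  obtain ⟨hℓ1, hℓ2⟩ := log_facts hn.ne' hℓ hx hx8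
  have hℓ0 : ℓ ≠ 0 := by
    rintro rfl
    rw [Nat.cast_zero] at hℓ1
    linarith
  have hℓpos : (0 : ℝ) < ℓ := by exact_mod_cast Nat.pos_of_ne_zero hℓ0
  have hlamle : (lam : ℝ) ≤ 3 * Real.log x := by
    have h1 : (2 : ℝ) ^ (Nat.log 2 ℓ) ≤ ℓ := by exact_mod_cast Nat.pow_log_le_self 2 hℓ0
    have h2 : (Nat.log 2 ℓ : ℝ) * Real.log 2 ≤ Real.log x := by
      rw [← Real.log_pow]
      exact Real.log_le_log (by positivity) (h1.trans hℓ2)
    have h3 := Real.log_two_gt_d9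
    have h4 : (lam : ℝ) = Nat.log 2 ℓ + 1 := by rw [hlam]; push_cast; rfl
    have h5 : (0 : ℝ) ≤ Nat.log 2 ℓ := Nat.cast_nonneg _
    nlinarith
  have hbig : 44 * lam ≤ ℓ := by
    have : (44 : ℝ) * lam ≤ ℓ := by linarith
    exact_mod_cast this
  refine le_trans ?_ (le_Rrand_log hℓ hlam hK hbig)
  apply ENNReal.ofReal_le_ofReal
  have hlampos : (0 : ℝ) < lam := by
    have : 0 < lam := by omega
    exact_mod_cast this
  have hKge : x / (264 * Real.log x) ≤ K := by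
    have h1 : (ℓ : ℝ) < (K + 1) * (22 * lam) := by
      have : ℓ < (K + 1) * (22 * lam) := by
        rw [hK, add_mul, one_mul]
        exact Nat.lt_div_mul_add (by omega)
      exact_mod_cast this
    have h2 : (44 : ℝ) * lam ≤ ℓ := by exact_mod_cast hbig
    have h3 : (ℓ : ℝ) ≤ K * (44 * lam) := by nlinarith
    have h4 : x / 2 ≤ K * (132 * Real.log x) := by
      have hK0 : (0 : ℝ) ≤ K := Nat.cast_nonneg _
      calc x / 2 ≤ ℓ := hℓ1
        _ ≤ K * (44 * lam) := h3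
        _ ≤ K * (44 * (3 * Real.log x)) := by gcongr
        _ = K * (132 * Real.log x) := by ring
    rw [div_le_iff₀ (by positivity)]
    linarith
  have h0 : 0 ≤ x / (264 * Real.log x) := by positivity
  calc 1 / (24 * 264 ^ 2) * (x / Real.log x) ^ 2
      = (x / (264 * Real.log x)) ^ 2 / 24 := by
        have : Real.log x ≠ 0 := by linarith
        field_simp
    _ ≤ (K : ℝ) ^ 2 / 24 := by gcongr
    _ = (K * K : ℝ) / 24 := by ring

theorem Rdet_upper : ∀ᶠ n : ℕ in atTop,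
    Rdet n ≤ ENNReal.ofReal (180 *
      (Real.log ((n : ℝ) ^ 2) / Real.log (Real.log ((n : ℝ) ^ 2))) ^ 2) := by
  filter_upwards [tendsto_log_sq.eventually eventually_facts, eventually_gt_atTop 0]
    with n hfacts hn
  obtain ⟨hx8, hlog1, h264, hsqrt⟩ := hfacts
  set x := Real.log ((n : ℝ) ^ 2) with hx
  obtain ⟨ℓ, hℓ⟩ : ∃ ℓ, ℓ = Nat.log 2 n := ⟨_, rfl⟩
  obtain ⟨hℓ1, hℓ2⟩ := log_facts hn.ne' hℓ hx hx8
  obtain ⟨q, hq⟩ : ∃ q, q = Nat.sqrt ℓ + 2 := ⟨_, rfl⟩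
  have hlogpos : 0 < Real.log x := by linarith
  let G : GPar :=
    { n := n, q := q, h := Nat.log q n + 1
      two_le_q := by omega
      n_lt := Nat.lt_pow_succ_log_self (by omega) n
      h_pos := Nat.succ_pos _
      h_le := Nat.log_lt_self q hn.ne' }
  refine (G.Rdet_le).trans (ENNReal.ofReal_le_ofReal ?_)
  have hqle : (q : ℝ) ≤ x / Real.log x := by
    rw [le_div_iff₀ hlogpos]
    refine le_trans ?_ hsqrt
    gcongr
    rw [hq]
    push_cast
    gcongr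
    apply Real.le_sqrt_of_sq_le
    have h1 : Nat.sqrt ℓ ^ 2 ≤ ℓ := by rw [pow_two]; exact Nat.sqrt_le ℓ
    have h2 : ((Nat.sqrt ℓ : ℝ)) ^ 2 ≤ ℓ := by exact_mod_cast h1
    exact h2.trans hℓ2
  have hqlog : Real.log x / 4 ≤ Real.log q := by
    have h1 : ℓ < q ^ 2 := by
      rw [hq, pow_two]
      have h2 := Nat.lt_succ_sqrt ℓ
      calc ℓ < (Nat.sqrt ℓ).succ * (Nat.sqrt ℓ).succ := h2
        _ ≤ (Nat.sqrt ℓ + 2) * (Nat.sqrt ℓ + 2) := Nat.mul_le_mul (by omega) (by omega)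
    have h2 : x / 2 ≤ (q : ℝ) ^ 2 := by
      have : (ℓ : ℝ) ≤ (q : ℝ) ^ 2 := by exact_mod_cast h1.le
      linarith
    have h3 : Real.log (x / 2) ≤ 2 * Real.log q := by
      have := Real.log_le_log (by linarith) h2
      rw [Real.log_pow] at this
      push_cast at this
      exact this
    rw [Real.log_div (by linarith) (by norm_num)] at h3
    have h4 : 2 * Real.log 2 ≤ Real.log x := by
      have h5 : Real.log ((2 : ℝ) ^ 2) ≤ Real.log x :=
        Real.log_le_log (by norm_num) (by linarith)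
      rw [Real.log_pow] at h5
      push_cast at h5
      exact h5
    linarith
  have hhle : ((G.h : ℕ) : ℝ) ≤ 3 * (x / Real.log x) := by
    have h1 : (q : ℝ) ^ (Nat.log q n) ≤ n := by exact_mod_cast Nat.pow_log_le_self q hn.ne'
    have hq0 : (0 : ℝ) < q := by
      have : 0 < q := by omega
      exact_mod_cast this
    have h2 : (Nat.log q n : ℝ) * Real.log q ≤ Real.log n := by
      rw [← Real.log_pow]
      exact Real.log_le_log (by positivity) h1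
    have hxn : x = 2 * Real.log n := by rw [hx, Real.log_pow]; norm_num
    have h3 : (Nat.log q n : ℝ) * (Real.log x / 4) ≤ x / 2 := by
      have h4 : (0 : ℝ) ≤ Nat.log q n := Nat.cast_nonneg _
      calc (Nat.log q n : ℝ) * (Real.log x / 4) ≤ Nat.log q n * Real.log q := by gcongr
        _ ≤ Real.log n := h2
        _ = x / 2 := by rw [hxn]; ring
    have h5 : (Nat.log q n : ℝ) ≤ 2 * (x / Real.log x) := by
      rw [mul_div_assoc', le_div_iff₀ hlogpos]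
      linarith
    have h6 : (1 : ℝ) ≤ x / Real.log x := by
      rw [le_div_iff₀ hlogpos]
      linarith
    have h7 : ((G.h : ℕ) : ℝ) = Nat.log q n + 1 := by
      show ((Nat.log q n + 1 : ℕ) : ℝ) = _
      push_cast; rfl
    rw [h7]
    linarith
  have hmu : (G.mu : ℝ) ≤ 6 * (x / Real.log x) := by
    have h1 : (G.mu : ℝ) = max (q : ℝ) (2 * G.h) := by
      unfold GPar.mu
      push_cast
      rfl
    rw [h1]
    apply max_le
    · have : 0 ≤ x / Real.log x := by positivity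
      linarith
    · linarith
  calc 5 * (G.mu : ℝ) ^ 2 ≤ 5 * (6 * (x / Real.log x)) ^ 2 := by gcongr
    _ = 180 * (x / Real.log x) ^ 2 := by ring

end Pool.Agent.Lib.MP_c7bce0_lc
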