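import Pool.Agent.Lib.MP_c7bce0_lc.LowerInst

/-!
# Causality: the run does not depend on hidden information
-/

namespace Pool.Agent.Lib.MP_c7bce0_lc

namespace Par

variable {P : Par} {π : Policy}

theorem mem_pre {z : P.Z} {x y : ℕ} :
    y ∈ (inst z).pre x ↔ y ∈ P.jobs ∧ ¬ Long z y ∧ P.ph y < P.ph x := by
  unfold inst
  simp only [Finset.mem_filter]

/-- If `z` and `z'` differ only at jobs of the phase of `J` that were started before the end of the
history `H` and that could not have ended by then, and if `J` is a short job that has not ended,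
then `H` is also a history for `z'`. -/
theorem causal {z z' : P.Z} {H : History} {J : ℕ} (hH : Run π (inst z) H) (hJ : J ∈ P.jobs)
    (hJl : ¬ Long z J) (hJf : ¬ Finished H J)
    (hd : ∀ y, (Long z y ↔ Long z' y) ∨
      (P.ph y = P.ph J ∧ y ≠ J ∧ ∃ r s, Started H y r s ∧ now H < s + P.short y r)) :
    Run π (inst z') H := by
  have hJl' : ¬ Long z' J := by
    rcases hd J with h | h
    · rwa [← h]
    · exact absurd rfl h.2.1
  have hpre : ∀ x, P.ph x ≤ P.ph J → (inst z).pre x = (inst z').pre x := by
    intro x hx
    ext y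
    rw [mem_pre, mem_pre]
    refine and_congr_right fun _ => ?_
    constructor
    · rintro ⟨h1, h2⟩
      refine ⟨?_, h2⟩
      rcases hd y with h | h
      · rwa [← h]
      · omega
    · rintro ⟨h1, h2⟩
      refine ⟨?_, h2⟩
      rcases hd y with h | h
      · rwa [h]
      · omega
  have hpreJ : ∀ x, P.ph J < P.ph x → J ∈ (inst z).pre x ∧ J ∈ (inst z').pre x := by
    intro x hx
    exact ⟨mem_pre.2 ⟨hJ, hJl, hx⟩, mem_pre.2 ⟨hJ, hJl', hx⟩⟩
  -- the running jobs whose status differs end after the end of `H`
  have hdur : ∀ y r s, Started H y r s →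
      (inst z).dur y r = (inst z').dur y r ∨
        (now H < s + (inst z).dur y r ∧ now H < s + (inst z').dur y r) := by
    intro y r s hs
    rcases hd y with h | ⟨-, -, r', s', h1, h2⟩
    · exact Or.inl (dur_eq_of_eq h r)
    · obtain ⟨rfl, rfl⟩ := hH.started_unique hs h1
      exact Or.inr ⟨lt_of_lt_of_le h2 (by gcongr; exact short_le_dur z y r),
        lt_of_lt_of_le h2 (by gcongr; exact short_le_dur z' y r)⟩
  suffices key : ∀ H', Run π (inst z) H' → ∀ T', H = T' ++ H' → Run π (inst z') H' from
    key H hH [] rfl
  intro H' h'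
  induction h' with
  | init =>
    intro T' hT'
    have : newInit (inst z) = newInit (inst z') := by
      unfold newInit
      congr 1
      ext x
      simp only [Finset.mem_filter]
      refine and_congr_right fun _ => ?_
      rcases le_or_gt (P.ph x) (P.ph J) with h | h
      · rw [hpre x h]
      · obtain ⟨h1, h2⟩ := hpreJ x h
        exact ⟨fun h3 => absurd (h3 ▸ h1) (Finset.notMem_empty _),
          fun h3 => absurd (h3 ▸ h2) (Finset.notMem_empty _)⟩
    rw [this]
    exact Run.init
  | @start H' τ j r h' hπ hτ hj hns hp hfit hrun ih =>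
    intro T' hT'
    have hT'' : H = (T' ++ [⟨τ, Ev.start j r, ∅⟩]) ++ H' := by rw [hT']; simp
    have ih' := ih _ hT''
    have hnowle : τ ≤ now H := by
      rw [hT']
      exact Run.now_mono (H := ⟨τ, Ev.start j r, ∅⟩ :: H') (hT' ▸ hH) (by simp)
    have hst : ∀ {i r' s'}, Started H' i r' s' → Started H i r' s' := fun h => by
      rw [hT'']; exact h.mono
    have hJ' : ¬ Finished H' J := fun h => hJf (by rw [hT'']; exact h.mono)
    have hph : P.ph j ≤ P.ph J := by
      by_contra hcon
      exact hJ' (hp J (hpreJ j (not_le.1 hcon)).1)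
    refine Run.start ih' hπ hτ hj hns ?_ hfit ?_
    · rw [← hpre j hph]; exact hp
    · intro i r' s' h1 h2
      obtain ⟨h3, h4⟩ := hrun i r' s' h1 h2
      refine ⟨?_, h4⟩
      rcases hdur i r' s' (hst h1) with h5 | h5
      · rw [← h5]; exact h3
      · exact lt_of_le_of_lt hnowle h5.2
  | @finish H' j r s h' hstj hnf hmin hπ ih =>
    intro T' hT'
    have hT'' : H = (T' ++ [⟨s + (inst z).dur j r, Ev.finish j, newAt (inst z) H' j⟩]) ++ H' := by
      rw [hT']; simp
    have ih' := ih _ hT''
    have hnowle : s + (inst z).dur j r ≤ now H := by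
      rw [hT']
      exact Run.now_mono
        (H := ⟨s + (inst z).dur j r, Ev.finish j, newAt (inst z) H' j⟩ :: H') (hT' ▸ hH) (by simp)
    have hst : ∀ {i r' s'}, Started H' i r' s' → Started H i r' s' := fun h => by
      rw [hT'']; exact h.mono
    have hJ' : ¬ Finished H' J := fun h => hJf (by rw [hT'']; exact h.mono)
    have hjJ : j ≠ J := by
      rintro rfl
      apply hJf
      rw [hT']
      exact ⟨_, List.mem_append_right _ (List.mem_cons_self), rfl⟩
    have hdj : (inst z).dur j r = (inst z').dur j r := by
      rcases hdur j r s (hst hstj) with h5 | h5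
      · exact h5
      · exact absurd h5.1 (not_lt.2 hnowle)
    have hnew : newAt (inst z) H' j = newAt (inst z') H' j := by
      unfold newAt
      congr 1
      ext x
      simp only [Finset.mem_filter]
      refine and_congr_right fun _ => ?_
      rcases le_or_gt (P.ph x) (P.ph J) with h | h
      · rw [hpre x h]
      · obtain ⟨h1, h2⟩ := hpreJ x h
        refine ⟨fun h3 => ?_, fun h3 => ?_⟩
        · rcases h3.2 J h1 with h4 | h4
          · exact absurd h4.symm hjJ
          · exact absurd h4 hJ'
        · rcases h3.2 J h2 with h4 | h4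
          · exact absurd h4.symm hjJ
          · exact absurd h4 hJ'
    rw [hdj, hnew]
    refine Run.finish ih' hstj hnf ?_ ?_
    · intro i r' s' h1 h2
      rw [← hdj]
      rcases hdur i r' s' (hst h1) with h5 | h5
      · rw [← h5]; exact hmin i r' s' h1 h2
      · exact Or.inl (lt_of_le_of_lt hnowle h5.2)
    · rw [← hdj]; exact hπ

end Par

end Pool.Agent.Lib.MP_c7bce0_lc
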