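import Pool.Agent.Lib.MP_c7bce0_lc.Model

/-!
# Geometric lemmas
-/

namespace Pool.Agent.Lib.MP_c7bce0_lc

open Finset

/-- One-dimensional covering lemma: if a set `D` has at most `β` points in every aligned segment of
length `G` contained in `[x, x + w)`, then it has at most `w β / G + 2 G` points in
`[x, x + w)`. -/
theorem seg1 (D : Finset ℕ) (G x w β : ℕ) (hG : 0 < G)
    (h : ∀ u, x ≤ u * G → u * G + G ≤ x + w → (D ∩ Ico (u * G) (u * G + G)).card ≤ β) :
    (D ∩ Ico x (x + w)).card * G ≤ w * β + 2 * G ^ 2 := by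
  set lo := (x + G - 1) / G with hlo
  set hi := (x + w) / G with hhi
  have hlo1 : x ≤ lo * G := by
    have := Nat.lt_div_mul_add hG (a := x + G - 1)
    rw [← hlo] at this
    omega
  have hlo2 : lo * G ≤ x + G - 1 := Nat.div_mul_le_self _ _
  have hhi1 : hi * G ≤ x + w := Nat.div_mul_le_self _ _
  have hhi2 : x + w < hi * G + G := Nat.lt_div_mul_add hG
  have hcov : D ∩ Ico x (x + w) ⊆ (Ico x (lo * G) ∪
      (Ico lo hi).biUnion fun u => D ∩ Ico (u * G) (u * G + G)) ∪ Ico (hi * G) (x + w) := by
    intro t ht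
    rw [mem_inter, mem_Ico] at ht
    obtain ⟨htD, ht1, ht2⟩ := ht
    have h1 : t / G * G ≤ t := Nat.div_mul_le_self _ _
    have h2 : t < t / G * G + G := Nat.lt_div_mul_add hG
    rw [mem_union, mem_union, mem_biUnion, mem_Ico, mem_Ico]
    by_cases h3 : t / G * G < x
    · left; left
      refine ⟨ht1, lt_of_lt_of_le h2 ?_⟩
      have h4 : t / G < lo := by
        by_contra hcon
        have := Nat.mul_le_mul_right G (not_lt.1 hcon)
        omega
      calc t / G * G + G = (t / G + 1) * G := by ring
        _ ≤ lo * G := Nat.mul_le_mul_right _ h4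
    · have h4 : lo ≤ t / G := by
        by_contra hcon
        have h5 : t / G + 1 ≤ lo := not_le.1 hcon
        have h6 := Nat.mul_le_mul_right G h5
        have h7 : (t / G + 1) * G = t / G * G + G := by ring
        omega
      by_cases h5 : t / G < hi
      · left; right
        exact ⟨t / G, mem_Ico.2 ⟨h4, h5⟩, mem_inter.2 ⟨htD, mem_Ico.2 ⟨h1, h2⟩⟩⟩
      · right
        exact ⟨(Nat.mul_le_mul_right G (not_lt.1 h5)).trans h1, ht2⟩
  have h1 : (D ∩ Ico x (x + w)).card ≤ (lo * G - x) + (hi - lo) * β + (x + w - hi * G) := by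
    refine (card_le_card hcov).trans ((card_union_le _ _).trans ?_)
    rw [Nat.card_Ico]
    refine Nat.add_le_add_right ((card_union_le _ _).trans ?_) _
    rw [Nat.card_Ico]
    refine Nat.add_le_add_left (card_biUnion_le.trans ?_) _
    calc ∑ u ∈ Ico lo hi, (D ∩ Ico (u * G) (u * G + G)).card ≤ ∑ _u ∈ Ico lo hi, β := by
          refine sum_le_sum fun u hu => ?_
          rw [mem_Ico] at hu
          apply h u
          · exact hlo1.trans (Nat.mul_le_mul_right _ hu.1)
          · calc u * G + G = (u + 1) * G := by ring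
              _ ≤ hi * G := Nat.mul_le_mul_right _ hu.2
              _ ≤ x + w := hhi1
      _ = (hi - lo) * β := by simp
  have h2 : (D ∩ Ico x (x + w)).card ≤ (hi - lo) * β + 2 * G := by omega
  have h3 : (hi - lo) * G ≤ w := by
    rw [Nat.sub_mul]
    omega
  calc (D ∩ Ico x (x + w)).card * G ≤ ((hi - lo) * β + 2 * G) * G := Nat.mul_le_mul_right _ h2
    _ = ((hi - lo) * G) * β + 2 * G ^ 2 := by ring
    _ ≤ w * β + 2 * G ^ 2 := by gcongr

theorem mem_cells {r : Rect} {p : ℕ × ℕ} :
    p ∈ r.cells ↔ (r.x ≤ p.1 ∧ p.1 < r.x + r.w) ∧ (r.y ≤ p.2 ∧ p.2 < r.y + r.h) := by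
  unfold Rect.cells
  rw [mem_product, mem_Ico, mem_Ico]

theorem card_cells (r : Rect) : r.cells.card = r.w * r.h := by
  unfold Rect.cells
  simp

/-- Two-dimensional covering lemma, rows. -/
theorem seg_rows (C : Finset (ℕ × ℕ)) (r : Rect) (G β : ℕ) (hG : 0 < G)
    (h : ∀ u v, r.x ≤ u * G → u * G + G ≤ r.x + r.w → r.y ≤ v → v < r.y + r.h →
      (C ∩ (Ico (u * G) (u * G + G) ×ˢ {v})).card ≤ β) :
    (C ∩ r.cells).card * G ≤ r.h * (r.w * β + 2 * G ^ 2) := by
  have h1 : (C ∩ r.cells).card = ∑ v ∈ Ico r.y (r.y + r.h),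
      ((C ∩ r.cells).filter fun p => p.2 = v).card :=
    card_eq_sum_card_fiberwise fun p hp => by
      have := (mem_cells.1 (mem_inter.1 hp).2).2
      simpa using this
  rw [h1, sum_mul]
  calc ∑ v ∈ Ico r.y (r.y + r.h), ((C ∩ r.cells).filter fun p => p.2 = v).card * G
      ≤ ∑ _v ∈ Ico r.y (r.y + r.h), (r.w * β + 2 * G ^ 2) := by
        refine sum_le_sum fun v hv => ?_
        rw [mem_Ico] at hv
        have key := seg1 ((C.filter fun p => p.2 = v).image Prod.fst) G r.x r.w β hG (by
          intro u hu1 hu2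
          refine le_trans ?_ (h u v hu1 hu2 hv.1 hv.2)
          refine card_le_card_of_injOn (fun t => (t, v)) ?_ ?_
          · intro t ht
            rw [mem_coe, mem_inter, mem_image] at ht
            obtain ⟨⟨p, hp, rfl⟩, ht2⟩ := ht
            rw [mem_filter] at hp
            have hpe : ((p.1, v) : ℕ × ℕ) = p := by rw [← hp.2]
            rw [mem_coe, mem_inter]
            exact ⟨by show (p.1, v) ∈ C; rw [hpe]; exact hp.1,
              mem_product.2 ⟨ht2, mem_singleton_self _⟩⟩
          · intro a _ b _ hab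
            exact (Prod.mk.inj hab).1)
        refine le_trans (Nat.mul_le_mul_right _ ?_) key
        refine card_le_card_of_injOn Prod.fst ?_ ?_
        · intro p hp
          rw [mem_coe, mem_filter, mem_inter] at hp
          obtain ⟨⟨hp1, hp2⟩, hp3⟩ := hp
          rw [mem_coe, mem_inter]
          refine ⟨mem_image.2 ⟨p, mem_filter.2 ⟨hp1, hp3⟩, rfl⟩, ?_⟩
          exact mem_Ico.2 (mem_cells.1 hp2).1
        · intro p hp p' hp' hpp
          rw [mem_coe, mem_filter] at hp hp'
          exact Prod.ext hpp (hp.2.trans hp'.2.symm)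
    _ = r.h * (r.w * β + 2 * G ^ 2) := by simp

/-- Two-dimensional covering lemma, columns. -/
theorem seg_cols (C : Finset (ℕ × ℕ)) (r : Rect) (G β : ℕ) (hG : 0 < G)
    (h : ∀ u v, r.x ≤ u → u < r.x + r.w → r.y ≤ v * G → v * G + G ≤ r.y + r.h →
      (C ∩ ({u} ×ˢ Ico (v * G) (v * G + G))).card ≤ β) :
    (C ∩ r.cells).card * G ≤ r.w * (r.h * β + 2 * G ^ 2) := by
  have h1 : (C ∩ r.cells).card = ∑ u ∈ Ico r.x (r.x + r.w),
      ((C ∩ r.cells).filter fun p => p.1 = u).card :=
    card_eq_sum_card_fiberwise fun p hp => by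
      have := (mem_cells.1 (mem_inter.1 hp).2).1
      simpa using this
  rw [h1, sum_mul]
  calc ∑ u ∈ Ico r.x (r.x + r.w), ((C ∩ r.cells).filter fun p => p.1 = u).card * G
      ≤ ∑ _u ∈ Ico r.x (r.x + r.w), (r.h * β + 2 * G ^ 2) := by
        refine sum_le_sum fun u hu => ?_
        rw [mem_Ico] at hu
        have key := seg1 ((C.filter fun p => p.1 = u).image Prod.snd) G r.y r.h β hG (by
          intro v hv1 hv2
          refine le_trans ?_ (h u v hu.1 hu.2 hv1 hv2)
          refine card_le_card_of_injOn (fun t => (u, t)) ?_ ?_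
          · intro t ht
            rw [mem_coe, mem_inter, mem_image] at ht
            obtain ⟨⟨p, hp, rfl⟩, ht2⟩ := ht
            rw [mem_filter] at hp
            have hpe : ((u, p.2) : ℕ × ℕ) = p := by rw [← hp.2]
            rw [mem_coe, mem_inter]
            exact ⟨by show (u, p.2) ∈ C; rw [hpe]; exact hp.1,
              mem_product.2 ⟨mem_singleton_self _, ht2⟩⟩
          · intro a _ b _ hab
            exact (Prod.mk.inj hab).2)
        refine le_trans (Nat.mul_le_mul_right _ ?_) key
        refine card_le_card_of_injOn Prod.snd ?_ ?_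
        · intro p hp
          rw [mem_coe, mem_filter, mem_inter] at hp
          obtain ⟨⟨hp1, hp2⟩, hp3⟩ := hp
          rw [mem_coe, mem_inter]
          refine ⟨mem_image.2 ⟨p, mem_filter.2 ⟨hp1, hp3⟩, rfl⟩, ?_⟩
          exact mem_Ico.2 (mem_cells.1 hp2).2
        · intro p hp p' hp' hpp
          rw [mem_coe, mem_filter] at hp hp'
          exact Prod.ext (hp.2.trans hp'.2.symm) hpp
    _ = r.w * (r.h * β + 2 * G ^ 2) := by simp

/-- Area-time lemma: if intervals `[s x, f x)` with weights `v x` lie in `[α, β]` and at every time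
the total weight of the intervals containing it is at most `c`, then the total weighted length is
at most `c (β - α)`. -/
theorem area_time {ι : Type} (A : Finset ι) (s f v : ι → ℝ) (α β c : ℝ) (hαβ : α ≤ β)
    (hsf : ∀ x ∈ A, s x ≤ f x) (hα : ∀ x ∈ A, α ≤ s x) (hβ : ∀ x ∈ A, f x ≤ β)
    (hc : ∀ t, α ≤ t → t < β → ∑ x ∈ A, (if s x ≤ t ∧ t < f x then v x else 0) ≤ c) :
    ∑ x ∈ A, v x * (f x - s x) ≤ c * (β - α) := by
  have hint : ∀ x ∈ A, IntervalIntegrable
      (fun t => Set.indicator (Set.Ico (s x) (f x)) (fun _ => v x) t) MeasureTheory.volume α β := by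
    intro x _
    apply MeasureTheory.Integrable.intervalIntegrable
    rw [MeasureTheory.integrable_indicator_iff measurableSet_Ico]
    exact MeasureTheory.integrableOn_const (by simp)
  have h1 : ∀ x ∈ A, ∫ t in α..β, Set.indicator (Set.Ico (s x) (f x)) (fun _ => v x) t =
      v x * (f x - s x) := by
    intro x hx
    rw [intervalIntegral.integral_of_le hαβ,
      MeasureTheory.integral_Ioc_eq_integral_Ioo, ← MeasureTheory.integral_Ico_eq_integral_Ioo,
      MeasureTheory.setIntegral_indicator measurableSet_Ico,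
      Set.inter_eq_right.2 (Set.Ico_subset_Ico (hα x hx) (hβ x hx)),
      MeasureTheory.setIntegral_const, smul_eq_mul, Real.volume_real_Ico_of_le (hsf x hx), mul_comm]
  calc ∑ x ∈ A, v x * (f x - s x)
      = ∫ t in α..β, ∑ x ∈ A, Set.indicator (Set.Ico (s x) (f x)) (fun _ => v x) t := by
        rw [intervalIntegral.integral_finsetSum hint]
        exact (sum_congr rfl h1).symm
    _ ≤ ∫ _t in α..β, c := by
        rw [intervalIntegral.integral_of_le hαβ, intervalIntegral.integral_of_le hαβ,
          MeasureTheory.integral_Ioc_eq_integral_Ioo, MeasureTheory.integral_Ioc_eq_integral_Ioo]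
        refine MeasureTheory.setIntegral_mono_on ?_ ?_ measurableSet_Ioo ?_
        · refine MeasureTheory.Integrable.mono_measure ?_ MeasureTheory.Measure.restrict_le_self
          refine MeasureTheory.integrable_finsetSum _ fun x _ => ?_
          rw [MeasureTheory.integrable_indicator_iff measurableSet_Ico]
          exact MeasureTheory.integrableOn_const (by simp)
        · exact MeasureTheory.integrableOn_const (by simp)
        · intro t ht
          refine le_trans (le_of_eq (sum_congr rfl fun x _ => ?_)) (hc t ht.1.le ht.2)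
          unfold Set.indicator
          simp only [Set.mem_Ico]
    _ = c * (β - α) := by
        rw [intervalIntegral.integral_const, smul_eq_mul, mul_comm]

end Pool.Agent.Lib.MP_c7bce0_lc
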