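import Pool.Agent.Lib.MP_c7bce0_lc.Prob
import Pool.Agent.Lib.MP_c7bce0_lc.Geometry

/-!
# The deterministic part of the lower bound
-/

namespace Pool.Agent.Lib.MP_c7bce0_lc

namespace Par

variable {P : Par} {π : Policy} {z : P.Z}

/-- Data extracted from a complete run. -/
structure CRun (π : Policy) (z : P.Z) where
  H : History
  run : Run π (inst z) H
  compl : Complete (inst z) H
  S : Sched
  hist : ℕ → History
  started : ∀ x ∈ P.jobs, Started H x (S.rect x) (S.start x)
  hist_suffix : ∀ x ∈ P.jobs, ∃ T, H = T ++ hist x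
  hist_head : ∀ x ∈ P.jobs, ∃ a H', hist x = ⟨S.start x, Ev.start x (S.rect x), a⟩ :: H'

theorem exists_crun {H : History} (h : Run π (inst z) H) (hc : Complete (inst z) H) :
    ∃ C : CRun π z, C.H = H := by
  have h1 : ∀ x ∈ P.jobs, ∃ (r : Rect) (s : ℝ) (Hx : History), Started H x r s ∧
      (∃ T, H = T ++ Hx) ∧ ∃ a H', Hx = ⟨s, Ev.start x r, a⟩ :: H' := by
    intro x hx
    obtain ⟨r, s, hs⟩ := h.finished_started (hc x hx)
    obtain ⟨e, he, h2, h3⟩ := hs
    obtain ⟨T, H', hT⟩ := List.append_of_mem he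
    refine ⟨r, s, e :: H', ⟨e, he, h2, h3⟩, ⟨T, hT⟩, e.new, H', ?_⟩
    rw [← h2, ← h3]
  have : Nonempty Rect := ⟨⟨0, 0, 0, 0⟩⟩
  choose! r s Hx h2 h3 h4 using h1
  exact ⟨⟨H, h, hc, ⟨s, r⟩, Hx, h2, h3, h4⟩, rfl⟩

namespace CRun

variable (C : CRun π z)

/-- Starting time. -/
def st (x : ℕ) : ℝ := C.S.start x

/-- Ending time. -/
noncomputable def fi (x : ℕ) : ℝ := C.S.start x + (inst z).dur x (C.S.rect x)

/-- Rectangle. -/
def rc (x : ℕ) : Rect := C.S.rect x

variable {C}

theorem fits {x : ℕ} (hx : x ∈ P.jobs) : (inst z).Fits x (C.rc x) :=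
  (C.run.started_fits (C.started x hx)).2

theorem w_pos {x : ℕ} (hx : x ∈ P.jobs) : (0 : ℝ) < (C.rc x).w := by
  have := (C.fits hx).1
  exact_mod_cast this

theorem h_pos {x : ℕ} (hx : x ∈ P.jobs) : (0 : ℝ) < (C.rc x).h := by
  have := (C.fits hx).2.2.1
  exact_mod_cast this

theorem short_pos {x : ℕ} (hx : x ∈ P.jobs) : 0 < P.short x (C.rc x) := by
  unfold short
  have h1 := C.w_pos hx
  have h2 := C.h_pos hx
  have h3 : (0 : ℝ) < P.wd (P.ph x) := by exact_mod_cast P.wd_pos _
  have h4 : (0 : ℝ) < P.ht (P.ph x) := by exact_mod_cast P.ht_pos _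
  have h5 := P.T_pos
  positivity

theorem st_lt_fi {x : ℕ} (hx : x ∈ P.jobs) : C.st x < C.fi x := by
  have h1 := C.short_pos hx
  have h2 := short_le_dur z x (C.rc x)
  unfold st fi
  unfold rc at h1 h2
  linarith

theorem st_nonneg {x : ℕ} (hx : x ∈ P.jobs) : 0 ≤ C.st x :=
  C.run.started_nonneg (C.started x hx)

theorem fi_le_now {x : ℕ} (hx : x ∈ P.jobs) : C.fi x ≤ now C.H :=
  C.run.fin_le_now (C.compl x hx) (C.started x hx)

theorem prec {x y : ℕ} (hx : x ∈ P.jobs) (hy : y ∈ P.jobs) (hl : ¬ Long z y)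
    (h : P.ph y < P.ph x) : C.fi y ≤ C.st x := by
  obtain ⟨-, r', s', h2, h3⟩ := C.run.pre_fin (C.started x hx) y (mem_pre.2 ⟨hy, hl, h⟩)
  obtain ⟨h4, h5⟩ := C.run.started_unique (C.started y hy) h2
  unfold fi st
  rw [h4, h5]
  exact h3

theorem conflict {x y : ℕ} (hx : x ∈ P.jobs) (hy : y ∈ P.jobs) (h : x ≠ y) :
    Disjoint (C.rc x).cells (C.rc y).cells ∨ C.fi x ≤ C.st y ∨ C.fi y ≤ C.st x :=
  C.run.conflict (C.started x hx) (C.started y hy) h

theorem disjoint_of_overlap {x y : ℕ} (hx : x ∈ P.jobs) (hy : y ∈ P.jobs) (h : x ≠ y) {t : ℝ}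
    (h1 : C.st x ≤ t) (h2 : t < C.fi x) (h3 : C.st y ≤ t) (h4 : t < C.fi y) :
    Disjoint (C.rc x).cells (C.rc y).cells := by
  rcases C.conflict hx hy h with h5 | h5 | h5
  · exact h5
  · linarith
  · linarith

theorem reach {x : ℕ} (hx : x ∈ P.jobs) : Reach π z x (C.hist x) := by
  obtain ⟨T, hT⟩ := C.hist_suffix x hx
  obtain ⟨a, H', hH'⟩ := C.hist_head x hx
  refine ⟨?_, _, _, _, _, hH'⟩
  apply Run.suffix (T := T)
  · rw [← hT]; exact C.run
  · rw [hH']; simp

theorem now_hist {x : ℕ} (hx : x ∈ P.jobs) : now (C.hist x) = C.st x := by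
  obtain ⟨a, H', hH'⟩ := C.hist_head x hx
  rw [hH']
  rfl

/-- Job `y` was started not later than `x` in the order of the history. -/
def Before (C : CRun π z) (y x : ℕ) : Prop := Started (C.hist x) y (C.rc y) (C.st y)

theorem Before.st_le {x y : ℕ} (hx : x ∈ P.jobs) (h : C.Before y x) : C.st y ≤ C.st x := by
  have := (C.reach hx).1.started_le h
  rwa [C.now_hist hx] at this

theorem before_self {x : ℕ} (hx : x ∈ P.jobs) : C.Before x x := by
  obtain ⟨a, H', hH'⟩ := C.hist_head x hx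
  unfold Before
  rw [hH']
  exact ⟨_, List.mem_cons_self, rfl, rfl⟩

/-- In a nonempty set of jobs there is one that was started last. -/
theorem exists_last {U : Finset ℕ} (hU : U.Nonempty) (hsub : U ⊆ P.jobs) :
    ∃ J ∈ U, ∀ y ∈ U, C.Before y J := by
  obtain ⟨J, hJ, hmax⟩ := U.exists_max_image (fun x => (C.hist x).length) hU
  refine ⟨J, hJ, fun y hy => ?_⟩
  obtain ⟨T, hT⟩ := C.hist_suffix J (hsub hJ)
  obtain ⟨T', hT'⟩ := C.hist_suffix y (hsub hy)
  have h1 : C.hist y <:+ C.hist J := by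
    apply List.suffix_of_suffix_length_le (l₃ := C.H) ⟨T', hT'.symm⟩ ⟨T, hT.symm⟩
    exact hmax y hy
  obtain ⟨T'', hT''⟩ := h1
  unfold Before
  rw [← hT'']
  exact Started.mono (C.before_self (hsub hy))

/-- The time when all short jobs of phases before `p` have ended. -/
noncomputable def tau (C : CRun π z) (p : ℕ) : ℝ :=
  (insert 0 ((P.jobs.filter fun x => ¬ Long z x ∧ P.ph x < p).image C.fi)).max'
    ⟨0, Finset.mem_insert_self _ _⟩

theorem tau_nonneg (p : ℕ) : 0 ≤ C.tau p := Finset.le_max' _ _ (Finset.mem_insert_self _ _)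

theorem le_tau {x p : ℕ} (hx : x ∈ P.jobs) (hl : ¬ Long z x) (hp : P.ph x < p) :
    C.fi x ≤ C.tau p :=
  Finset.le_max' _ _ (Finset.mem_insert_of_mem (Finset.mem_image_of_mem _
    (Finset.mem_filter.2 ⟨hx, hl, hp⟩)))

theorem tau_le {p : ℕ} {c : ℝ} (hc : 0 ≤ c)
    (h : ∀ x ∈ P.jobs, ¬ Long z x → P.ph x < p → C.fi x ≤ c) : C.tau p ≤ c := by
  refine Finset.max'_le _ _ _ fun y hy => ?_
  rw [Finset.mem_insert, Finset.mem_image] at hy
  rcases hy with rfl | ⟨x, hx, rfl⟩
  · exact hc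
  · obtain ⟨h1, h2, h3⟩ := Finset.mem_filter.1 hx
    exact h x h1 h2 h3

theorem tau_le_st {x p : ℕ} (hx : x ∈ P.jobs) (hp : p ≤ P.ph x) : C.tau p ≤ C.st x :=
  tau_le (C.st_nonneg hx) fun _ hy hl hyp => C.prec hx hy hl (lt_of_lt_of_le hyp hp)

theorem tau_mono {p p' : ℕ} (h : p ≤ p') : C.tau p ≤ C.tau p' :=
  tau_le (C.tau_nonneg _) fun _ hy hl hyp => C.le_tau hy hl (lt_of_lt_of_le hyp h)

theorem tau_le_now (p : ℕ) : C.tau p ≤ now C.H :=
  tau_le C.run.now_nonneg fun _ hy _ _ => C.fi_le_now hy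

theorem tau_zero : C.tau 0 = 0 :=
  le_antisymm (tau_le le_rfl fun _ _ _ h => absurd h (Nat.not_lt_zero _)) (C.tau_nonneg _)

/-- The short jobs of phase `p`. -/
def shorts (z : P.Z) (p : ℕ) : Finset ℕ := P.jobs.filter fun x => ¬ Long z x ∧ P.ph x = p

theorem mem_shorts {x p : ℕ} : x ∈ shorts z p ↔ x ∈ P.jobs ∧ ¬ Long z x ∧ P.ph x = p := by
  unfold shorts
  rw [Finset.mem_filter]

open Classical in
/-- The short jobs of the phase of `J` that are running just after `J` starts. -/
noncomputable def grp (C : CRun π z) (J : ℕ) : Finset ℕ :=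
  (shorts z (P.ph J)).filter fun y => C.Before y J ∧ C.st J < C.fi y

theorem mem_grp {J y : ℕ} : y ∈ C.grp J ↔ y ∈ P.jobs ∧ ¬ Long z y ∧ P.ph y = P.ph J ∧
    C.Before y J ∧ C.st J < C.fi y := by
  classical
  unfold grp
  rw [Finset.mem_filter, mem_shorts]
  tauto

/-- The processors used by the jobs of `grp J`. -/
noncomputable def area (C : CRun π z) (J : ℕ) : Finset (ℕ × ℕ) :=
  (C.grp J).biUnion fun y => (C.rc y).cells

theorem card_area {J : ℕ} (hJ : J ∈ P.jobs) :
    (C.area J).card = ∑ y ∈ C.grp J, (C.rc y).w * (C.rc y).h := by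
  unfold area
  rw [Finset.card_biUnion]
  · exact Finset.sum_congr rfl fun y _ => card_cells _
  · intro x hx y hy hxy
    obtain ⟨h1, -, -, h4, h5⟩ := mem_grp.1 hx
    obtain ⟨h1', -, -, h4', h5'⟩ := mem_grp.1 hy
    exact C.disjoint_of_overlap h1 h1' hxy (h4.st_le hJ) h5 (h4'.st_le hJ) h5'

theorem cells_subset {x : ℕ} (hx : x ∈ P.jobs) :
    (C.rc x).cells ⊆ Finset.range P.n ×ˢ Finset.range P.n := by
  intro p hp
  obtain ⟨⟨_, h2⟩, _, h4⟩ := mem_cells.1 hp
  obtain ⟨-, -, -, -, h5, h6⟩ := C.fits hx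
  rw [Finset.mem_product, Finset.mem_range, Finset.mem_range]
  omega

theorem area_subset {J : ℕ} : C.area J ⊆ Finset.range P.n ×ˢ Finset.range P.n := by
  intro p hp
  obtain ⟨y, hy, hp⟩ := Finset.mem_biUnion.1 hp
  exact C.cells_subset (mem_grp.1 hy).1 hp

/-- For every nonempty phase there is a job `J` of it maximising the area in use just after its
start, and the length of the phase is at least the work of the phase divided by that area. -/
theorem exists_peak {p : ℕ} (hne : (shorts z p).Nonempty) :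
    ∃ J, J ∈ P.jobs ∧ ¬ Long z J ∧ P.ph J = p ∧
      ((shorts z p).card : ℝ) * (P.T * (P.wd p * P.ht p)) ≤
        (C.area J).card * (C.tau (p + 1) - C.tau p) := by
  obtain ⟨J, hJ, hmax⟩ := (shorts z p).exists_max_image (fun J => (C.area J).card) hne
  obtain ⟨hJ1, hJ2, hJ3⟩ := mem_shorts.1 hJ
  refine ⟨J, hJ1, hJ2, hJ3, ?_⟩
  have h1 := area_time (shorts z p) C.st C.fi (fun x => ((C.rc x).w * (C.rc x).h : ℝ))
    (C.tau p) (C.tau (p + 1)) ((C.area J).card) (C.tau_mono (Nat.le_succ _))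
    (fun x hx => (C.st_lt_fi (mem_shorts.1 hx).1).le)
    (fun x hx => C.tau_le_st (mem_shorts.1 hx).1 (mem_shorts.1 hx).2.2.ge)
    (fun x hx => C.le_tau (mem_shorts.1 hx).1 (mem_shorts.1 hx).2.1
      (by rw [(mem_shorts.1 hx).2.2]; exact Nat.lt_succ_self _)) (by
      intro t _ _
      rw [← Finset.sum_filter]
      set U := (shorts z p).filter fun x => C.st x ≤ t ∧ t < C.fi x with hU
      rcases U.eq_empty_or_nonempty with h | h
      · rw [h]; simp
      · have hUs : U ⊆ P.jobs := fun x hx => (mem_shorts.1 (Finset.mem_filter.1 hx).1).1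
        obtain ⟨J', hJ', hlast⟩ := C.exists_last h hUs
        obtain ⟨h2, h3, h4⟩ := Finset.mem_filter.1 hJ'
        have h5 : U ⊆ C.grp J' := by
          intro y hy
          obtain ⟨h6, h7, h8⟩ := Finset.mem_filter.1 hy
          obtain ⟨h9, h10, h11⟩ := mem_shorts.1 h6
          refine mem_grp.2 ⟨h9, h10, h11.trans (mem_shorts.1 h2).2.2.symm, hlast y hy, ?_⟩
          linarith
        calc ∑ x ∈ U, ((C.rc x).w * (C.rc x).h : ℝ)
            ≤ ∑ x ∈ C.grp J', ((C.rc x).w * (C.rc x).h : ℝ) :=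
              Finset.sum_le_sum_of_subset_of_nonneg h5 fun _ _ _ => by positivity
          _ = (C.area J').card := by
              rw [C.card_area (mem_shorts.1 h2).1]
              push_cast
              rfl
          _ ≤ (C.area J).card := by exact_mod_cast hmax J' h2)
  refine le_trans (le_of_eq ?_) h1
  rw [Finset.card_eq_sum_ones, Nat.cast_sum, Finset.sum_mul]
  refine Finset.sum_congr rfl fun x hx => ?_
  obtain ⟨h2, h3, h4⟩ := mem_shorts.1 hx
  have h5 : C.fi x - C.st x = P.short x (C.rc x) := by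
    unfold fi st rc
    rw [dur_short h3]
    ring
  rw [h5]
  unfold short
  rw [h4]
  have h6 := C.w_pos h2
  have h7 := C.h_pos h2
  push_cast
  field_simp

end CRun

/-- A horizontal segment of the grid of phase `p`. -/
def hseg (P : Par) (g p u v : ℕ) : Finset (ℕ × ℕ) :=
  Finset.Ico (u * (g * P.wd p)) (u * (g * P.wd p) + g * P.wd p) ×ˢ {v}

/-- A vertical segment of the grid of phase `p`. -/
def vseg (P : Par) (g p u v : ℕ) : Finset (ℕ × ℕ) :=
  {u} ×ˢ Finset.Ico (v * (g * P.ht p)) (v * (g * P.ht p) + g * P.ht p)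

/-- All segments for phase `p`. -/
def segs (P : Par) (g p : ℕ) : Finset (Finset (ℕ × ℕ)) :=
  (Finset.range P.n ×ˢ Finset.range P.n).image (fun uv => P.hseg g p uv.1 uv.2) ∪
    (Finset.range P.n ×ˢ Finset.range P.n).image (fun uv => P.vseg g p uv.1 uv.2)

theorem card_segs (P : Par) (g p : ℕ) : (P.segs g p).card ≤ 2 * P.n ^ 2 := by
  have h1 : (Finset.range P.n ×ˢ Finset.range P.n).card = P.n ^ 2 := by
    rw [Finset.card_product, Finset.card_range, pow_two]
  refine (Finset.card_union_le _ _).trans ?_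
  have h2 := Finset.card_image_le (s := Finset.range P.n ×ˢ Finset.range P.n)
    (f := fun uv => P.hseg g p uv.1 uv.2)
  have h3 := Finset.card_image_le (s := Finset.range P.n ×ˢ Finset.range P.n)
    (f := fun uv => P.vseg g p uv.1 uv.2)
  omega

namespace CRun

variable {C : CRun π z}

/-- Few jobs of the group of `J` meet a segment inside a rectangle used later in the window. -/
theorem few_meet {lo hi k J y : ℕ} {σ : Finset (ℕ × ℕ)} (hw : C.tau hi - C.tau lo < 1)
    (hJ : J ∈ P.jobs) (hJs : ¬ Long z J) (hy : y ∈ P.jobs) (hys : ¬ Long z y)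
    (h1 : lo ≤ P.ph J) (h2 : P.ph J < P.ph y) (h3 : P.ph y < hi)
    (hσ : σ ⊆ (C.rc y).cells) (hgood : z ∉ P.bad π k J σ) :
    ((C.grp J).filter fun x => ¬ Disjoint (C.rc x).cells σ).card ≤ k := by
  classical
  have hreach := C.reach hJ
  have hshort : ∀ x ∈ P.Qs (C.hist J) J σ, ¬ Long z x := by
    intro x hx hl
    obtain ⟨h4, h5, r, s, h6, h7, h8⟩ := mem_Qs.1 hx
    have hxj : (x : ℕ) ∈ P.jobs := (hreach.1.started_fits h6).1
    obtain ⟨T, hT⟩ := C.hist_suffix J hJ
    have h9 : Started C.H x r s := by rw [hT]; exact h6.mono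
    obtain ⟨h10, h11⟩ := C.run.started_unique (C.started x hxj) h9
    have hbef : C.Before x J := by
      unfold Before st rc
      rw [h10, h11]
      exact h6
    have h12 : ¬ Disjoint (C.rc x).cells (C.rc y).cells := by
      intro hd
      apply h8
      rw [← h10]
      exact Finset.disjoint_of_subset_right hσ hd
    have hne : (x : ℕ) ≠ y := by
      intro he
      rw [← he, h4] at h2
      exact lt_irrefl _ h2
    have h13 : C.st x ≤ C.st J := hbef.st_le hJ
    have h14 : C.st J < C.fi J := C.st_lt_fi hJ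
    have h15 : C.fi J ≤ C.st y := C.prec hy hJ hJs h2
    have h16 : C.st y < C.fi y := C.st_lt_fi hy
    have h17 : C.fi y ≤ C.tau hi := C.le_tau hy hys h3
    have h18 : C.tau lo ≤ C.st x := C.tau_le_st hxj (by rw [h4]; exact h1)
    have h19 : C.st x + 1 ≤ C.fi x := by
      have := one_le_dur hl (C.fits hxj)
      unfold fi
      unfold rc at this
      unfold st
      linarith
    rcases C.conflict hxj hy hne with h | h | h
    · exact h12 h
    · linarith
    · linarith
  have hlt : (P.Qs (C.hist J) J σ).card < k := by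
    by_contra hcon
    apply hgood
    unfold bad
    rw [Finset.mem_filter]
    exact ⟨Finset.mem_univ _, hJs, C.hist J, hreach, not_lt.1 hcon, hshort⟩
  have hsub : ((C.grp J).filter fun x => ¬ Disjoint (C.rc x).cells σ) ⊆
      insert J ((P.Qs (C.hist J) J σ).image Fin.val) := by
    intro x hx
    obtain ⟨h4, h5⟩ := Finset.mem_filter.1 hx
    obtain ⟨h6, h7, h8, h9, h10⟩ := mem_grp.1 h4
    rw [Finset.mem_insert]
    by_cases hxJ : x = J
    · exact Or.inl hxJ
    · right
      rw [Finset.mem_image]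
      refine ⟨⟨x, (mem_jobs.1 h6).1⟩, mem_Qs.2 ⟨h8, hxJ, C.rc x, C.st x, h9, ?_, h5⟩, rfl⟩
      rw [C.now_hist hJ]
      show C.st J < C.st x + P.short x (C.rc x)
      rw [← dur_short h7]
      exact h10
  calc ((C.grp J).filter fun x => ¬ Disjoint (C.rc x).cells σ).card
      ≤ (insert J ((P.Qs (C.hist J) J σ).image Fin.val)).card :=
        Finset.card_le_card hsub
    _ ≤ ((P.Qs (C.hist J) J σ).image Fin.val).card + 1 := Finset.card_insert_le _ _
    _ ≤ (P.Qs (C.hist J) J σ).card + 1 := Nat.add_le_add_right Finset.card_image_le _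
    _ ≤ k := hlt

theorem card_area_inter_le {J k a : ℕ} {σ : Finset (ℕ × ℕ)}
    (h1 : ((C.grp J).filter fun x => ¬ Disjoint (C.rc x).cells σ).card ≤ k)
    (h2 : ∀ x ∈ C.grp J, ((C.rc x).cells ∩ σ).card ≤ a) :
    (C.area J ∩ σ).card ≤ k * a := by
  classical
  have h3 : C.area J ∩ σ ⊆
      ((C.grp J).filter fun x => ¬ Disjoint (C.rc x).cells σ).biUnion
        fun x => (C.rc x).cells ∩ σ := by
    intro p hp
    obtain ⟨hp1, hp2⟩ := Finset.mem_inter.1 hp
    obtain ⟨x, hx, hp3⟩ := Finset.mem_biUnion.1 hp1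
    refine Finset.mem_biUnion.2 ⟨x, Finset.mem_filter.2 ⟨hx, ?_⟩, Finset.mem_inter.2 ⟨hp3, hp2⟩⟩
    exact Finset.not_disjoint_iff.2 ⟨p, hp3, hp2⟩
  calc (C.area J ∩ σ).card
      ≤ _ := Finset.card_le_card h3
    _ ≤ ∑ x ∈ (C.grp J).filter (fun x => ¬ Disjoint (C.rc x).cells σ),
          ((C.rc x).cells ∩ σ).card := Finset.card_biUnion_le
    _ ≤ ∑ _x ∈ (C.grp J).filter (fun x => ¬ Disjoint (C.rc x).cells σ), a :=
        Finset.sum_le_sum fun x hx => h2 x (Finset.mem_filter.1 hx).1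
    _ = ((C.grp J).filter fun x => ¬ Disjoint (C.rc x).cells σ).card * a := by simp
    _ ≤ k * a := Nat.mul_le_mul_right _ h1

/-- In a window of length less than `1`, the dimensions of the rectangle of a short job are larger
than `T` times the requested ones. -/
theorem dims_gt {lo hi y : ℕ} (hw : C.tau hi - C.tau lo < 1) (hy : y ∈ P.jobs)
    (hys : ¬ Long z y) (h1 : lo ≤ P.ph y) (h2 : P.ph y < hi) :
    P.T * P.wd (P.ph y) < (C.rc y).w ∧ P.T * P.ht (P.ph y) < (C.rc y).h := by
  have h3 : C.tau lo ≤ C.st y := C.tau_le_st hy h1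
  have h4 : C.fi y ≤ C.tau hi := C.le_tau hy hys h2
  have h5 : C.fi y - C.st y = P.short y (C.rc y) := by
    unfold fi st rc
    rw [dur_short hys]
    ring
  have h6 : P.short y (C.rc y) < 1 := by rw [← h5]; linarith
  have hw' := C.w_pos hy
  have hh' := C.h_pos hy
  unfold short at h6
  rw [div_lt_one (by positivity)] at h6
  obtain ⟨-, h7, -, h8, -, -⟩ := C.fits hy
  have h7' : ((C.rc y).w : ℝ) ≤ P.wd (P.ph y) := by exact_mod_cast h7
  have h8' : ((C.rc y).h : ℝ) ≤ P.ht (P.ph y) := by exact_mod_cast h8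
  have hwd : (0 : ℝ) < P.wd (P.ph y) := by exact_mod_cast P.wd_pos _
  have hht : (0 : ℝ) < P.ht (P.ph y) := by exact_mod_cast P.ht_pos _
  constructor
  · have : P.T * P.wd (P.ph y) * P.ht (P.ph y) < (C.rc y).w * P.ht (P.ph y) := by
      calc P.T * P.wd (P.ph y) * P.ht (P.ph y) = P.T * (P.wd (P.ph y) * P.ht (P.ph y)) := by ring
        _ < (C.rc y).w * (C.rc y).h := h6
        _ ≤ (C.rc y).w * P.ht (P.ph y) := by gcongr
    exact lt_of_mul_lt_mul_right this hht.le
  · have : P.T * P.ht (P.ph y) * P.wd (P.ph y) < (C.rc y).h * P.wd (P.ph y) := by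
      calc P.T * P.ht (P.ph y) * P.wd (P.ph y) = P.T * (P.wd (P.ph y) * P.ht (P.ph y)) := by ring
        _ < (C.rc y).w * (C.rc y).h := h6
        _ ≤ P.wd (P.ph y) * (C.rc y).h := by gcongr
        _ = (C.rc y).h * P.wd (P.ph y) := by ring
    exact lt_of_mul_lt_mul_right this hwd.le

/-- The area used by the group of `J` covers only a small part of any rectangle used by a short
job of a later phase of the window. -/
theorem overlap {lo hi k J y : ℕ} (hw : C.tau hi - C.tau lo < 1) (hk : 0 < k)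
    (hJ : J ∈ P.jobs) (hJs : ¬ Long z J) (hy : y ∈ P.jobs) (hys : ¬ Long z y)
    (h1 : lo ≤ P.ph J) (h2 : P.ph J < P.ph y) (h3 : P.ph y < hi)
    (hgood : ∀ σ ∈ P.segs (4 * P.L * k) (P.ph J), z ∉ P.bad π k J σ)
    (hq : 32 * (P.L : ℝ) ^ 2 * k ≤ P.T * P.q)
    (hcmp : P.q * P.wd (P.ph J) ≤ P.wd (P.ph y) ∨ P.q * P.ht (P.ph J) ≤ P.ht (P.ph y)) :
    2 * P.L * (C.area J ∩ (C.rc y).cells).card ≤ (C.rc y).w * (C.rc y).h := by
  classical
  obtain ⟨hdw, hdh⟩ := C.dims_gt hw hy hys (h1.trans h2.le) h3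
  have hL := P.L_pos
  have hg : 0 < 4 * P.L * k := by positivity
  have hrange : ∀ {u v : ℕ}, (u, v) ∈ (C.rc y).cells → u < P.n ∧ v < P.n := by
    intro u v huv
    have := C.cells_subset hy huv
    rw [Finset.mem_product, Finset.mem_range, Finset.mem_range] at this
    exact this
  rcases hcmp with hcmp | hcmp
  · -- the later job is much wider
    have hA := P.wd_pos (P.ph J)
    have hG : 0 < 4 * P.L * k * P.wd (P.ph J) := by positivity
    have key := seg_rows (C.area J) (C.rc y) (4 * P.L * k * P.wd (P.ph J)) (k * P.wd (P.ph J)) hG (by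
      intro u v hu1 hu2 hv1 hv2
      have hsub : P.hseg (4 * P.L * k) (P.ph J) u v ⊆ (C.rc y).cells := by
        intro p hp
        unfold hseg at hp
        rw [Finset.mem_product, Finset.mem_Ico, Finset.mem_singleton] at hp
        rw [mem_cells]
        omega
      have huv : u < P.n ∧ v < P.n := by
        have h5 : (u * (4 * P.L * k * P.wd (P.ph J)), v) ∈ (C.rc y).cells := by
          apply hsub
          unfold hseg
          rw [Finset.mem_product, Finset.mem_Ico, Finset.mem_singleton]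
          exact ⟨⟨le_rfl, Nat.lt_add_of_pos_right hG⟩, rfl⟩
        obtain ⟨h6, h7⟩ := hrange h5
        exact ⟨lt_of_le_of_lt (Nat.le_mul_of_pos_right u hG) h6, h7⟩
      have hmem : P.hseg (4 * P.L * k) (P.ph J) u v ∈ P.segs (4 * P.L * k) (P.ph J) := by
        unfold segs
        rw [Finset.mem_union, Finset.mem_image]
        exact Or.inl ⟨(u, v), Finset.mem_product.2 ⟨Finset.mem_range.2 huv.1,
          Finset.mem_range.2 huv.2⟩, rfl⟩
      have hfew := C.few_meet hw hJ hJs hy hys h1 h2 h3 hsub (hgood _ hmem)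
      refine C.card_area_inter_le hfew ?_
      intro x hx
      obtain ⟨h4, -, h5, -, -⟩ := mem_grp.1 hx
      have h6 : (C.rc x).cells ∩ P.hseg (4 * P.L * k) (P.ph J) u v ⊆
          Finset.Ico (C.rc x).x ((C.rc x).x + (C.rc x).w) ×ˢ {v} := by
        intro p hp
        obtain ⟨h7, h8⟩ := Finset.mem_inter.1 hp
        unfold hseg at h8
        rw [Finset.mem_product] at h8
        rw [Finset.mem_product, Finset.mem_Ico]
        exact ⟨(mem_cells.1 h7).1, h8.2⟩
      refine (Finset.card_le_card h6).trans ?_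
      rw [Finset.card_product, Finset.card_singleton, mul_one, Nat.card_Ico]
      have := (C.fits h4).2.1
      have h9 : (inst z).a x = P.wd (P.ph J) := by
        show P.wd (P.ph x) = _
        rw [h5]
      omega)
    -- arithmetic
    have h4 : 32 * P.L ^ 2 * k * P.wd (P.ph J) ≤ (C.rc y).w := by
      have h5 : (P.q : ℝ) * P.wd (P.ph J) ≤ P.wd (P.ph y) := by exact_mod_cast hcmp
      have h6 : 32 * (P.L : ℝ) ^ 2 * k * P.wd (P.ph J) ≤ (C.rc y).w := by
        calc 32 * (P.L : ℝ) ^ 2 * k * P.wd (P.ph J) ≤ P.T * P.q * P.wd (P.ph J) := by gcongr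
          _ = P.T * (P.q * P.wd (P.ph J)) := by ring
          _ ≤ P.T * P.wd (P.ph y) := by
              have := P.T_pos
              gcongr
          _ ≤ (C.rc y).w := hdw.le
      exact_mod_cast h6
    have h5 : (C.area J ∩ (C.rc y).cells).card * (4 * P.L * k) ≤
        (C.rc y).h * ((C.rc y).w * k + 2 * (4 * P.L * k) ^ 2 * P.wd (P.ph J)) := by
      apply Nat.le_of_mul_le_mul_right _ hA
      calc (C.area J ∩ (C.rc y).cells).card * (4 * P.L * k) * P.wd (P.ph J)
          = (C.area J ∩ (C.rc y).cells).card * (4 * P.L * k * P.wd (P.ph J)) := by ring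
        _ ≤ _ := key
        _ = _ := by ring
    have h6 : 2 * (4 * P.L * k) ^ 2 * P.wd (P.ph J) ≤ (C.rc y).w * k := by
      calc 2 * (4 * P.L * k) ^ 2 * P.wd (P.ph J) = (32 * P.L ^ 2 * k * P.wd (P.ph J)) * k := by ring
        _ ≤ (C.rc y).w * k := Nat.mul_le_mul_right _ h4
    apply Nat.le_of_mul_le_mul_right _ (show 0 < 2 * k by positivity)
    calc 2 * P.L * (C.area J ∩ (C.rc y).cells).card * (2 * k)
        = (C.area J ∩ (C.rc y).cells).card * (4 * P.L * k) := by ring
      _ ≤ (C.rc y).h * ((C.rc y).w * k + 2 * (4 * P.L * k) ^ 2 * P.wd (P.ph J)) := h5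
      _ ≤ (C.rc y).h * ((C.rc y).w * k + (C.rc y).w * k) := by gcongr
      _ = (C.rc y).w * (C.rc y).h * (2 * k) := by ring
  · -- the later job is much higher
    have hA := P.ht_pos (P.ph J)
    have hG : 0 < 4 * P.L * k * P.ht (P.ph J) := by positivity
    have key := seg_cols (C.area J) (C.rc y) (4 * P.L * k * P.ht (P.ph J)) (k * P.ht (P.ph J)) hG (by
      intro u v hu1 hu2 hv1 hv2
      have hsub : P.vseg (4 * P.L * k) (P.ph J) u v ⊆ (C.rc y).cells := by
        intro p hp
        unfold vseg at hp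
        rw [Finset.mem_product, Finset.mem_Ico, Finset.mem_singleton] at hp
        rw [mem_cells]
        omega
      have huv : u < P.n ∧ v < P.n := by
        have h5 : (u, v * (4 * P.L * k * P.ht (P.ph J))) ∈ (C.rc y).cells := by
          apply hsub
          unfold vseg
          rw [Finset.mem_product, Finset.mem_Ico, Finset.mem_singleton]
          exact ⟨rfl, le_rfl, Nat.lt_add_of_pos_right hG⟩
        obtain ⟨h6, h7⟩ := hrange h5
        exact ⟨h6, lt_of_le_of_lt (Nat.le_mul_of_pos_right v hG) h7⟩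
      have hmem : P.vseg (4 * P.L * k) (P.ph J) u v ∈ P.segs (4 * P.L * k) (P.ph J) := by
        unfold segs
        rw [Finset.mem_union, Finset.mem_image, Finset.mem_image]
        exact Or.inr ⟨(u, v), Finset.mem_product.2 ⟨Finset.mem_range.2 huv.1,
          Finset.mem_range.2 huv.2⟩, rfl⟩
      have hfew := C.few_meet hw hJ hJs hy hys h1 h2 h3 hsub (hgood _ hmem)
      refine C.card_area_inter_le hfew ?_
      intro x hx
      obtain ⟨h4, -, h5, -, -⟩ := mem_grp.1 hx
      have h6 : (C.rc x).cells ∩ P.vseg (4 * P.L * k) (P.ph J) u v ⊆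
          {u} ×ˢ Finset.Ico (C.rc x).y ((C.rc x).y + (C.rc x).h) := by
        intro p hp
        obtain ⟨h7, h8⟩ := Finset.mem_inter.1 hp
        unfold vseg at h8
        rw [Finset.mem_product] at h8
        rw [Finset.mem_product, Finset.mem_Ico]
        exact ⟨h8.1, (mem_cells.1 h7).2⟩
      refine (Finset.card_le_card h6).trans ?_
      rw [Finset.card_product, Finset.card_singleton, one_mul, Nat.card_Ico]
      have := (C.fits h4).2.2.2.1
      have h9 : (inst z).b x = P.ht (P.ph J) := by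
        show P.ht (P.ph x) = _
        rw [h5]
      omega)
    have h4 : 32 * P.L ^ 2 * k * P.ht (P.ph J) ≤ (C.rc y).h := by
      have h5 : (P.q : ℝ) * P.ht (P.ph J) ≤ P.ht (P.ph y) := by exact_mod_cast hcmp
      have h6 : 32 * (P.L : ℝ) ^ 2 * k * P.ht (P.ph J) ≤ (C.rc y).h := by
        calc 32 * (P.L : ℝ) ^ 2 * k * P.ht (P.ph J) ≤ P.T * P.q * P.ht (P.ph J) := by gcongr
          _ = P.T * (P.q * P.ht (P.ph J)) := by ring
          _ ≤ P.T * P.ht (P.ph y) := by
              have := P.T_pos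
              gcongr
          _ ≤ (C.rc y).h := hdh.le
      exact_mod_cast h6
    have h5 : (C.area J ∩ (C.rc y).cells).card * (4 * P.L * k) ≤
        (C.rc y).w * ((C.rc y).h * k + 2 * (4 * P.L * k) ^ 2 * P.ht (P.ph J)) := by
      apply Nat.le_of_mul_le_mul_right _ hA
      calc (C.area J ∩ (C.rc y).cells).card * (4 * P.L * k) * P.ht (P.ph J)
          = (C.area J ∩ (C.rc y).cells).card * (4 * P.L * k * P.ht (P.ph J)) := by ring
        _ ≤ _ := key
        _ = _ := by ring
    have h6 : 2 * (4 * P.L * k) ^ 2 * P.ht (P.ph J) ≤ (C.rc y).h * k := by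
      calc 2 * (4 * P.L * k) ^ 2 * P.ht (P.ph J) = (32 * P.L ^ 2 * k * P.ht (P.ph J)) * k := by ring
        _ ≤ (C.rc y).h * k := Nat.mul_le_mul_right _ h4
    apply Nat.le_of_mul_le_mul_right _ (show 0 < 2 * k by positivity)
    calc 2 * P.L * (C.area J ∩ (C.rc y).cells).card * (2 * k)
        = (C.area J ∩ (C.rc y).cells).card * (4 * P.L * k) := by ring
      _ ≤ (C.rc y).w * ((C.rc y).h * k + 2 * (4 * P.L * k) ^ 2 * P.ht (P.ph J)) := h5
      _ ≤ (C.rc y).w * ((C.rc y).h * k + (C.rc y).h * k) := by gcongr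
      _ = (C.rc y).w * (C.rc y).h * (2 * k) := by ring

end CRun

end Par

end Pool.Agent.Lib.MP_c7bce0_lc
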