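import Pool.Agent.Lib.MP_c7bce0_lc.Round

/-!
# The lower bound for randomized online algorithms, finite form
-/

namespace Pool.Agent.Lib.MP_c7bce0_lc

open MeasureTheory
open scoped ENNReal

namespace Par

variable {P : Par} {π : Policy}

/-- The instances for which something goes wrong in round `ρ`. -/
noncomputable def badRound (P : Par) (π : Policy) (k ρ : ℕ) : Finset P.Z :=
  ((P.jobs.filter fun J => ρ * P.L ≤ P.ph J ∧ P.ph J < ρ * P.L + P.L).biUnion fun J =>
      (P.segs (4 * P.L * k) (P.ph J)).biUnion fun σ => P.bad π k J σ) ∪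
    (Finset.range P.L).biUnion fun c =>
      Finset.univ.filter fun z : P.Z => 2 * (CRun.shorts z (ρ * P.L + c)).card < P.N (ρ * P.L + c)

theorem card_phase {p : ℕ} (hp : p < P.R * P.L) :
    (P.jobs.filter fun x => P.ph x = p).card = P.N p := by
  have hn : 0 < P.n ^ 2 := Nat.pow_pos P.n_pos
  have h1 : (P.jobs.filter fun x => P.ph x = p) =
      (Finset.range (P.N p)).image fun u => p * P.n ^ 2 + u := by
    ext x
    rw [Finset.mem_filter, mem_jobs, Finset.mem_image]
    constructor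
    · rintro ⟨⟨h1, h2⟩, h3⟩
      rw [h3] at h2
      refine ⟨x % P.n ^ 2, Finset.mem_range.2 h2, ?_⟩
      have := Nat.div_add_mod' x (P.n ^ 2)
      unfold ph at h3
      rw [h3] at this
      exact this
    · rintro ⟨u, hu, rfl⟩
      rw [Finset.mem_range] at hu
      have hu' : u < P.n ^ 2 := lt_of_lt_of_le hu (P.N_le p)
      have h4 : P.ph (p * P.n ^ 2 + u) = p := by
        unfold ph
        rw [Nat.mul_comm, Nat.mul_add_div hn, Nat.div_eq_of_lt hu', add_zero]
      refine ⟨⟨?_, ?_⟩, h4⟩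
      · unfold M
        calc p * P.n ^ 2 + u < p * P.n ^ 2 + P.n ^ 2 := Nat.add_lt_add_left hu' _
          _ = (p + 1) * P.n ^ 2 := by ring
          _ ≤ P.R * P.L * P.n ^ 2 := Nat.mul_le_mul_right _ hp
      · rw [h4, Nat.mul_add_mod', Nat.mod_eq_of_lt hu']
        exact hu
  rw [h1, Finset.card_image_of_injective, Finset.card_range]
  intro a b hab
  exact Nat.add_left_cancel hab

theorem card_few_short {p : ℕ} (hp : p < P.R * P.L) :
    ((Finset.univ : Finset P.Z).filter fun z => 2 * (CRun.shorts z p).card < P.N p).card * P.D ≤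
      2 * Fintype.card P.Z := by
  classical
  have hNpos := P.N_pos p
  set A := (Finset.univ : Finset P.Z).filter fun z => 2 * (CRun.shorts z p).card < P.N p with hA
  let lg : P.Z → ℕ := fun z => ((P.jobs.filter fun x => P.ph x = p).filter fun x => Long z x).card
  have h1 : ∀ z : P.Z, (CRun.shorts z p).card + lg z = P.N p := by
    intro z
    have h0 : CRun.shorts z p =
        (P.jobs.filter fun x => P.ph x = p).filter fun x => ¬ Long z x := by
      ext x
      rw [CRun.mem_shorts, Finset.mem_filter, Finset.mem_filter]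
      tauto
    rw [← card_phase hp, ← Finset.card_filter_add_card_filter_not
      (s := P.jobs.filter fun x => P.ph x = p) (fun x => Long z x), add_comm, h0]
  have h2 : ∑ z : P.Z, lg z =
      ∑ x ∈ P.jobs.filter (fun x => P.ph x = p),
        ((Finset.univ : Finset P.Z).filter fun z => Long z x).card := by
    have h3 : ∀ z : P.Z, lg z =
        ∑ x ∈ P.jobs.filter (fun x => P.ph x = p), if Long z x then 1 else 0 := by
      intro z
      rw [← Finset.card_filter]
    simp_rw [h3]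
    rw [Finset.sum_comm]
    refine Finset.sum_congr rfl fun x _ => ?_
    rw [Finset.card_filter]
  have h3 : (∑ z : P.Z, lg z) * P.D = P.N p * Fintype.card P.Z := by
    rw [h2, Finset.sum_mul, ← card_phase hp, Finset.card_eq_sum_ones, Finset.sum_mul]
    refine Finset.sum_congr rfl fun x hx => ?_
    rw [card_long (mem_jobs.1 (Finset.mem_filter.1 hx).1).1, one_mul]
  have h4 : A.card * P.N p ≤ 2 * ∑ z : P.Z, lg z := by
    calc A.card * P.N p = ∑ _z ∈ A, P.N p := by simp
      _ ≤ ∑ z ∈ A, 2 * lg z := by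
          refine Finset.sum_le_sum fun z hz => ?_
          have h5 := (Finset.mem_filter.1 hz).2
          have h6 := h1 z
          omega
      _ ≤ ∑ z : P.Z, 2 * lg z := Finset.sum_le_sum_of_subset (Finset.subset_univ _)
      _ = 2 * ∑ z : P.Z, lg z := (Finset.mul_sum _ _ _).symm
  apply Nat.le_of_mul_le_mul_left _ hNpos
  calc P.N p * (A.card * P.D) = (A.card * P.N p) * P.D := by ring
    _ ≤ (2 * ∑ z : P.Z, lg z) * P.D := Nat.mul_le_mul_right _ h4
    _ = 2 * ((∑ z : P.Z, lg z) * P.D) := by ring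
    _ = 2 * (P.N p * Fintype.card P.Z) := by rw [h3]
    _ = P.N p * (2 * Fintype.card P.Z) := by ring

theorem card_window (P : Par) (ρ : ℕ) :
    (P.jobs.filter fun J => ρ * P.L ≤ P.ph J ∧ P.ph J < ρ * P.L + P.L).card ≤ P.L * P.n ^ 2 := by
  have hn : 0 < P.n ^ 2 := Nat.pow_pos P.n_pos
  have h1 : (P.jobs.filter fun J => ρ * P.L ≤ P.ph J ∧ P.ph J < ρ * P.L + P.L) ⊆
      Finset.Ico (ρ * P.L * P.n ^ 2) ((ρ * P.L + P.L) * P.n ^ 2) := by
    intro x hx
    obtain ⟨-, h2, h3⟩ := Finset.mem_filter.1 hx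
    unfold ph at h2 h3
    rw [Finset.mem_Ico]
    exact ⟨(Nat.le_div_iff_mul_le hn).1 h2, (Nat.div_lt_iff_lt_mul hn).1 h3⟩
  refine (Finset.card_le_card h1).trans ?_
  rw [Nat.card_Ico, add_mul, Nat.add_sub_cancel_left]

/-- The probability of a bad round is at most `1 / 4`. -/
theorem card_badRound (π : Policy) {k ρ : ℕ} (hρ : ρ < P.R)
    (h1 : 16 * P.L * P.n ^ 4 * (P.D - 1) ^ k ≤ P.D ^ k) (h2 : 16 * P.L ≤ P.D) :
    4 * (P.badRound π k ρ).card ≤ Fintype.card P.Z := by
  classical
  set A := (P.jobs.filter fun J => ρ * P.L ≤ P.ph J ∧ P.ph J < ρ * P.L + P.L).biUnion fun J =>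
      (P.segs (4 * P.L * k) (P.ph J)).biUnion fun σ => P.bad π k J σ with hA
  set B := (Finset.range P.L).biUnion fun c =>
      (Finset.univ : Finset P.Z).filter fun z =>
        2 * (CRun.shorts z (ρ * P.L + c)).card < P.N (ρ * P.L + c) with hB
  have hDk : 0 < P.D ^ k := Nat.pow_pos P.D_pos
  have hAcard : 8 * A.card ≤ Fintype.card P.Z := by
    have h3 : A.card * P.D ^ k ≤
        (P.L * P.n ^ 2) * ((2 * P.n ^ 2) * (Fintype.card P.Z * (P.D - 1) ^ k)) := by
      calc A.card * P.D ^ k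
          ≤ (∑ J ∈ P.jobs.filter (fun J => ρ * P.L ≤ P.ph J ∧ P.ph J < ρ * P.L + P.L),
              ∑ σ ∈ P.segs (4 * P.L * k) (P.ph J), (P.bad π k J σ).card) * P.D ^ k := by
            refine Nat.mul_le_mul_right _ (Finset.card_biUnion_le.trans ?_)
            exact Finset.sum_le_sum fun J _ => Finset.card_biUnion_le
        _ = ∑ J ∈ P.jobs.filter (fun J => ρ * P.L ≤ P.ph J ∧ P.ph J < ρ * P.L + P.L),
              ∑ σ ∈ P.segs (4 * P.L * k) (P.ph J), (P.bad π k J σ).card * P.D ^ k := by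
            rw [Finset.sum_mul]
            exact Finset.sum_congr rfl fun J _ => Finset.sum_mul _ _ _
        _ ≤ ∑ J ∈ P.jobs.filter (fun J => ρ * P.L ≤ P.ph J ∧ P.ph J < ρ * P.L + P.L),
              ∑ _σ ∈ P.segs (4 * P.L * k) (P.ph J), Fintype.card P.Z * (P.D - 1) ^ k :=
            Finset.sum_le_sum fun J hJ => Finset.sum_le_sum fun σ _ =>
              card_bad π k (Finset.mem_filter.1 hJ).1 σ
        _ ≤ ∑ _J ∈ P.jobs.filter (fun J => ρ * P.L ≤ P.ph J ∧ P.ph J < ρ * P.L + P.L),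
              (2 * P.n ^ 2) * (Fintype.card P.Z * (P.D - 1) ^ k) := by
            refine Finset.sum_le_sum fun J _ => ?_
            rw [Finset.sum_const, smul_eq_mul]
            exact Nat.mul_le_mul_right _ (P.card_segs _ _)
        _ ≤ (P.L * P.n ^ 2) * ((2 * P.n ^ 2) * (Fintype.card P.Z * (P.D - 1) ^ k)) := by
            rw [Finset.sum_const, smul_eq_mul]
            exact Nat.mul_le_mul_right _ (P.card_window ρ)
    apply Nat.le_of_mul_le_mul_right _ hDk
    calc 8 * A.card * P.D ^ k = 8 * (A.card * P.D ^ k) := by ring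
      _ ≤ 8 * ((P.L * P.n ^ 2) * ((2 * P.n ^ 2) * (Fintype.card P.Z * (P.D - 1) ^ k))) :=
          Nat.mul_le_mul_left _ h3
      _ = Fintype.card P.Z * (16 * P.L * P.n ^ 4 * (P.D - 1) ^ k) := by ring
      _ ≤ Fintype.card P.Z * P.D ^ k := Nat.mul_le_mul_left _ h1
  have hBcard : 8 * B.card ≤ Fintype.card P.Z := by
    have h3 : B.card * P.D ≤ P.L * (2 * Fintype.card P.Z) := by
      calc B.card * P.D ≤ (∑ c ∈ Finset.range P.L, ((Finset.univ : Finset P.Z).filter fun z =>
            2 * (CRun.shorts z (ρ * P.L + c)).card < P.N (ρ * P.L + c)).card) * P.D :=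
            Nat.mul_le_mul_right _ Finset.card_biUnion_le
        _ = ∑ c ∈ Finset.range P.L, ((Finset.univ : Finset P.Z).filter fun z =>
            2 * (CRun.shorts z (ρ * P.L + c)).card < P.N (ρ * P.L + c)).card * P.D :=
            Finset.sum_mul _ _ _
        _ ≤ ∑ _c ∈ Finset.range P.L, 2 * Fintype.card P.Z := by
            refine Finset.sum_le_sum fun c hc => card_few_short ?_
            rw [Finset.mem_range] at hc
            calc ρ * P.L + c < ρ * P.L + P.L := Nat.add_lt_add_left hc _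
              _ = (ρ + 1) * P.L := by ring
              _ ≤ P.R * P.L := Nat.mul_le_mul_right _ hρ
        _ = P.L * (2 * Fintype.card P.Z) := by simp
    apply Nat.le_of_mul_le_mul_right _ P.D_pos
    apply Nat.le_of_mul_le_mul_left _ P.L_pos
    calc P.L * (8 * B.card * P.D) = 8 * P.L * (B.card * P.D) := by ring
      _ ≤ 8 * P.L * (P.L * (2 * Fintype.card P.Z)) := Nat.mul_le_mul_left _ h3
      _ = P.L * (Fintype.card P.Z * (16 * P.L)) := by ring
      _ ≤ P.L * (Fintype.card P.Z * P.D) := by gcongr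
  have h3 : (P.badRound π k ρ).card ≤ A.card + B.card := Finset.card_union_le _ _
  omega

/-- The makespan is at least the number of rounds that are not bad. -/
theorem le_cost {k : ℕ} (hk : 0 < k) (hT : 16 ≤ P.T * (P.L : ℝ) ^ 2)
    (hq : 32 * (P.L : ℝ) ^ 2 * k ≤ P.T * P.q) (z : P.Z) :
    (((Finset.range P.R).filter fun ρ => z ∉ P.badRound π k ρ).card : ℝ≥0∞) ≤
      cost π (inst z) := by
  classical
  unfold cost
  refine le_iInf fun H => le_iInf fun hH => le_iInf fun hc => ?_
  obtain ⟨C, rfl⟩ := exists_crun hH hc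
  have h1 : ((((Finset.range P.R).filter fun ρ => z ∉ P.badRound π k ρ).card : ℕ) : ℝ) ≤
      now C.H := by
    calc ((((Finset.range P.R).filter fun ρ => z ∉ P.badRound π k ρ).card : ℕ) : ℝ)
        = ∑ ρ ∈ Finset.range P.R, (if z ∉ P.badRound π k ρ then (1 : ℝ) else 0) := by
          rw [Finset.card_filter]
          push_cast
          rfl
      _ ≤ ∑ ρ ∈ Finset.range P.R, (C.tau ((ρ + 1) * P.L) - C.tau (ρ * P.L)) := by
          refine Finset.sum_le_sum fun ρ hρ => ?_
          rw [Finset.mem_range] at hρ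
          have h2 : (ρ + 1) * P.L = ρ * P.L + P.L := by ring
          rw [h2]
          split_ifs with hz
          · exact sub_nonneg.2 (CRun.tau_mono (Nat.le_add_right _ _))
          · unfold badRound at hz
            rw [Finset.mem_union, not_or] at hz
            refine round_ge_one C ρ k hk hT hq ?_ ?_
            · intro p hp1 hp2
              by_contra hcon
              apply hz.2
              rw [Finset.mem_biUnion]
              refine ⟨p - ρ * P.L, Finset.mem_range.2 (by omega), ?_⟩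
              rw [Finset.mem_filter]
              refine ⟨Finset.mem_univ _, ?_⟩
              rw [Nat.add_sub_cancel' hp1]
              exact not_le.1 hcon
            · intro J hJ hJ1 hJ2 σ hσ hbad
              apply hz.1
              rw [Finset.mem_biUnion]
              refine ⟨J, Finset.mem_filter.2 ⟨hJ, hJ1, hJ2⟩, ?_⟩
              rw [Finset.mem_biUnion]
              exact ⟨σ, hσ, hbad⟩
      _ = C.tau (P.R * P.L) - C.tau 0 := by
          have := Finset.sum_range_sub (fun ρ => C.tau (ρ * P.L)) P.R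
          simpa using this
      _ ≤ now C.H := by
          rw [CRun.tau_zero, sub_zero]
          exact CRun.tau_le_now _
  rw [← ENNReal.ofReal_natCast]
  exact ENNReal.ofReal_le_ofReal h1

/-- The expected makespan, over the random instance, of a deterministic online algorithm. -/
theorem sum_cost_ge (π : Policy) {k : ℕ} (hk : 0 < k) (hT : 16 ≤ P.T * (P.L : ℝ) ^ 2)
    (hq : 32 * (P.L : ℝ) ^ 2 * k ≤ P.T * P.q)
    (h1 : 16 * P.L * P.n ^ 4 * (P.D - 1) ^ k ≤ P.D ^ k) (h2 : 16 * P.L ≤ P.D) :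
    ((3 * P.R * Fintype.card P.Z : ℕ) : ℝ≥0∞) ≤ 4 * ∑ z : P.Z, cost π (inst z) := by
  classical
  have h3 : 3 * P.R * Fintype.card P.Z ≤
      4 * ∑ z : P.Z, ((Finset.range P.R).filter fun ρ => z ∉ P.badRound π k ρ).card := by
    have h4 : ∑ z : P.Z, ((Finset.range P.R).filter fun ρ => z ∉ P.badRound π k ρ).card =
        ∑ ρ ∈ Finset.range P.R,
          ((Finset.univ : Finset P.Z).filter fun z => z ∉ P.badRound π k ρ).card := by
      simp_rw [Finset.card_filter]
      rw [Finset.sum_comm]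
    rw [h4, Finset.mul_sum]
    calc 3 * P.R * Fintype.card P.Z = ∑ _ρ ∈ Finset.range P.R, 3 * Fintype.card P.Z := by
          simp; ring
      _ ≤ _ := by
          refine Finset.sum_le_sum fun ρ hρ => ?_
          have h5 := card_badRound π (Finset.mem_range.1 hρ) h1 h2 (k := k)
          have h6 : ((Finset.univ : Finset P.Z).filter fun z => z ∉ P.badRound π k ρ).card +
              (P.badRound π k ρ).card = Fintype.card P.Z := by
            rw [← Finset.card_univ, ← Finset.card_filter_add_card_filter_not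
              (s := (Finset.univ : Finset P.Z)) (fun z => z ∉ P.badRound π k ρ)]
            congr 2
            ext z
            simp
          omega
  calc ((3 * P.R * Fintype.card P.Z : ℕ) : ℝ≥0∞)
      ≤ ((4 * ∑ z : P.Z, ((Finset.range P.R).filter fun ρ => z ∉ P.badRound π k ρ).card : ℕ) :
          ℝ≥0∞) := by exact_mod_cast h3
    _ = 4 * ∑ z : P.Z,
          (((Finset.range P.R).filter fun ρ => z ∉ P.badRound π k ρ).card : ℝ≥0∞) := by
        push_cast; rfl
    _ ≤ 4 * ∑ z : P.Z, cost π (inst z) := by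
        gcongr with z _
        exact le_cost hk hT hq z

/-- The lower bound for a randomized online algorithm, in terms of the parameters. -/
theorem rand_bound {k : ℕ} (hk : 0 < k) (hT : 16 ≤ P.T * (P.L : ℝ) ^ 2)
    (hq : 32 * (P.L : ℝ) ^ 2 * k ≤ P.T * P.q)
    (h1 : 16 * P.L * P.n ^ 4 * (P.D - 1) ^ k ≤ P.D ^ k) (h2 : 16 * P.L ≤ P.D)
    (A : RandAlg P.n) (c : ℝ≥0∞)
    (hc : ∀ I : Inst P.n, A.expCost I ≤ c * ENNReal.ofReal (opt I)) :
    (3 * P.R : ℝ≥0∞) ≤
      4 * (c * ENNReal.ofReal (P.R * P.L * P.T + P.L * P.R / P.D + P.L)) := by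
  classical
  let _ := A.mΩ
  have := A.prob
  have hZ : 0 < Fintype.card P.Z := by
    have : Nonempty (Fin P.D) := ⟨⟨0, P.D_pos⟩⟩
    exact Fintype.card_pos
  have hint : ((3 * P.R * Fintype.card P.Z : ℕ) : ℝ≥0∞) ≤ 4 * ∑ z : P.Z, A.expCost (inst z) := by
    have h3 : ∑ z : P.Z, A.expCost (inst z) =
        ∫⁻ ω, ∑ z : P.Z, cost (A.policy ω) (inst z) ∂A.P := by
      rw [lintegral_finsetSum]
      · rfl
      · intro z _
        exact A.meas (inst z)
    rw [h3, ← lintegral_const_mul]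
    · calc ((3 * P.R * Fintype.card P.Z : ℕ) : ℝ≥0∞)
          = ∫⁻ _ω, ((3 * P.R * Fintype.card P.Z : ℕ) : ℝ≥0∞) ∂A.P := by
            rw [lintegral_const, measure_univ, mul_one]
        _ ≤ _ := lintegral_mono fun ω => sum_cost_ge (A.policy ω) hk hT hq h1 h2
    · exact Finset.measurable_fun_sum _ fun z _ => A.meas (inst z)
  have hopt : ∀ z : P.Z, 0 ≤ opt (inst z) := fun z => Real.sInf_nonneg fun M hM => hM.1
  have h4 : ∑ z : P.Z, A.expCost (inst z) ≤
      c * ENNReal.ofReal (Fintype.card P.Z * (P.R * P.L * P.T + P.L * P.R / P.D + P.L)) := by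
    calc ∑ z : P.Z, A.expCost (inst z) ≤ ∑ z : P.Z, c * ENNReal.ofReal (opt (inst z)) :=
          Finset.sum_le_sum fun z _ => hc _
      _ = c * ENNReal.ofReal (∑ z : P.Z, opt (inst z)) := by
          rw [← Finset.mul_sum, ENNReal.ofReal_sum_of_nonneg fun z _ => hopt z]
      _ ≤ _ := by
          gcongr
          exact P.sum_opt_le
  have h5 : ENNReal.ofReal (Fintype.card P.Z * (P.R * P.L * P.T + P.L * P.R / P.D + P.L)) =
      (Fintype.card P.Z : ℝ≥0∞) * ENNReal.ofReal (P.R * P.L * P.T + P.L * P.R / P.D + P.L) := by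
    rw [ENNReal.ofReal_mul (Nat.cast_nonneg _), ENNReal.ofReal_natCast]
  rw [h5] at h4
  have h6 : (Fintype.card P.Z : ℝ≥0∞) * (3 * P.R) ≤ (Fintype.card P.Z : ℝ≥0∞) *
      (4 * (c * ENNReal.ofReal (P.R * P.L * P.T + P.L * P.R / P.D + P.L))) := by
    calc (Fintype.card P.Z : ℝ≥0∞) * (3 * P.R) = ((3 * P.R * Fintype.card P.Z : ℕ) : ℝ≥0∞) := by
          push_cast; ring
      _ ≤ 4 * ∑ z : P.Z, A.expCost (inst z) := hint
      _ ≤ 4 * (c * ((Fintype.card P.Z : ℝ≥0∞) *
            ENNReal.ofReal (P.R * P.L * P.T + P.L * P.R / P.D + P.L))) := by gcongr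
      _ = _ := by ring
  exact (ENNReal.mul_le_mul_iff_right (by exact_mod_cast hZ.ne') (ENNReal.natCast_ne_top _)).1 h6

end Par

/-- Finite form of the lower bound. -/
theorem le_Rrand {n K q k : ℕ} (hK : 2 ≤ K) (hk : 0 < k) (hqn : q ^ K ≤ n)
    (hq : 2 * (K * K) ^ 4 * k ≤ q)
    (h1 : 16 * (K * K) * n ^ 4 * (16 * (K * K) ^ 2 - 1) ^ k ≤ (16 * (K * K) ^ 2) ^ k) :
    ENNReal.ofReal ((K * K : ℝ) / 24) ≤ Rrand n := by
  have hKpos : 0 < K := by omega
  have hqpos : 0 < q := lt_of_lt_of_le (by positivity) hq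
  have hnpos : 0 < n := lt_of_lt_of_le (Nat.pow_pos hqpos) hqn
  have hKR : (2 : ℝ) ≤ K := by exact_mod_cast hK
  have hLR : (4 : ℝ) ≤ K * K := by nlinarith
  let P : Par :=
    { n := n, K := K, q := q, D := 16 * (K * K) ^ 2, R := (K * K) ^ 2, T := 16 / (K * K : ℝ) ^ 2
      n_pos := hnpos, K_pos := hKpos, q_pos := hqpos, q_pow_le := hqn
      D_pos := by positivity
      T_pos := by positivity
      T_le := by
        rw [div_le_one (by positivity)]
        nlinarith }
  have hL : P.L = K * K := rfl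
  have hLcast : (P.L : ℝ) = K * K := by rw [hL]; push_cast; rfl
  unfold Rrand
  refine le_sInf fun c hc => ?_
  obtain ⟨A, hA⟩ := hc
  have hT : 16 ≤ P.T * (P.L : ℝ) ^ 2 := by
    rw [hLcast]
    show (16 : ℝ) ≤ 16 / (K * K : ℝ) ^ 2 * (K * K : ℝ) ^ 2
    rw [div_mul_cancel₀ _ (by positivity)]
  have hq' : 32 * (P.L : ℝ) ^ 2 * k ≤ P.T * P.q := by
    rw [hLcast]
    show 32 * (K * K : ℝ) ^ 2 * k ≤ 16 / (K * K : ℝ) ^ 2 * q
    have h3 : 2 * (K * K : ℝ) ^ 4 * k ≤ q := by exact_mod_cast hq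
    rw [div_mul_eq_mul_div, le_div_iff₀ (by positivity)]
    nlinarith
  have hD : 16 * P.L ≤ P.D := by
    rw [hL]
    show 16 * (K * K) ≤ 16 * (K * K) ^ 2
    have : K * K ≤ (K * K) ^ 2 := Nat.le_self_pow two_ne_zero _
    omega
  have hmain := Par.rand_bound (P := P) hk hT hq' h1 hD A c hA
  -- arithmetic
  have hR : ((P.R : ℕ) : ℝ) = (K * K : ℝ) ^ 2 := by
    show (((K * K) ^ 2 : ℕ) : ℝ) = _
    push_cast; rfl
  have hval : (P.R * P.L * P.T + P.L * P.R / P.D + P.L : ℝ) ≤ 18 * (K * K) := by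
    rw [hR, hLcast]
    show (K * K : ℝ) ^ 2 * (K * K) * (16 / (K * K : ℝ) ^ 2) +
      (K * K) * (K * K : ℝ) ^ 2 / ((16 * (K * K) ^ 2 : ℕ) : ℝ) + K * K ≤ 18 * (K * K)
    push_cast
    have hpos : (0 : ℝ) < K * K := by positivity
    have e1 : (K * K : ℝ) ^ 2 * (K * K) * (16 / (K * K : ℝ) ^ 2) = 16 * (K * K) := by
      field_simp
    have e2 : (K * K : ℝ) * (K * K : ℝ) ^ 2 / (16 * (K * K : ℝ) ^ 2) = (K * K) / 16 := by
      field_simp
    rw [e1, e2]
    linarith
  have hR' : (P.R : ℝ≥0∞) = ENNReal.ofReal ((K * K : ℝ) ^ 2) := by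
    rw [← hR, ENNReal.ofReal_natCast]
  by_cases hctop : c = ⊤
  · rw [hctop]; exact le_top
  have h5 : ENNReal.ofReal (3 * (K * K : ℝ) ^ 2) ≤
      ENNReal.ofReal (4 * (c.toReal * (18 * (K * K)))) := by
    calc ENNReal.ofReal (3 * (K * K : ℝ) ^ 2) = 3 * (P.R : ℝ≥0∞) := by
          rw [hR', ENNReal.ofReal_mul (by norm_num)]
          norm_num
      _ ≤ 4 * (c * ENNReal.ofReal (P.R * P.L * P.T + P.L * P.R / P.D + P.L)) := hmain
      _ ≤ 4 * (c * ENNReal.ofReal (18 * (K * K))) := by gcongr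
      _ = ENNReal.ofReal (4 * (c.toReal * (18 * (K * K)))) := by
          rw [ENNReal.ofReal_mul (p := 4) (by norm_num),
            ENNReal.ofReal_mul (p := c.toReal) ENNReal.toReal_nonneg,
            ENNReal.ofReal_toReal hctop]
          norm_num
  have h6 : 3 * (K * K : ℝ) ^ 2 ≤ 4 * (c.toReal * (18 * (K * K))) := by
    rwa [ENNReal.ofReal_le_ofReal_iff (by positivity)] at h5
  have h7 : (K * K : ℝ) / 24 ≤ c.toReal := by
    have hpos : (0 : ℝ) < K * K := by positivity
    have h8 : (3 * (K * K : ℝ)) * (K * K) ≤ (72 * c.toReal) * (K * K) := by nlinarith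
    have h9 := le_of_mul_le_mul_right h8 hpos
    linarith
  calc ENNReal.ofReal ((K * K : ℝ) / 24) ≤ ENNReal.ofReal c.toReal := ENNReal.ofReal_le_ofReal h7
    _ = c := ENNReal.ofReal_toReal hctop

end Pool.Agent.Lib.MP_c7bce0_lc
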