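import Pool.Agent.Lib.MP_c7bce0_lc.RunFacts

/-!
# The random instances used in the lower bound

There are `R` rounds of `K * K` phases. The jobs of phase `p` request `wd p × ht p` submeshes, where
`wd p = q ^ ((p % (K * K)) / K)` and `ht p = q ^ ((p % (K * K)) % K)`. Every job is long (time `1`)
or short (time `T`), and every job has all short jobs of earlier phases as predecessors.
-/

namespace Pool.Agent.Lib.MP_c7bce0_lc

/-- Parameters of the construction. -/
structure Par where
  n : ℕ
  K : ℕ
  q : ℕ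
  D : ℕ
  R : ℕ
  T : ℝ
  n_pos : 0 < n
  K_pos : 0 < K
  q_pos : 0 < q
  q_pow_le : q ^ K ≤ n
  D_pos : 0 < D
  T_pos : 0 < T
  T_le : T ≤ 1

namespace Par

variable (P : Par)

/-- The number of phases of a round. -/
def L : ℕ := P.K * P.K

/-- Width of the jobs of phase `p`. -/
def wd (p : ℕ) : ℕ := P.q ^ ((p % P.L) / P.K)

/-- Height of the jobs of phase `p`. -/
def ht (p : ℕ) : ℕ := P.q ^ ((p % P.L) % P.K)

/-- Number of jobs of phase `p`. -/
def N (p : ℕ) : ℕ := (P.n / P.wd p) * (P.n / P.ht p)

/-- Bound for the names of jobs. -/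
def M : ℕ := P.R * P.L * P.n ^ 2

/-- The phase of a job. -/
def ph (x : ℕ) : ℕ := x / P.n ^ 2

/-- The set of jobs. -/
def jobs : Finset ℕ := (Finset.range P.M).filter fun x => x % P.n ^ 2 < P.N (P.ph x)

/-- The random choices. -/
abbrev Z : Type := Fin P.M → Fin P.D

variable {P}

/-- Job `x` is long. -/
def Long (z : P.Z) (x : ℕ) : Prop := ∃ h : x < P.M, (z ⟨x, h⟩).val = 0

instance (z : P.Z) (x : ℕ) : Decidable (Long z x) := by
  unfold Long
  infer_instance

theorem L_pos (P : Par) : 0 < P.L := Nat.mul_pos P.K_pos P.K_pos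

theorem wd_pos (P : Par) (p : ℕ) : 0 < P.wd p := Nat.pow_pos P.q_pos

theorem ht_pos (P : Par) (p : ℕ) : 0 < P.ht p := Nat.pow_pos P.q_pos

theorem wd_le (P : Par) (p : ℕ) : P.wd p ≤ P.n := by
  refine le_trans (Nat.pow_le_pow_right P.q_pos ?_) P.q_pow_le
  have h1 : p % P.L < P.L := Nat.mod_lt _ P.L_pos
  exact ((Nat.div_lt_iff_lt_mul P.K_pos).2 h1).le

theorem ht_le (P : Par) (p : ℕ) : P.ht p ≤ P.n := by
  refine le_trans (Nat.pow_le_pow_right P.q_pos ?_) P.q_pow_le
  exact (Nat.mod_lt _ P.K_pos).le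

theorem div_wd_pos (P : Par) (p : ℕ) : 0 < P.n / P.wd p := Nat.div_pos (P.wd_le p) (P.wd_pos p)

theorem div_ht_pos (P : Par) (p : ℕ) : 0 < P.n / P.ht p := Nat.div_pos (P.ht_le p) (P.ht_pos p)

theorem N_pos (P : Par) (p : ℕ) : 0 < P.N p := Nat.mul_pos (P.div_wd_pos p) (P.div_ht_pos p)

theorem N_le (P : Par) (p : ℕ) : P.N p ≤ P.n ^ 2 := by
  rw [pow_two]
  exact Nat.mul_le_mul (Nat.div_le_self _ _) (Nat.div_le_self _ _)

theorem mem_jobs {x : ℕ} : x ∈ P.jobs ↔ x < P.M ∧ x % P.n ^ 2 < P.N (P.ph x) := by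
  simp [jobs]

/-- The instance given by the random choices `z`. -/
noncomputable def inst (z : P.Z) : Inst P.n where
  jobs := P.jobs
  a x := P.wd (P.ph x)
  b x := P.ht (P.ph x)
  t x := if Long z x then 1 else P.T
  pre x := P.jobs.filter fun y => ¬ Long z y ∧ P.ph y < P.ph x
  a_pos _ _ := P.wd_pos _
  a_le _ _ := P.wd_le _
  b_pos _ _ := P.ht_pos _
  b_le _ _ := P.ht_le _
  t_nonneg _ _ := by
    split_ifs
    · exact zero_le_one
    · exact P.T_pos.le
  pre_sub _ _ := Finset.filter_subset _ _
  acyclic := ⟨P.ph, fun _ _ _ hi => (Finset.mem_filter.1 hi).2.2⟩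

/-- The duration of a short job of phase `p` on the rectangle `r`. -/
noncomputable def short (P : Par) (x : ℕ) (r : Rect) : ℝ :=
  P.T * (P.wd (P.ph x) * P.ht (P.ph x)) / (r.w * r.h)

theorem dur_short {z : P.Z} {x : ℕ} (h : ¬ Long z x) (r : Rect) :
    (inst z).dur x r = P.short x r := by
  unfold Inst.dur short
  show (if Long z x then (1 : ℝ) else P.T) * (P.wd (P.ph x) * P.ht (P.ph x)) / (r.w * r.h) = _
  rw [if_neg h]

theorem short_le_dur (z : P.Z) (x : ℕ) (r : Rect) : P.short x r ≤ (inst z).dur x r := by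
  by_cases h : Long z x
  · unfold Inst.dur short
    show _ ≤ (if Long z x then (1 : ℝ) else P.T) * (P.wd (P.ph x) * P.ht (P.ph x)) / (r.w * r.h)
    rw [if_pos h]
    have := P.T_le
    gcongr
  · rw [dur_short h]

theorem dur_eq_of_eq {z z' : P.Z} {x : ℕ} (h : Long z x ↔ Long z' x) (r : Rect) :
    (inst z).dur x r = (inst z').dur x r := by
  unfold Inst.dur
  show (if Long z x then (1 : ℝ) else P.T) * (P.wd (P.ph x) * P.ht (P.ph x)) / (r.w * r.h) =
    (if Long z' x then (1 : ℝ) else P.T) * (P.wd (P.ph x) * P.ht (P.ph x)) / (r.w * r.h)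
  rw [if_congr h rfl rfl]

theorem one_le_dur {z : P.Z} {x : ℕ} (h : Long z x) {r : Rect} (hr : (inst z).Fits x r) :
    1 ≤ (inst z).dur x r := by
  unfold Inst.dur
  show 1 ≤ (if Long z x then (1 : ℝ) else P.T) * (P.wd (P.ph x) * P.ht (P.ph x)) / (r.w * r.h)
  rw [if_pos h, one_mul]
  obtain ⟨h1, h2, h3, h4, -, -⟩ := hr
  have h1' : (1 : ℝ) ≤ r.w := by exact_mod_cast h1
  have h3' : (1 : ℝ) ≤ r.h := by exact_mod_cast h3
  have h2' : (r.w : ℝ) ≤ P.wd (P.ph x) := by exact_mod_cast h2
  have h4' : (r.h : ℝ) ≤ P.ht (P.ph x) := by exact_mod_cast h4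
  rw [le_div_iff₀ (by positivity), one_mul]
  gcongr

/-- The `u`-th rectangle in the tiling of the mesh by rectangles of the size of phase `p`. -/
def slot (P : Par) (p u : ℕ) : Rect :=
  ⟨(u % (P.n / P.wd p)) * P.wd p, (u / (P.n / P.wd p)) * P.ht p, P.wd p, P.ht p⟩

theorem slot_fits {z : P.Z} {x p u : ℕ} (hp : p % P.L = P.ph x % P.L) (hu : u < P.N p) :
    (inst z).Fits x (P.slot p u) := by
  have hw : P.wd p = P.wd (P.ph x) := by unfold wd; rw [hp]
  have hh : P.ht p = P.ht (P.ph x) := by unfold ht; rw [hp]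
  refine ⟨P.wd_pos p, hw.le, P.ht_pos p, hh.le, ?_, ?_⟩
  · show (u % (P.n / P.wd p)) * P.wd p + P.wd p ≤ P.n
    have h1 : u % (P.n / P.wd p) < P.n / P.wd p := Nat.mod_lt _ (P.div_wd_pos p)
    calc (u % (P.n / P.wd p)) * P.wd p + P.wd p = (u % (P.n / P.wd p) + 1) * P.wd p := by ring
      _ ≤ (P.n / P.wd p) * P.wd p := Nat.mul_le_mul_right _ h1
      _ ≤ P.n := Nat.div_mul_le_self _ _
  · show (u / (P.n / P.wd p)) * P.ht p + P.ht p ≤ P.n
    have h1 : u / (P.n / P.wd p) < P.n / P.ht p := by
      rw [Nat.div_lt_iff_lt_mul (P.div_wd_pos p), mul_comm]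
      exact hu
    calc (u / (P.n / P.wd p)) * P.ht p + P.ht p = (u / (P.n / P.wd p) + 1) * P.ht p := by ring
      _ ≤ (P.n / P.ht p) * P.ht p := Nat.mul_le_mul_right _ h1
      _ ≤ P.n := Nat.div_mul_le_self _ _

theorem disjoint_Ico_mul {a u v : ℕ} (h : u ≠ v) :
    Disjoint (Finset.Ico (u * a) (u * a + a)) (Finset.Ico (v * a) (v * a + a)) := by
  rw [Finset.disjoint_left]
  intro x hx hy
  rw [Finset.mem_Ico] at hx hy
  rcases lt_or_gt_of_ne h with h | h
  · have : (u + 1) * a ≤ v * a := Nat.mul_le_mul_right a h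
    rw [add_mul, one_mul] at this
    omega
  · have : (v + 1) * a ≤ u * a := Nat.mul_le_mul_right a h
    rw [add_mul, one_mul] at this
    omega

theorem slot_disjoint (P : Par) (p : ℕ) {u v : ℕ} (h : u ≠ v) :
    Disjoint (P.slot p u).cells (P.slot p v).cells := by
  unfold Rect.cells slot
  by_cases h1 : u % (P.n / P.wd p) = v % (P.n / P.wd p)
  · have h2 : u / (P.n / P.wd p) ≠ v / (P.n / P.wd p) := by
      intro h2
      apply h
      rw [← Nat.div_add_mod u (P.n / P.wd p), ← Nat.div_add_mod v (P.n / P.wd p), h1, h2]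
    exact Finset.disjoint_product.2 (Or.inr (disjoint_Ico_mul h2))
  · exact Finset.disjoint_product.2 (Or.inl (disjoint_Ico_mul h1))

theorem slot_congr (P : Par) {p p' u : ℕ} (h : p % P.L = p' % P.L) : P.slot p u = P.slot p' u := by
  unfold slot wd ht
  rw [h]

theorem N_congr (P : Par) {p p' : ℕ} (h : p % P.L = p' % P.L) : P.N p = P.N p' := by
  unfold N wd ht
  rw [h]

theorem dur_slot (z : P.Z) (x p u : ℕ) (hp : p % P.L = P.ph x % P.L) :
    (inst z).dur x (P.slot p u) = (inst z).t x := by
  have hw : P.wd p = P.wd (P.ph x) := by unfold wd; rw [hp]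
  have hh : P.ht p = P.ht (P.ph x) := by unfold ht; rw [hp]
  unfold Inst.dur
  show (inst z).t x * (P.wd (P.ph x) * P.ht (P.ph x)) / (P.wd p * P.ht p) = _
  rw [hw, hh]
  have h1 : (0 : ℝ) < P.wd (P.ph x) := by exact_mod_cast P.wd_pos _
  have h2 : (0 : ℝ) < P.ht (P.ph x) := by exact_mod_cast P.ht_pos _
  field_simp

/-- The long jobs of class `c`. -/
def longs (z : P.Z) (c : ℕ) : Finset ℕ :=
  P.jobs.filter fun x => Long z x ∧ P.ph x % P.L = c

/-- The rank of a long job among the long jobs of its class. -/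
def rk (z : P.Z) (x : ℕ) : ℕ := ((longs z (P.ph x % P.L)).filter fun y => y < x).card

/-- The number of time slots used for the long jobs of class `c`. -/
def blocks (z : P.Z) (c : ℕ) : ℕ := (longs z c).card / P.N c + 1

theorem rk_lt {z : P.Z} {x : ℕ} (hx : x ∈ P.jobs) (hl : Long z x) :
    rk z x < (longs z (P.ph x % P.L)).card := by
  classical
  apply Finset.card_lt_card
  rw [Finset.ssubset_iff_of_subset (Finset.filter_subset _ _)]
  refine ⟨x, Finset.mem_filter.2 ⟨hx, hl, rfl⟩, ?_⟩
  simp

theorem rk_inj {z : P.Z} {x y : ℕ} (hx : x ∈ P.jobs) (hl : Long z x) (hy : y ∈ P.jobs)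
    (hl' : Long z y) (hc : P.ph x % P.L = P.ph y % P.L) (h : rk z x = rk z y) : x = y := by
  classical
  have key : ∀ {x y : ℕ}, x ∈ P.jobs → Long z x → P.ph x % P.L = P.ph y % P.L → x < y →
      rk z x < rk z y := by
    intro x y hx hl hc hxy
    unfold rk
    rw [hc]
    apply Finset.card_lt_card
    rw [Finset.ssubset_iff_of_subset]
    · refine ⟨x, Finset.mem_filter.2 ⟨Finset.mem_filter.2 ⟨hx, hl, hc⟩, hxy⟩, ?_⟩
      simp
    · intro w hw
      rw [Finset.mem_filter] at hw ⊢
      exact ⟨hw.1, hw.2.trans hxy⟩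
  rcases lt_trichotomy x y with hlt | heq | hlt
  · exact absurd h (key hx hl hc hlt).ne
  · exact heq
  · exact absurd h (key hy hl' hc.symm hlt).ne'

/-- An offline schedule for the instance `inst z`: first all short jobs, phase by phase, then all
long jobs, class by class. -/
noncomputable def sched (z : P.Z) : Sched where
  start x :=
    if Long z x then
      P.R * P.L * P.T + ((∑ c ∈ Finset.range (P.ph x % P.L), blocks z c) +
        rk z x / P.N (P.ph x) : ℕ)
    else P.ph x * P.T
  rect x :=
    if Long z x then P.slot (P.ph x) (rk z x % P.N (P.ph x)) else P.slot (P.ph x) (x % P.n ^ 2)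

theorem ph_lt {x : ℕ} (hx : x ∈ P.jobs) : P.ph x < P.R * P.L := by
  have h1 := (mem_jobs.1 hx).1
  unfold M at h1
  unfold ph
  exact (Nat.div_lt_iff_lt_mul (Nat.pow_pos P.n_pos)).2 h1

theorem fin_short {z : P.Z} {x : ℕ} (h : ¬ Long z x) :
    (inst z).fin (sched z) x = (P.ph x + 1) * P.T := by
  unfold Inst.fin sched
  simp only [if_neg h]
  rw [dur_slot z x _ _ rfl]
  show _ + (if Long z x then (1 : ℝ) else P.T) = _
  rw [if_neg h]
  ring

theorem fin_long {z : P.Z} {x : ℕ} (h : Long z x) :
    (inst z).fin (sched z) x = (sched z).start x + 1 := by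
  unfold Inst.fin
  have : (sched z).rect x = P.slot (P.ph x) (rk z x % P.N (P.ph x)) := by
    unfold sched; simp only [if_pos h]
  rw [this, dur_slot z x _ _ rfl]
  show _ + (if Long z x then (1 : ℝ) else P.T) = _
  rw [if_pos h]

theorem start_short {z : P.Z} {x : ℕ} (h : ¬ Long z x) :
    (sched z).start x = P.ph x * P.T := by
  unfold sched; simp only [if_neg h]

theorem start_long {z : P.Z} {x : ℕ} (h : Long z x) :
    (sched z).start x = P.R * P.L * P.T + ((∑ c ∈ Finset.range (P.ph x % P.L), blocks z c) +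
        rk z x / P.N (P.ph x) : ℕ) := by
  unfold sched; simp only [if_pos h]

theorem rk_div_lt {z : P.Z} {x : ℕ} (hx : x ∈ P.jobs) (hl : Long z x) :
    rk z x / P.N (P.ph x) < blocks z (P.ph x % P.L) := by
  unfold blocks
  have h1 : P.N (P.ph x) = P.N (P.ph x % P.L) := P.N_congr (Nat.mod_mod _ _).symm
  rw [h1]
  exact Nat.lt_succ_of_le (Nat.div_le_div_right (rk_lt hx hl).le)

theorem sched_feasible (z : P.Z) : Feasible (inst z) (sched z) where
  start_nonneg x hx := by
    have := P.T_pos
    by_cases h : Long z x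
    · rw [start_long h]; positivity
    · rw [start_short h]; positivity
  fits x hx := by
    by_cases h : Long z x
    · have : (sched z).rect x = P.slot (P.ph x) (rk z x % P.N (P.ph x)) := by
        unfold sched; simp only [if_pos h]
      rw [this]
      exact slot_fits rfl (Nat.mod_lt _ (P.N_pos _))
    · have : (sched z).rect x = P.slot (P.ph x) (x % P.n ^ 2) := by
        unfold sched; simp only [if_neg h]
      rw [this]
      exact slot_fits rfl (mem_jobs.1 hx).2
  prec x hx y hy := by
    classical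
    obtain ⟨hy1, hy2, hy3⟩ := Finset.mem_filter.1 hy
    rw [fin_short hy2]
    have hT := P.T_pos
    by_cases h : Long z x
    · rw [start_long h]
      have h1 : (P.ph y : ℝ) + 1 ≤ P.R * P.L := by exact_mod_cast ph_lt hy1
      have h2 : ((P.ph y : ℝ) + 1) * P.T ≤ P.R * P.L * P.T := by gcongr
      have h3 : (0 : ℝ) ≤ ((∑ c ∈ Finset.range (P.ph x % P.L), blocks z c) +
        rk z x / P.N (P.ph x) : ℕ) := Nat.cast_nonneg _
      linarith
    · rw [start_short h]
      have h1 : (P.ph y : ℝ) + 1 ≤ P.ph x := by exact_mod_cast hy3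
      gcongr
  disj τ x hx y hy hxy h1 h2 h3 h4 := by
    have hT := P.T_pos
    -- a short and a long job never overlap
    have key : ∀ {x y : ℕ}, x ∈ P.jobs → ¬ Long z x → Long z y →
        τ < (inst z).fin (sched z) x → (sched z).start y ≤ τ → False := by
      intro x y hx hsx hly h5 h6
      rw [fin_short hsx] at h5
      rw [start_long hly] at h6
      have h7 : (P.ph x : ℝ) + 1 ≤ P.R * P.L := by exact_mod_cast ph_lt hx
      have h8 : ((P.ph x : ℝ) + 1) * P.T ≤ P.R * P.L * P.T := by gcongr
      have h9 : (0 : ℝ) ≤ ((∑ c ∈ Finset.range (P.ph y % P.L), blocks z c) +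
        rk z y / P.N (P.ph y) : ℕ) := Nat.cast_nonneg _
      linarith
    by_cases hlx : Long z x
    · by_cases hly : Long z y
      · rw [fin_long hlx] at h2
        rw [fin_long hly] at h4
        rw [start_long hlx] at h1 h2
        rw [start_long hly] at h3 h4
        have hrx : (sched z).rect x = P.slot (P.ph x) (rk z x % P.N (P.ph x)) := by
          unfold sched; simp only [if_pos hlx]
        have hry : (sched z).rect y = P.slot (P.ph y) (rk z y % P.N (P.ph y)) := by
          unfold sched; simp only [if_pos hly]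
        set u := (∑ c ∈ Finset.range (P.ph x % P.L), blocks z c) + rk z x / P.N (P.ph x) with hu
        set v := (∑ c ∈ Finset.range (P.ph y % P.L), blocks z c) + rk z y / P.N (P.ph y) with hv
        have huv : u = v := by
          have h5 : (u : ℝ) < v + 1 := by linarith
          have h6 : (v : ℝ) < u + 1 := by linarith
          have h5' : u < v + 1 := by exact_mod_cast h5
          have h6' : v < u + 1 := by exact_mod_cast h6
          omega
        -- the classes agree
        have hcl : P.ph x % P.L = P.ph y % P.L := by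
          have aux : ∀ {x y : ℕ}, x ∈ P.jobs → Long z x → P.ph x % P.L < P.ph y % P.L →
              (∑ c ∈ Finset.range (P.ph x % P.L), blocks z c) + rk z x / P.N (P.ph x) <
              (∑ c ∈ Finset.range (P.ph y % P.L), blocks z c) + rk z y / P.N (P.ph y) := by
            intro x y hx hlx hlt
            have h7 : (∑ c ∈ Finset.range (P.ph x % P.L), blocks z c) + blocks z (P.ph x % P.L) ≤
                ∑ c ∈ Finset.range (P.ph y % P.L), blocks z c := by
              rw [← Finset.sum_range_succ]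
              exact Finset.sum_le_sum_of_subset (Finset.range_mono hlt)
            have h8 := rk_div_lt hx hlx
            exact lt_of_lt_of_le (Nat.add_lt_add_left h8 _) (h7.trans (Nat.le_add_right _ _))
          rcases lt_trichotomy (P.ph x % P.L) (P.ph y % P.L) with h | h | h
          · exact absurd huv (aux hx hlx h).ne
          · exact h
          · exact absurd huv (aux hy hly h).ne'
        have hN : P.N (P.ph x) = P.N (P.ph y) := P.N_congr hcl
        have hdiv : rk z x / P.N (P.ph x) = rk z y / P.N (P.ph x) := by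
          rw [hu, hv, hcl, hN] at huv
          rw [hN]
          omega
        have hmod : rk z x % P.N (P.ph x) ≠ rk z y % P.N (P.ph x) := by
          intro hmod
          apply hxy
          apply rk_inj hx hlx hy hly hcl
          rw [← Nat.div_add_mod (rk z x) (P.N (P.ph x)), ← Nat.div_add_mod (rk z y) (P.N (P.ph x)),
            hdiv, hmod]
        rw [hrx, hry, P.slot_congr (p' := P.ph x) hcl.symm, ← hN]
        exact P.slot_disjoint _ hmod
      · exact (key hy hly hlx h4 h1).elim
    · by_cases hly : Long z y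
      · exact (key hx hlx hly h2 h3).elim
      · rw [fin_short hlx] at h2
        rw [fin_short hly] at h4
        rw [start_short hlx] at h1
        rw [start_short hly] at h3
        have hph : P.ph x = P.ph y := by
          have h5 : (P.ph x : ℝ) * P.T < (P.ph y + 1) * P.T := lt_of_le_of_lt h1 h4
          have h6 : (P.ph y : ℝ) * P.T < (P.ph x + 1) * P.T := lt_of_le_of_lt h3 h2
          have h5' := lt_of_mul_lt_mul_right h5 hT.le
          have h6' := lt_of_mul_lt_mul_right h6 hT.le
          have h5'' : P.ph x < P.ph y + 1 := by exact_mod_cast h5'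
          have h6'' : P.ph y < P.ph x + 1 := by exact_mod_cast h6'
          omega
        have hrx : (sched z).rect x = P.slot (P.ph x) (x % P.n ^ 2) := by
          unfold sched; simp only [if_neg hlx]
        have hry : (sched z).rect y = P.slot (P.ph y) (y % P.n ^ 2) := by
          unfold sched; simp only [if_neg hly]
        rw [hrx, hry, ← hph]
        apply P.slot_disjoint
        intro hmod
        apply hxy
        unfold ph at hph
        rw [← Nat.div_add_mod x (P.n ^ 2), ← Nat.div_add_mod y (P.n ^ 2), hph, hmod]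

/-- Upper bound for the optimal makespan. -/
theorem opt_le (z : P.Z) :
    opt (inst z) ≤ P.R * P.L * P.T + ∑ c ∈ Finset.range P.L, (blocks z c : ℝ) := by
  have hT := P.T_pos
  refine csInf_le ⟨0, fun M hM => hM.1⟩ ⟨by positivity, sched z, sched_feasible z, ?_⟩
  intro x hx
  by_cases h : Long z x
  · rw [fin_long h, start_long h]
    have h1 : (∑ c ∈ Finset.range (P.ph x % P.L), blocks z c) + rk z x / P.N (P.ph x) + 1 ≤
        ∑ c ∈ Finset.range P.L, blocks z c := by
      have h2 : (∑ c ∈ Finset.range (P.ph x % P.L), blocks z c) + blocks z (P.ph x % P.L) ≤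
          ∑ c ∈ Finset.range P.L, blocks z c := by
        rw [← Finset.sum_range_succ]
        exact Finset.sum_le_sum_of_subset (Finset.range_mono (Nat.mod_lt _ P.L_pos))
      have h3 := rk_div_lt hx h
      omega
    have h1' : (((∑ c ∈ Finset.range (P.ph x % P.L), blocks z c) + rk z x / P.N (P.ph x) : ℕ) : ℝ)
        + 1 ≤ ((∑ c ∈ Finset.range P.L, blocks z c : ℕ) : ℝ) := by exact_mod_cast h1
    rw [← Nat.cast_sum]
    linarith
  · rw [fin_short h]
    have h1 : (P.ph x : ℝ) + 1 ≤ P.R * P.L := by exact_mod_cast ph_lt hx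
    have h2 : ((P.ph x : ℝ) + 1) * P.T ≤ P.R * P.L * P.T := by gcongr
    have h3 : (0 : ℝ) ≤ ∑ c ∈ Finset.range P.L, (blocks z c : ℝ) :=
      Finset.sum_nonneg fun _ _ => Nat.cast_nonneg _
    linarith

end Par

end Pool.Agent.Lib.MP_c7bce0_lc
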