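import Mathlib

/-!
# Online scheduling of malleable jobs with dependencies on a mesh: the model

The machine is an `n × n` mesh, so it has `m = n ^ 2` processors. The processors are the pairs
`(x, y)` with `x, y < n`.
-/

namespace Pool.Agent.Lib.MP_c7bce0_lc

open MeasureTheory
open scoped ENNReal

/-- A rectangle of processors: `w` columns starting at column `x` and `h` rows starting at row
`y`. -/
structure Rect where
  x : ℕ
  y : ℕ
  w : ℕ
  h : ℕ

/-- The processors of a rectangle. -/
def Rect.cells (r : Rect) : Finset (ℕ × ℕ) :=
  Finset.Ico r.x (r.x + r.w) ×ˢ Finset.Ico r.y (r.y + r.h)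

/-- An instance for the `n × n` mesh: a finite set of jobs (named by natural numbers); job `j`
requests an `a j × b j` submesh, has running time `t j ≥ 0`, and may start only when all jobs of
`pre j` have finished. The precedence relation has no cycle: some rank function increases along
it. -/
structure Inst (n : ℕ) where
  jobs : Finset ℕ
  a : ℕ → ℕ
  b : ℕ → ℕ
  t : ℕ → ℝ
  pre : ℕ → Finset ℕ
  a_pos : ∀ j ∈ jobs, 1 ≤ a j
  a_le : ∀ j ∈ jobs, a j ≤ n
  b_pos : ∀ j ∈ jobs, 1 ≤ b j
  b_le : ∀ j ∈ jobs, b j ≤ n
  t_nonneg : ∀ j ∈ jobs, 0 ≤ t j
  pre_sub : ∀ j ∈ jobs, pre j ⊆ jobs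
  acyclic : ∃ rank : ℕ → ℕ, ∀ j ∈ jobs, ∀ i ∈ pre j, rank i < rank j

variable {n : ℕ}

/-- The time that job `j` takes when it is run on the rectangle `r`: a job requesting an `a × b`
rectangle with running time `t` takes time `t a b / (a' b')` on an `a' × b'` rectangle. -/
noncomputable def Inst.dur (I : Inst n) (j : ℕ) (r : Rect) : ℝ :=
  I.t j * (I.a j * I.b j) / (r.w * r.h)

/-- Job `j` may be run on the rectangle `r`: `r` is a nonempty rectangle inside the mesh with
dimensions at most the requested ones. -/
def Inst.Fits (I : Inst n) (j : ℕ) (r : Rect) : Prop :=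
  1 ≤ r.w ∧ r.w ≤ I.a j ∧ 1 ≤ r.h ∧ r.h ≤ I.b j ∧ r.x + r.w ≤ n ∧ r.y + r.h ≤ n

/-! ## The offline problem -/

/-- A schedule: a starting time and a rectangle for every job. -/
structure Sched where
  start : ℕ → ℝ
  rect : ℕ → Rect

/-- The time at which job `j` finishes in a schedule. -/
noncomputable def Inst.fin (I : Inst n) (S : Sched) (j : ℕ) : ℝ := S.start j + I.dur j (S.rect j)

/-- A schedule is feasible when no job starts before time `0`, every job runs on an allowed
rectangle, every job starts after all its predecessors have finished, and at any time each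
processor runs at most one job. There are no preemptions or restarts. -/
structure Feasible (I : Inst n) (S : Sched) : Prop where
  start_nonneg : ∀ j ∈ I.jobs, 0 ≤ S.start j
  fits : ∀ j ∈ I.jobs, I.Fits j (S.rect j)
  prec : ∀ j ∈ I.jobs, ∀ i ∈ I.pre j, I.fin S i ≤ S.start j
  disj : ∀ τ : ℝ, ∀ i ∈ I.jobs, ∀ j ∈ I.jobs, i ≠ j → S.start i ≤ τ → τ < I.fin S i →
    S.start j ≤ τ → τ < I.fin S j → Disjoint (S.rect i).cells (S.rect j).cells

/-- The optimal offline makespan. -/
noncomputable def opt (I : Inst n) : ℝ :=
  sInf {M : ℝ | 0 ≤ M ∧ ∃ S : Sched, Feasible I S ∧ ∀ j ∈ I.jobs, I.fin S j ≤ M}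

/-! ## The online problem -/

/-- The events of a run: the beginning, the start of a job on a rectangle, the end of a job. -/
inductive Ev
  | init
  | start (j : ℕ) (r : Rect)
  | finish (j : ℕ)

/-- What the online algorithm observes at an event: its time, the event itself, and the jobs that
become available by it, with their requested dimensions (a set of triples `(j, a j, b j)`). -/
structure Entry where
  time : ℝ
  ev : Ev
  new : Finset (ℕ × ℕ × ℕ)

/-- The history of a run up to some moment, the latest event first. -/
abbrev History := List Entry

/-- A deterministic online algorithm. Given the history so far, it either answers `none`, which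
means to wait for the end of some running job, or `some (τ, j, r)`, which means to start job `j`
on the rectangle `r` at time `τ` unless a running job ends at or before time `τ`; after every
event it is asked again. -/
def Policy := History → Option (ℝ × ℕ × Rect)

/-- The time of the latest event. -/
def now : History → ℝ
  | [] => 0
  | e :: _ => e.time

/-- Job `j` was started at time `s` on the rectangle `r`. -/
def Started (H : History) (j : ℕ) (r : Rect) (s : ℝ) : Prop :=
  ∃ e ∈ H, e.ev = Ev.start j r ∧ e.time = s

/-- Job `j` has ended. -/
def Finished (H : History) (j : ℕ) : Prop := ∃ e ∈ H, e.ev = Ev.finish j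

open Classical in
/-- The jobs that are available at time `0`, with their requested dimensions. -/
noncomputable def newInit (I : Inst n) : Finset (ℕ × ℕ × ℕ) :=
  (I.jobs.filter fun k => I.pre k = ∅).image fun k => (k, I.a k, I.b k)

open Classical in
/-- The jobs that become available when, after history `H`, job `j` ends: those having `j` as a
predecessor and all of whose other predecessors have already ended. -/
noncomputable def newAt (I : Inst n) (H : History) (j : ℕ) : Finset (ℕ × ℕ × ℕ) :=
  (I.jobs.filter fun k => j ∈ I.pre k ∧ ∀ i ∈ I.pre k, i = j ∨ Finished H i).image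
    fun k => (k, I.a k, I.b k)

/-- `Run π I H` says that `H` is the history, up to some event, of the run of the deterministic
online algorithm `π` on the instance `I`. The algorithm sees only the history, so it learns of a
job when it becomes available and of its running time when it ends.
* The planned start of a job is carried out if its time comes before the end of all running jobs;
  the job must be available and not started before, and it must be started on an allowed rectangle
  that is disjoint from the rectangles of all running jobs.
* Otherwise the next event is the end of a running job with the least ending time (and, among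
  those, the least name).
A run in which neither applies is stuck. -/
inductive Run (π : Policy) (I : Inst n) : History → Prop
  | init : Run π I [⟨0, Ev.init, newInit I⟩]
  | start {H : History} {τ : ℝ} {j : ℕ} {r : Rect} (hH : Run π I H)
      (hπ : π H = some (τ, j, r)) (hτ : now H ≤ τ) (hj : j ∈ I.jobs)
      (hns : ∀ r' s', ¬ Started H j r' s') (hpre : ∀ i ∈ I.pre j, Finished H i)
      (hfit : I.Fits j r)
      (hrun : ∀ i r' s', Started H i r' s' → ¬ Finished H i →
        τ < s' + I.dur i r' ∧ Disjoint r'.cells r.cells) :
      Run π I (⟨τ, Ev.start j r, ∅⟩ :: H)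
  | finish {H : History} {j : ℕ} {r : Rect} {s : ℝ} (hH : Run π I H)
      (hst : Started H j r s) (hnf : ¬ Finished H j)
      (hmin : ∀ i r' s', Started H i r' s' → ¬ Finished H i →
        s + I.dur j r < s' + I.dur i r' ∨ (s + I.dur j r = s' + I.dur i r' ∧ j ≤ i))
      (hπ : ∀ τ i r', π H = some (τ, i, r') → s + I.dur j r ≤ τ) :
      Run π I (⟨s + I.dur j r, Ev.finish j, newAt I H j⟩ :: H)

/-- All jobs have ended. -/
def Complete (I : Inst n) (H : History) : Prop := ∀ j ∈ I.jobs, Finished H j

/-- The makespan of the deterministic online algorithm `π` on the instance `I`; it is `∞` when the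
run does not complete all jobs. -/
noncomputable def cost (π : Policy) (I : Inst n) : ℝ≥0∞ :=
  ⨅ (H : History) (_ : Run π I H) (_ : Complete I H), ENNReal.ofReal (now H)

/-- The optimal competitive ratio of deterministic online algorithms on the `n × n` mesh. -/
noncomputable def Rdet (n : ℕ) : ℝ≥0∞ :=
  sInf {c : ℝ≥0∞ | ∃ π : Policy, ∀ I : Inst n, cost π I ≤ c * ENNReal.ofReal (opt I)}

/-- A randomized online algorithm for the `n × n` mesh: a random deterministic online algorithm
such that, on every instance, its makespan is a random variable. -/
structure RandAlg (n : ℕ) where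
  Ω : Type
  mΩ : MeasurableSpace Ω
  P : @Measure Ω mΩ
  prob : @IsProbabilityMeasure Ω mΩ P
  policy : Ω → Policy
  meas : ∀ I : Inst n, @Measurable Ω ℝ≥0∞ mΩ _ (fun ω => cost (policy ω) I)

/-- The expected makespan of a randomized online algorithm on an instance. -/
noncomputable def RandAlg.expCost (A : RandAlg n) (I : Inst n) : ℝ≥0∞ :=
  @lintegral A.Ω A.mΩ A.P (fun ω => cost (A.policy ω) I)

/-- The optimal competitive ratio of randomized online algorithms on the `n × n` mesh, against an
adversary that fixes the instance in advance. -/
noncomputable def Rrand (n : ℕ) : ℝ≥0∞ :=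
  sInf {c : ℝ≥0∞ | ∃ A : RandAlg n, ∀ I : Inst n, A.expCost I ≤ c * ENNReal.ofReal (opt I)}

end Pool.Agent.Lib.MP_c7bce0_lc
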