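import Mathlib

/-!
# Counting under resampling of coordinates
-/

namespace Pool.Agent.Lib.MP_c7bce0_lc

open Finset

theorem resample_one {ι α : Type} [DecidableEq ι] [Fintype α] [DecidableEq α]
    (A : Finset (ι → α)) (i : ι) (S : Finset α)
    (hA : ∀ z ∈ A, ∀ c, Function.update z i c ∈ A) :
    (A.filter fun z => z i ∈ S).card * Fintype.card α = A.card * S.card := by
  rw [← Finset.card_univ (α := α), ← card_product, ← card_product]
  refine card_nbij' (fun p => (Function.update p.1 i p.2, p.1 i))
    (fun p => (Function.update p.1 i p.2, p.1 i)) ?_ ?_ ?_ ?_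
  · rintro ⟨z, c⟩ h
    simp only [coe_product, Set.mem_prod, mem_coe, mem_filter, mem_univ, and_true] at h ⊢
    exact ⟨hA z h.1 c, h.2⟩
  · rintro ⟨z, c⟩ h
    simp only [coe_product, Set.mem_prod, mem_coe, mem_filter, mem_univ, and_true] at h ⊢
    exact ⟨hA z h.1 c, by simpa using h.2⟩
  · rintro ⟨z, c⟩ h
    simp
  · rintro ⟨z, c⟩ h
    simp

theorem resample {ι α : Type} [DecidableEq ι] [Fintype α] [DecidableEq α]
    (q : Finset ι) (S : Finset α) : ∀ (A : Finset (ι → α)),
    (∀ z ∈ A, ∀ z', (∀ x, x ∉ q → z' x = z x) → z' ∈ A) →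
    (A.filter fun z => ∀ x ∈ q, z x ∈ S).card * Fintype.card α ^ q.card =
      A.card * S.card ^ q.card := by
  induction q using Finset.induction_on with
  | empty => intro A _; simp
  | insert i q hi ih =>
    intro A hA
    have h1 : (A.filter fun z => ∀ x ∈ insert i q, z x ∈ S) =
        (A.filter fun z => z i ∈ S).filter fun z => ∀ x ∈ q, z x ∈ S := by
      ext z
      simp [and_assoc]
    have h2 : ∀ z ∈ A.filter (fun z => z i ∈ S), ∀ z', (∀ x, x ∉ q → z' x = z x) →
        z' ∈ A.filter (fun z => z i ∈ S) := by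
      intro z hz z' hz'
      rw [mem_filter] at hz ⊢
      refine ⟨hA z hz.1 z' fun x hx => hz' x fun hx' => hx (mem_insert_of_mem hx'), ?_⟩
      rw [hz' i hi]
      exact hz.2
    have h3 : (A.filter fun z => z i ∈ S).card * Fintype.card α = A.card * S.card := by
      apply resample_one
      intro z hz c
      refine hA z hz _ fun x hx => Function.update_of_ne ?_ _ _
      rintro rfl
      exact hx (mem_insert_self _ _)
    rw [h1, card_insert_of_notMem hi, pow_succ, ← mul_assoc, ih _ h2, pow_succ, mul_assoc,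
      mul_comm (S.card ^ q.card) _, ← mul_assoc, h3]
    ring

/-- If `Q z` is a set of coordinates of size at least `k` which does not change when `z` is changed
on `Q z`, then the number of `z` with all coordinates in `Q z` taking values in `S` is at most
`(|S| / |α|) ^ k` times the number of all `z`. -/
theorem resample_adaptive {ι α : Type} [DecidableEq ι] [Fintype ι] [Fintype α] [DecidableEq α]
    (S : Finset α) (A : Finset (ι → α)) (Q : (ι → α) → Finset ι) (k : ℕ)
    (hk : ∀ z ∈ A, k ≤ (Q z).card)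
    (hA : ∀ z ∈ A, ∀ z', (∀ x, x ∉ Q z → z' x = z x) → z' ∈ A ∧ Q z' = Q z) :
    (A.filter fun z => ∀ x ∈ Q z, z x ∈ S).card * Fintype.card α ^ k ≤ A.card * S.card ^ k := by
  have h1 : (A.filter fun z => ∀ x ∈ Q z, z x ∈ S).card =
      ∑ q ∈ (Finset.univ : Finset (Finset ι)),
        ((A.filter fun z => ∀ x ∈ Q z, z x ∈ S).filter fun z => Q z = q).card :=
    card_eq_sum_card_fiberwise (fun _ _ => mem_univ _)
  have h2 : A.card = ∑ q ∈ (Finset.univ : Finset (Finset ι)), (A.filter fun z => Q z = q).card :=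
    card_eq_sum_card_fiberwise (fun _ _ => mem_univ _)
  rw [h1, h2, sum_mul, sum_mul]
  refine sum_le_sum fun q _ => ?_
  have h3 : ((A.filter fun z => ∀ x ∈ Q z, z x ∈ S).filter fun z => Q z = q) =
      (A.filter fun z => Q z = q).filter fun z => ∀ x ∈ q, z x ∈ S := by
    ext z
    simp only [mem_filter]
    constructor
    · rintro ⟨⟨h, h'⟩, rfl⟩
      exact ⟨⟨h, rfl⟩, h'⟩
    · rintro ⟨⟨h, rfl⟩, h'⟩
      exact ⟨⟨h, h'⟩, rfl⟩
  rw [h3]
  have h4 : ((A.filter fun z => Q z = q).filter fun z => ∀ x ∈ q, z x ∈ S).card *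
      Fintype.card α ^ q.card = (A.filter fun z => Q z = q).card * S.card ^ q.card := by
    have h5 := resample q S (A.filter fun z => Q z = q) (by
      intro z hz z' hz'
      rw [mem_filter] at hz ⊢
      obtain ⟨hz1, rfl⟩ := hz
      exact hA z hz1 z' hz')
    convert h5
  by_cases hne : (A.filter fun z => Q z = q).Nonempty
  · obtain ⟨z, hz⟩ := hne
    have hkq : k ≤ q.card := by
      obtain ⟨hz1, hz2⟩ := mem_filter.1 hz
      rw [← hz2]
      exact hk z hz1
    by_cases hα : Fintype.card α = 0
    · rcases Nat.eq_zero_or_pos k with rfl | hkpos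
      · simp only [pow_zero, mul_one]
        exact card_filter_le _ _
      · rw [hα, zero_pow hkpos.ne', mul_zero]
        exact Nat.zero_le _
    have hpos : 0 < Fintype.card α ^ (q.card - k) := Nat.pow_pos (Nat.pos_of_ne_zero hα)
    apply Nat.le_of_mul_le_mul_right _ hpos
    rw [mul_assoc, ← pow_add, Nat.add_sub_cancel' hkq, h4, mul_assoc]
    apply Nat.mul_le_mul_left
    calc S.card ^ q.card = S.card ^ k * S.card ^ (q.card - k) := by
          rw [← pow_add, Nat.add_sub_cancel' hkq]
      _ ≤ S.card ^ k * Fintype.card α ^ (q.card - k) :=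
          Nat.mul_le_mul_left _ (Nat.pow_le_pow_left (card_le_univ S) _)
  · rw [not_nonempty_iff_eq_empty] at hne
    rw [hne]
    simp

end Pool.Agent.Lib.MP_c7bce0_lc
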