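import Pool.Agent.Lib.MP_c7bce0_lc.Causal
import Pool.Agent.Lib.MP_c7bce0_lc.Resample

/-!
# Probability estimates
-/

namespace Pool.Agent.Lib.MP_c7bce0_lc

namespace Par

variable {P : Par} {π : Policy}

/-- `H` is the history of the run up to and including the start of job `J`. -/
def Reach (π : Policy) (z : P.Z) (J : ℕ) (H : History) : Prop :=
  Run π (inst z) H ∧ ∃ s r a H', H = ⟨s, Ev.start J r, a⟩ :: H'

theorem Reach.not_finished {z : P.Z} {J : ℕ} {H : History} (h : Reach π z J H) :
    ¬ Finished H J := by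
  obtain ⟨h1, s, r, a, H', rfl⟩ := h
  rw [finished_start]
  intro h2
  cases h1 with
  | start hH hπ hτ hj hns hpre hfit hrun =>
    obtain ⟨r', s', h3⟩ := hH.finished_started h2
    exact hns _ _ h3

theorem Reach.unique {z : P.Z} {J : ℕ} {H₁ H₂ : History} (h₁ : Reach π z J H₁)
    (h₂ : Reach π z J H₂) : H₁ = H₂ := by
  have key : ∀ {H₁ H₂ : History}, Reach π z J H₁ → Reach π z J H₂ → ∀ T, H₂ = T ++ H₁ →
      H₁ = H₂ := by
    intro H₁ H₂ h₁ h₂ T hT
    rcases T with _ | ⟨e, T⟩
    · exact hT.symm
    · exfalso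
      obtain ⟨hr, s, r, a, H', rfl⟩ := h₂
      rw [List.cons_append, List.cons.injEq] at hT
      obtain ⟨-, rfl⟩ := hT
      obtain ⟨-, s', r', a', H'', rfl⟩ := h₁
      cases hr with
      | start hH hπ hτ hj hns hpre hfit hrun =>
        exact hns r' s' ⟨⟨s', Ev.start J r', a'⟩, by simp, rfl, rfl⟩
  rcases h₁.1.comparable h₂.1 with ⟨T, hT⟩ | ⟨T, hT⟩
  · exact key h₁ h₂ T hT
  · exact (key h₂ h₁ T hT).symm

open Classical in
/-- The jobs of the phase of `J`, other than `J`, that were started in `H`, are certainly still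
running at the end of `H`, and meet the set `σ` of processors. -/
noncomputable def Qs (P : Par) (H : History) (J : ℕ) (σ : Finset (ℕ × ℕ)) : Finset (Fin P.M) :=
  Finset.univ.filter fun y => P.ph y = P.ph J ∧ (y : ℕ) ≠ J ∧
    ∃ r s, Started H y r s ∧ now H < s + P.short y r ∧ ¬ Disjoint r.cells σ

theorem mem_Qs {H : History} {J : ℕ} {σ : Finset (ℕ × ℕ)} {y : Fin P.M} :
    y ∈ P.Qs H J σ ↔ P.ph y = P.ph J ∧ (y : ℕ) ≠ J ∧
      ∃ r s, Started H y r s ∧ now H < s + P.short y r ∧ ¬ Disjoint r.cells σ := by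
  classical
  unfold Qs
  simp

open Classical in
/-- The bad event for job `J` and the set `σ` of processors: when `J` starts, at least `k` jobs
of its phase that meet `σ` are certainly still running, and all of them are short. -/
noncomputable def bad (P : Par) (π : Policy) (k J : ℕ) (σ : Finset (ℕ × ℕ)) : Finset P.Z :=
  Finset.univ.filter fun z => ¬ Long z J ∧
    ∃ H, Reach π z J H ∧ k ≤ (P.Qs H J σ).card ∧ ∀ y ∈ P.Qs H J σ, ¬ Long z y

theorem long_coe {z : P.Z} {y : Fin P.M} : Long z (y : ℕ) ↔ (z y).val = 0 := by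
  unfold Long
  constructor
  · rintro ⟨h, h'⟩; exact h'
  · intro h; exact ⟨y.2, h⟩

theorem card_nonzero (P : Par) :
    ((Finset.univ : Finset (Fin P.D)).filter fun c => c.val ≠ 0).card = P.D - 1 := by
  have h0 : ((Finset.univ : Finset (Fin P.D)).filter fun c => c.val ≠ 0) =
      Finset.univ.erase (⟨0, P.D_pos⟩ : Fin P.D) := by
    ext c
    simp [Fin.ext_iff]
  rw [h0, Finset.card_erase_of_mem (Finset.mem_univ _), Finset.card_univ, Fintype.card_fin]

theorem card_bad (π : Policy) (k : ℕ) {J : ℕ} (hJ : J ∈ P.jobs) (σ : Finset (ℕ × ℕ)) :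
    (P.bad π k J σ).card * P.D ^ k ≤ Fintype.card P.Z * (P.D - 1) ^ k := by
  classical
  let A : Finset P.Z := Finset.univ.filter fun z => ¬ Long z J ∧
    ∃ H, Reach π z J H ∧ k ≤ (P.Qs H J σ).card
  let Q : P.Z → Finset (Fin P.M) := fun z =>
    if h : ∃ H, Reach π z J H then P.Qs h.choose J σ else ∅
  have hQ : ∀ z H, Reach π z J H → Q z = P.Qs H J σ := by
    intro z H h
    have h' : ∃ H, Reach π z J H := ⟨H, h⟩
    show (if h : ∃ H, Reach π z J H then P.Qs h.choose J σ else ∅) = _
    rw [dif_pos h']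
    rw [h'.choose_spec.unique h]
  let S : Finset (Fin P.D) := Finset.univ.filter fun c => c.val ≠ 0
  have hsub : P.bad π k J σ ⊆ A.filter fun z => ∀ x ∈ Q z, z x ∈ S := by
    intro z hz
    unfold bad at hz
    rw [Finset.mem_filter] at hz
    obtain ⟨-, h1, H, h2, h3, h4⟩ := hz
    rw [Finset.mem_filter]
    refine ⟨Finset.mem_filter.2 ⟨Finset.mem_univ _, h1, H, h2, h3⟩, ?_⟩
    intro x hx
    rw [hQ z H h2] at hx
    have := h4 x hx
    rw [long_coe] at this
    exact Finset.mem_filter.2 ⟨Finset.mem_univ _, this⟩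
  have hmain := resample_adaptive S A Q k (by
    intro z hz
    obtain ⟨-, -, H, h2, h3⟩ := Finset.mem_filter.1 hz
    rw [hQ z H h2]
    exact h3) (by
    intro z hz z' hz'
    obtain ⟨-, h1, H, h2, h3⟩ := Finset.mem_filter.1 hz
    rw [hQ z H h2] at hz'
    have hlong : ∀ y : ℕ, (Long z y ↔ Long z' y) ∨
        (P.ph y = P.ph J ∧ y ≠ J ∧ ∃ r s, Started H y r s ∧ now H < s + P.short y r) := by
      intro y
      by_cases hy : y < P.M
      · by_cases hyQ : (⟨y, hy⟩ : Fin P.M) ∈ P.Qs H J σ
        · right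
          obtain ⟨h4, h5, r, s, h6, h7, -⟩ := mem_Qs.1 hyQ
          exact ⟨h4, h5, r, s, h6, h7⟩
        · left
          have := hz' _ hyQ
          have e1 := long_coe (z := z) (y := ⟨y, hy⟩)
          have e2 := long_coe (z := z') (y := ⟨y, hy⟩)
          rw [this] at e2
          exact e1.trans e2.symm
      · left
        constructor
        · rintro ⟨h, -⟩; exact absurd h hy
        · rintro ⟨h, -⟩; exact absurd h hy
    have hrun := causal h2.1 hJ h1 h2.not_finished hlong
    have hreach : Reach π z' J H := ⟨hrun, h2.2⟩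
    have hJ' : ¬ Long z' J := by
      rcases hlong J with h | h
      · rwa [← h]
      · exact absurd rfl h.2.1
    refine ⟨Finset.mem_filter.2 ⟨Finset.mem_univ _, hJ', H, hreach, h3⟩, ?_⟩
    rw [hQ z H h2, hQ z' H hreach])
  have hS : S.card = P.D - 1 := P.card_nonzero
  rw [hS, Fintype.card_fin] at hmain
  calc (P.bad π k J σ).card * P.D ^ k
      ≤ (A.filter fun z => ∀ x ∈ Q z, z x ∈ S).card * P.D ^ k :=
        Nat.mul_le_mul_right _ (Finset.card_le_card hsub)
    _ ≤ A.card * (P.D - 1) ^ k := by convert hmain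
    _ ≤ Fintype.card P.Z * (P.D - 1) ^ k := Nat.mul_le_mul_right _ (Finset.card_le_univ _)

/-- The probability that a given job is long is `1 / D`. -/
theorem card_long {x : ℕ} (hx : x < P.M) :
    ((Finset.univ : Finset P.Z).filter fun z => Long z x).card * P.D = Fintype.card P.Z := by
  classical
  have h := resample_one (Finset.univ : Finset P.Z) (⟨x, hx⟩ : Fin P.M)
    ((Finset.univ : Finset (Fin P.D)).filter fun c => c.val = 0) (fun z _ c => Finset.mem_univ _)
  have h0 : ((Finset.univ : Finset (Fin P.D)).filter fun c => c.val = 0) =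
      {(⟨0, P.D_pos⟩ : Fin P.D)} := by
    ext c
    simp [Fin.ext_iff]
  rw [h0, Finset.card_singleton, mul_one, Finset.card_univ, Fintype.card_fin] at h
  rw [← h]
  congr 2
  ext z
  simp only [Finset.mem_filter, Finset.mem_univ, true_and, Finset.mem_singleton]
  have := long_coe (z := z) (y := ⟨x, hx⟩)
  rw [Fin.ext_iff]
  exact this

/-- The expected value of the bound for the optimal makespan. -/
theorem sum_opt_le (P : Par) : ∑ z : P.Z, opt (inst z) ≤
    Fintype.card P.Z * (P.R * P.L * P.T + P.L * P.R / P.D + P.L) := by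
  classical
  have hD : (0 : ℝ) < P.D := by exact_mod_cast P.D_pos
  -- the number of jobs of a class
  have hclass : ∀ c, c < P.L → (P.jobs.filter fun x => P.ph x % P.L = c).card ≤ P.R * P.N c := by
    intro c hc
    rw [← Finset.card_range P.R, ← Finset.card_range (P.N c), ← Finset.card_product]
    refine Finset.card_le_card_of_injOn (fun x => (P.ph x / P.L, x % P.n ^ 2)) ?_ ?_
    · intro x hx
      obtain ⟨h1, h2⟩ := Finset.mem_filter.1 (Finset.mem_coe.1 hx)
      simp only [Finset.coe_product, Finset.coe_range, Set.mem_prod, Set.mem_Iio]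
      refine ⟨(Nat.div_lt_iff_lt_mul P.L_pos).2 (ph_lt h1), ?_⟩
      have h3 := (mem_jobs.1 h1).2
      rwa [P.N_congr (p' := c) (by rw [h2, Nat.mod_eq_of_lt hc])] at h3
    · intro x hx y hy hxy
      obtain ⟨h1, h2⟩ := Finset.mem_filter.1 (Finset.mem_coe.1 hx)
      obtain ⟨h3, h4⟩ := Finset.mem_filter.1 (Finset.mem_coe.1 hy)
      simp only [Prod.mk.injEq] at hxy
      have h5 : P.ph x = P.ph y := by
        rw [← Nat.div_add_mod (P.ph x) P.L, ← Nat.div_add_mod (P.ph y) P.L, hxy.1, h2, h4]
      rw [← Nat.div_add_mod x (P.n ^ 2), ← Nat.div_add_mod y (P.n ^ 2), hxy.2]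
      unfold ph at h5
      rw [h5]
  -- expected number of long jobs of a class
  have hlongs : ∀ c, c < P.L → (∑ z : P.Z, ((longs z c).card : ℝ)) ≤
      Fintype.card P.Z * (P.R * P.N c) / P.D := by
    intro c hc
    have h1 : ∑ z : P.Z, (longs z c).card =
        ∑ x ∈ P.jobs.filter (fun x => P.ph x % P.L = c),
          ((Finset.univ : Finset P.Z).filter fun z => Long z x).card := by
      have h2 : ∀ z : P.Z, (longs z c).card =
          ∑ x ∈ P.jobs.filter (fun x => P.ph x % P.L = c), if Long z x then 1 else 0 := by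
        intro z
        rw [← Finset.card_filter]
        congr 1
        ext x
        simp only [longs, Finset.mem_filter]
        tauto
      simp_rw [h2]
      rw [Finset.sum_comm]
      refine Finset.sum_congr rfl fun x _ => ?_
      rw [Finset.card_filter]
    have h3 : (∑ z : P.Z, (longs z c).card) * P.D =
        (P.jobs.filter fun x => P.ph x % P.L = c).card * Fintype.card P.Z := by
      rw [h1, Finset.sum_mul, Finset.card_eq_sum_ones, Finset.sum_mul]
      refine Finset.sum_congr rfl fun x hx => ?_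
      rw [card_long (mem_jobs.1 (Finset.mem_filter.1 hx).1).1, one_mul]
    have h4 : (∑ z : P.Z, (longs z c).card) * P.D ≤ P.R * P.N c * Fintype.card P.Z := by
      rw [h3]
      exact Nat.mul_le_mul_right _ (hclass c hc)
    rw [le_div_iff₀ hD]
    have h5 : (((∑ z : P.Z, (longs z c).card) * P.D : ℕ) : ℝ) ≤
        ((P.R * P.N c * Fintype.card P.Z : ℕ) : ℝ) := by exact_mod_cast h4
    push_cast at h5
    linarith
  calc ∑ z : P.Z, opt (inst z)
      ≤ ∑ z : P.Z, (P.R * P.L * P.T + ∑ c ∈ Finset.range P.L, (blocks z c : ℝ)) :=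
        Finset.sum_le_sum fun z _ => opt_le z
    _ ≤ ∑ z : P.Z, (P.R * P.L * P.T +
          ∑ c ∈ Finset.range P.L, ((longs z c).card / (P.N c : ℝ) + 1)) := by
        refine Finset.sum_le_sum fun z _ => ?_
        refine add_le_add le_rfl (Finset.sum_le_sum fun c _ => ?_)
        unfold blocks
        push_cast
        exact add_le_add Nat.cast_div_le le_rfl
    _ = Fintype.card P.Z * (P.R * P.L * P.T) +
          ∑ c ∈ Finset.range P.L, ((∑ z : P.Z, ((longs z c).card : ℝ)) / P.N c +
            Fintype.card P.Z) := by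
        rw [Finset.sum_add_distrib, Finset.sum_const, Finset.card_univ, nsmul_eq_mul,
          Finset.sum_comm]
        congr 1
        refine Finset.sum_congr rfl fun c _ => ?_
        rw [Finset.sum_add_distrib, Finset.sum_const, Finset.card_univ, nsmul_eq_mul, mul_one,
          Finset.sum_div]
    _ ≤ Fintype.card P.Z * (P.R * P.L * P.T) +
          ∑ c ∈ Finset.range P.L, (Fintype.card P.Z * P.R / P.D + (Fintype.card P.Z : ℝ)) := by
        refine add_le_add le_rfl (Finset.sum_le_sum fun c hc => ?_)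
        refine add_le_add ?_ le_rfl
        have hN : (0 : ℝ) < P.N c := by exact_mod_cast P.N_pos c
        rw [div_le_iff₀ hN]
        refine (hlongs c (Finset.mem_range.1 hc)).trans (le_of_eq ?_)
        ring
    _ = Fintype.card P.Z * (P.R * P.L * P.T + P.L * P.R / P.D + P.L) := by
        rw [Finset.sum_const, Finset.card_range, nsmul_eq_mul]
        ring

end Par

end Pool.Agent.Lib.MP_c7bce0_lc
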