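import Pool.Agent.Lib.MP_c7bce0_lc.Det

/-!
# Every round without a bad event lasts at least one unit of time
-/

namespace Pool.Agent.Lib.MP_c7bce0_lc

namespace Par

variable {P : Par} {π : Policy} {z : P.Z}

theorem cmp_dims (P : Par) (ρ : ℕ) {c c' : ℕ} (h : c < c') (h' : c' < P.L) :
    P.q * P.wd (ρ * P.L + c) ≤ P.wd (ρ * P.L + c') ∨
      P.q * P.ht (ρ * P.L + c) ≤ P.ht (ρ * P.L + c') := by
  have h1 : (ρ * P.L + c) % P.L = c := by
    rw [Nat.mul_add_mod', Nat.mod_eq_of_lt (h.trans h')]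
  have h2 : (ρ * P.L + c') % P.L = c' := by
    rw [Nat.mul_add_mod', Nat.mod_eq_of_lt h']
  unfold wd ht
  rw [h1, h2]
  rcases (Nat.div_le_div_right (c := P.K) h.le).lt_or_eq with h3 | h3
  · left
    rw [← pow_succ']
    exact Nat.pow_le_pow_right P.q_pos h3
  · right
    rw [← pow_succ']
    apply Nat.pow_le_pow_right P.q_pos
    have h4 := Nat.div_add_mod c P.K
    have h5 := Nat.div_add_mod c' P.K
    rw [h3] at h4
    omega

theorem four_N (P : Par) (p : ℕ) : P.n ^ 2 ≤ 4 * (P.N p * (P.wd p * P.ht p)) := by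
  have key : ∀ a : ℕ, 0 < a → 0 < P.n / a → P.n ≤ 2 * (P.n / a * a) := by
    intro a ha hna
    have h1 : P.n < P.n / a * a + a := Nat.lt_div_mul_add ha
    have h2 : 1 * a ≤ P.n / a * a := Nat.mul_le_mul_right a hna
    omega
  have h1 := key _ (P.wd_pos p) (P.div_wd_pos p)
  have h2 := key _ (P.ht_pos p) (P.div_ht_pos p)
  calc P.n ^ 2 = P.n * P.n := pow_two _
    _ ≤ (2 * (P.n / P.wd p * P.wd p)) * (2 * (P.n / P.ht p * P.ht p)) := Nat.mul_le_mul h1 h2
    _ = 4 * (P.N p * (P.wd p * P.ht p)) := by unfold N; ring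

/-- Disjointification: if every set `D c'` has at most the fraction `1 / (2 L)` of its points in
each earlier set, then the total size is at most twice the size of the whole space. -/
theorem sum_card_le (L B : ℕ) (hL : 0 < L) (D : ℕ → Finset (ℕ × ℕ)) (U : Finset (ℕ × ℕ))
    (hU : U.card ≤ B) (hD : ∀ c < L, D c ⊆ U)
    (h : ∀ c c', c < c' → c' < L → 2 * L * (D c ∩ D c').card ≤ (D c').card) :
    ∑ c ∈ Finset.range L, (D c).card ≤ 2 * B := by
  classical
  let E : ℕ → Finset (ℕ × ℕ) := fun c => D c \ (Finset.range c).biUnion D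
  have h1 : ∀ c < L, (D c).card ≤ 2 * (E c).card := by
    intro c hc
    have h2 : (D c ∩ (Finset.range c).biUnion D).card ≤
        ∑ c' ∈ Finset.range c, (D c' ∩ D c).card := by
      rw [Finset.inter_biUnion]
      refine Finset.card_biUnion_le.trans (Finset.sum_le_sum fun c' _ => ?_)
      rw [Finset.inter_comm]
    have h3 : 2 * L * (D c ∩ (Finset.range c).biUnion D).card ≤ L * (D c).card := by
      calc 2 * L * (D c ∩ (Finset.range c).biUnion D).card
          ≤ 2 * L * ∑ c' ∈ Finset.range c, (D c' ∩ D c).card := Nat.mul_le_mul_left _ h2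
        _ = ∑ c' ∈ Finset.range c, 2 * L * (D c' ∩ D c).card := Finset.mul_sum _ _ _
        _ ≤ ∑ _c' ∈ Finset.range c, (D c).card :=
            Finset.sum_le_sum fun c' hc' => h c' c (Finset.mem_range.1 hc') hc
        _ = c * (D c).card := by simp
        _ ≤ L * (D c).card := Nat.mul_le_mul_right _ hc.le
    have h4 : 2 * (D c ∩ (Finset.range c).biUnion D).card ≤ (D c).card := by
      apply Nat.le_of_mul_le_mul_left _ hL
      calc L * (2 * (D c ∩ (Finset.range c).biUnion D).card)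
          = 2 * L * (D c ∩ (Finset.range c).biUnion D).card := by ring
        _ ≤ _ := h3
    have h5 := Finset.card_sdiff_add_card_inter (D c) ((Finset.range c).biUnion D)
    show (D c).card ≤ 2 * (D c \ (Finset.range c).biUnion D).card
    omega
  have h6 : ∑ c ∈ Finset.range L, (E c).card ≤ B := by
    rw [← Finset.card_biUnion]
    · refine (Finset.card_le_card ?_).trans hU
      refine Finset.biUnion_subset.2 fun c hc => ?_
      exact Finset.sdiff_subset.trans (hD c (Finset.mem_range.1 hc))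
    · have key : ∀ c c', c < c' → Disjoint (E c) (E c') := by
        intro c c' hcc
        rw [Finset.disjoint_left]
        intro p hp hp'
        exact (Finset.mem_sdiff.1 hp').2 (Finset.mem_biUnion.2
          ⟨c, Finset.mem_range.2 hcc, (Finset.mem_sdiff.1 hp).1⟩)
      intro c _ c' _ hne
      rcases lt_or_gt_of_ne hne with h7 | h7
      · exact key c c' h7
      · exact (key c' c h7).symm
  calc ∑ c ∈ Finset.range L, (D c).card ≤ ∑ c ∈ Finset.range L, 2 * (E c).card :=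
        Finset.sum_le_sum fun c hc => h1 c (Finset.mem_range.1 hc)
    _ = 2 * ∑ c ∈ Finset.range L, (E c).card := (Finset.mul_sum _ _ _).symm
    _ ≤ 2 * B := Nat.mul_le_mul_left _ h6

/-- A round without bad events lasts at least one unit of time. -/
theorem round_ge_one (C : CRun π z) (ρ k : ℕ) (hk : 0 < k) (hT : 16 ≤ P.T * (P.L : ℝ) ^ 2)
    (hq : 32 * (P.L : ℝ) ^ 2 * k ≤ P.T * P.q)
    (hN : ∀ p, ρ * P.L ≤ p → p < ρ * P.L + P.L → P.N p ≤ 2 * (CRun.shorts z p).card)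
    (hgood : ∀ J ∈ P.jobs, ρ * P.L ≤ P.ph J → P.ph J < ρ * P.L + P.L →
      ∀ σ ∈ P.segs (4 * P.L * k) (P.ph J), z ∉ P.bad π k J σ) :
    1 ≤ C.tau (ρ * P.L + P.L) - C.tau (ρ * P.L) := by
  by_contra hcon
  have hw : C.tau (ρ * P.L + P.L) - C.tau (ρ * P.L) < 1 := not_le.1 hcon
  have hLpos := P.L_pos
  have hL : (0 : ℝ) < P.L := by exact_mod_cast hLpos
  have hn : (0 : ℝ) < P.n := by exact_mod_cast P.n_pos
  have hTpos := P.T_pos
  have hne : ∀ c < P.L, (CRun.shorts z (ρ * P.L + c)).Nonempty := by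
    intro c hc
    rw [← Finset.card_pos]
    have h1 := hN (ρ * P.L + c) (Nat.le_add_right _ _) (Nat.add_lt_add_left hc _)
    have h2 := P.N_pos (ρ * P.L + c)
    omega
  have hpeak : ∀ c, c < P.L → ∃ J, J ∈ P.jobs ∧ ¬ Long z J ∧ P.ph J = ρ * P.L + c ∧
      ((CRun.shorts z (ρ * P.L + c)).card : ℝ) *
        (P.T * (P.wd (ρ * P.L + c) * P.ht (ρ * P.L + c))) ≤
        (C.area J).card * (C.tau (ρ * P.L + c + 1) - C.tau (ρ * P.L + c)) :=
    fun c hc => CRun.exists_peak (hne c hc)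
  choose! J hJ1 hJ2 hJ3 hJ4 using hpeak
  have hsum : ∑ c ∈ Finset.range P.L, (C.area (J c)).card ≤ 2 * P.n ^ 2 := by
    apply sum_card_le P.L (P.n ^ 2) hLpos (fun c => C.area (J c))
      (Finset.range P.n ×ˢ Finset.range P.n)
    · rw [Finset.card_product, Finset.card_range, pow_two]
    · intro c _
      exact CRun.area_subset
    · intro c c' hcc hc'
      have hc := hcc.trans hc'
      have h1 : (C.area (J c) ∩ C.area (J c')).card ≤
          ∑ y ∈ C.grp (J c'), (C.area (J c) ∩ (C.rc y).cells).card := by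
        have : C.area (J c) ∩ C.area (J c') =
            (C.grp (J c')).biUnion fun y => C.area (J c) ∩ (C.rc y).cells := by
          show C.area (J c) ∩ (C.grp (J c')).biUnion (fun y => (C.rc y).cells) = _
          rw [Finset.inter_biUnion]
        rw [this]
        exact Finset.card_biUnion_le
      calc 2 * P.L * (C.area (J c) ∩ C.area (J c')).card
          ≤ 2 * P.L * ∑ y ∈ C.grp (J c'), (C.area (J c) ∩ (C.rc y).cells).card :=
            Nat.mul_le_mul_left _ h1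
        _ = ∑ y ∈ C.grp (J c'), 2 * P.L * (C.area (J c) ∩ (C.rc y).cells).card :=
            Finset.mul_sum _ _ _
        _ ≤ ∑ y ∈ C.grp (J c'), (C.rc y).w * (C.rc y).h := by
            refine Finset.sum_le_sum fun y hy => ?_
            obtain ⟨hy1, hy2, hy3, -, -⟩ := CRun.mem_grp.1 hy
            rw [hJ3 c' hc'] at hy3
            have e1 := hJ3 c hc
            refine CRun.overlap hw hk (hJ1 c hc) (hJ2 c hc) hy1 hy2 ?_ ?_ ?_ ?_ hq ?_
            · omega
            · omega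
            · omega
            · exact hgood _ (hJ1 c hc) (by omega) (by omega)
            · rw [hy3, e1]
              exact P.cmp_dims ρ hcc hc'
        _ = (C.area (J c')).card := (CRun.card_area (hJ1 c' hc')).symm
  -- the final computation
  set X : ℕ → ℝ := fun c => ((C.area (J c)).card : ℝ) with hX
  set d : ℕ → ℝ := fun c => C.tau (ρ * P.L + c + 1) - C.tau (ρ * P.L + c) with hd
  have hd0 : ∀ c, 0 ≤ d c := fun c => sub_nonneg.2 (CRun.tau_mono (Nat.le_succ _))
  have hXsum : ∑ c ∈ Finset.range P.L, X c ≤ 2 * (P.n : ℝ) ^ 2 := by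
    have : ((∑ c ∈ Finset.range P.L, (C.area (J c)).card : ℕ) : ℝ) ≤ ((2 * P.n ^ 2 : ℕ) : ℝ) := by
      exact_mod_cast hsum
    push_cast at this
    exact this
  have hXd : ∀ c < P.L, P.T * (P.n : ℝ) ^ 2 / 8 ≤ X c * d c := by
    intro c hc
    refine le_trans ?_ (hJ4 c hc)
    have h1 : (P.N (ρ * P.L + c) : ℝ) ≤ 2 * (CRun.shorts z (ρ * P.L + c)).card := by
      exact_mod_cast hN (ρ * P.L + c) (Nat.le_add_right _ _) (Nat.add_lt_add_left hc _)
    have h2 : ((P.n : ℝ)) ^ 2 ≤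
        4 * (P.N (ρ * P.L + c) * (P.wd (ρ * P.L + c) * P.ht (ρ * P.L + c))) := by
      exact_mod_cast P.four_N (ρ * P.L + c)
    have h3 : (0 : ℝ) ≤ P.wd (ρ * P.L + c) * P.ht (ρ * P.L + c) := by positivity
    calc P.T * (P.n : ℝ) ^ 2 / 8
        ≤ P.T * (4 * (P.N (ρ * P.L + c) * (P.wd (ρ * P.L + c) * P.ht (ρ * P.L + c)))) / 8 := by
          gcongr
      _ = (P.N (ρ * P.L + c) : ℝ) * (P.wd (ρ * P.L + c) * P.ht (ρ * P.L + c)) * (P.T / 2) := by
          ring
      _ ≤ (2 * (CRun.shorts z (ρ * P.L + c)).card : ℝ) *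
          (P.wd (ρ * P.L + c) * P.ht (ρ * P.L + c)) * (P.T / 2) := by gcongr
      _ = _ := by ring
  set c₀ : ℝ := 2 * (P.n : ℝ) ^ 2 / P.L with hc₀
  have hc₀pos : 0 < c₀ := by positivity
  have hkey : ∀ c ∈ Finset.range P.L,
      P.T * (P.n : ℝ) ^ 2 / 8 * (2 * c₀ - X c) ≤ d c * c₀ ^ 2 := by
    intro c hc
    rw [Finset.mem_range] at hc
    have h1 := hXd c hc
    have h2 := hd0 c
    rcases le_or_gt (2 * c₀ - X c) 0 with h3 | h3
    · have h4 : P.T * (P.n : ℝ) ^ 2 / 8 * (2 * c₀ - X c) ≤ 0 :=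
        mul_nonpos_of_nonneg_of_nonpos (by positivity) h3
      have h5 : 0 ≤ d c * c₀ ^ 2 := by positivity
      linarith
    · calc P.T * (P.n : ℝ) ^ 2 / 8 * (2 * c₀ - X c) ≤ X c * d c * (2 * c₀ - X c) := by gcongr
        _ = d c * (X c * (2 * c₀ - X c)) := by ring
        _ ≤ d c * c₀ ^ 2 := by
            gcongr
            nlinarith [sq_nonneg (c₀ - X c)]
  have hsumd : ∑ c ∈ Finset.range P.L, d c = C.tau (ρ * P.L + P.L) - C.tau (ρ * P.L) := by
    have := Finset.sum_range_sub (fun c => C.tau (ρ * P.L + c)) P.L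
    simpa [hd, add_assoc] using this
  have hfinal : P.T * (P.n : ℝ) ^ 2 / 8 * (2 * (P.n : ℝ) ^ 2) ≤
      (∑ c ∈ Finset.range P.L, d c) * c₀ ^ 2 := by
    calc P.T * (P.n : ℝ) ^ 2 / 8 * (2 * (P.n : ℝ) ^ 2)
        ≤ P.T * (P.n : ℝ) ^ 2 / 8 * (P.L * (2 * c₀) - ∑ c ∈ Finset.range P.L, X c) := by
          gcongr
          have : (P.L : ℝ) * (2 * c₀) = 4 * (P.n : ℝ) ^ 2 := by
            rw [hc₀]; field_simp; ring
          rw [this]
          linarith
      _ = ∑ c ∈ Finset.range P.L, P.T * (P.n : ℝ) ^ 2 / 8 * (2 * c₀ - X c) := by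
          rw [← Finset.mul_sum, Finset.sum_sub_distrib, Finset.sum_const, Finset.card_range,
            nsmul_eq_mul]
      _ ≤ ∑ c ∈ Finset.range P.L, d c * c₀ ^ 2 := Finset.sum_le_sum hkey
      _ = (∑ c ∈ Finset.range P.L, d c) * c₀ ^ 2 := (Finset.sum_mul _ _ _).symm
  rw [hsumd] at hfinal
  have h7 : c₀ ^ 2 = 4 * (P.n : ℝ) ^ 4 / (P.L : ℝ) ^ 2 := by
    rw [hc₀]; field_simp; ring
  have h8 : P.T * (P.n : ℝ) ^ 2 / 8 * (2 * (P.n : ℝ) ^ 2) < c₀ ^ 2 := by
    refine lt_of_le_of_lt hfinal ?_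
    calc (C.tau (ρ * P.L + P.L) - C.tau (ρ * P.L)) * c₀ ^ 2 < 1 * c₀ ^ 2 := by
          gcongr
      _ = c₀ ^ 2 := one_mul _
  rw [h7, lt_div_iff₀ (by positivity)] at h8
  have h9 : P.T * (P.n : ℝ) ^ 2 / 8 * (2 * (P.n : ℝ) ^ 2) * (P.L : ℝ) ^ 2 =
      (P.T * (P.L : ℝ) ^ 2) * ((P.n : ℝ) ^ 4 / 4) := by ring
  rw [h9] at h8
  have h10 : 16 * ((P.n : ℝ) ^ 4 / 4) ≤ (P.T * (P.L : ℝ) ^ 2) * ((P.n : ℝ) ^ 4 / 4) := by
    gcongr
  have h11 : (0 : ℝ) < (P.n : ℝ) ^ 4 := by positivity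
  linarith

end Par

end Pool.Agent.Lib.MP_c7bce0_lc
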