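import Pool.Agent.Lib.MP_c7bce0_lc.Model

/-!
# Basic facts on runs
-/

namespace Pool.Agent.Lib.MP_c7bce0_lc

variable {n : ℕ} {π : Policy} {I : Inst n}

theorem started_cons {e : Entry} {H : History} {j : ℕ} {r : Rect} {s : ℝ} :
    Started (e :: H) j r s ↔ (e.ev = Ev.start j r ∧ e.time = s) ∨ Started H j r s := by
  simp [Started]

theorem finished_cons {e : Entry} {H : History} {j : ℕ} :
    Finished (e :: H) j ↔ e.ev = Ev.finish j ∨ Finished H j := by
  simp [Finished]

theorem started_single_init {a : Finset (ℕ × ℕ × ℕ)} {t : ℝ} {j : ℕ} {r : Rect} {s : ℝ} :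
    ¬ Started [⟨t, Ev.init, a⟩] j r s := by
  simp [Started]

theorem finished_single_init {a : Finset (ℕ × ℕ × ℕ)} {t : ℝ} {j : ℕ} :
    ¬ Finished [⟨t, Ev.init, a⟩] j := by
  simp [Finished]

theorem started_start {τ s : ℝ} {i j : ℕ} {r r' : Rect} {a} {H : History} :
    Started (⟨τ, Ev.start j r, a⟩ :: H) i r' s ↔ (i = j ∧ r' = r ∧ s = τ) ∨ Started H i r' s := by
  rw [started_cons]
  simp only [Ev.start.injEq]
  constructor
  · rintro (⟨⟨h1, h2⟩, h3⟩ | h)
    · exact Or.inl ⟨h1.symm, h2.symm, h3.symm⟩
    · exact Or.inr h
  · rintro (⟨h1, h2, h3⟩ | h)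
    · exact Or.inl ⟨⟨h1.symm, h2.symm⟩, h3.symm⟩
    · exact Or.inr h

theorem started_finish {τ s : ℝ} {i j : ℕ} {r' : Rect} {a} {H : History} :
    Started (⟨τ, Ev.finish j, a⟩ :: H) i r' s ↔ Started H i r' s := by
  rw [started_cons]
  simp

theorem finished_start {τ : ℝ} {i j : ℕ} {r : Rect} {a} {H : History} :
    Finished (⟨τ, Ev.start j r, a⟩ :: H) i ↔ Finished H i := by
  rw [finished_cons]
  simp

theorem finished_finish {τ : ℝ} {i j : ℕ} {a} {H : History} :
    Finished (⟨τ, Ev.finish j, a⟩ :: H) i ↔ i = j ∨ Finished H i := by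
  rw [finished_cons]
  simp only [Ev.finish.injEq]
  exact or_congr_left eq_comm

theorem Run.ne_nil {H : History} (h : Run π I H) : H ≠ [] := by
  cases h <;> simp

theorem Run.tail {e : Entry} {H : History} (h : Run π I (e :: H)) (hH : H ≠ []) : Run π I H := by
  cases h with
  | init => exact absurd rfl hH
  | start hH => exact hH
  | finish hH => exact hH

theorem Run.suffix {T H : History} (h : Run π I (T ++ H)) (hH : H ≠ []) : Run π I H := by
  induction T with
  | nil => exact h
  | cons e T ih =>
    apply ih
    apply Run.tail (e := e) h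
    simp [hH]

theorem Started.mono {T H : History} {j : ℕ} {r : Rect} {s : ℝ} (h : Started H j r s) :
    Started (T ++ H) j r s := by
  obtain ⟨e, he, h1⟩ := h
  exact ⟨e, List.mem_append_right _ he, h1⟩

theorem Finished.mono {T H : History} {j : ℕ} (h : Finished H j) : Finished (T ++ H) j := by
  obtain ⟨e, he, h1⟩ := h
  exact ⟨e, List.mem_append_right _ he, h1⟩

/-- A started job is a job of the instance, on an allowed rectangle, and has a nonnegative
duration. -/
theorem Run.started_fits {H : History} (h : Run π I H) :
    ∀ {j r s}, Started H j r s → j ∈ I.jobs ∧ I.Fits j r := by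
  induction h with
  | init => intro j r s hs; exact absurd hs started_single_init
  | start hH hπ hτ hj hns hpre hfit hrun ih =>
    intro i r' s hs
    rcases started_start.1 hs with ⟨rfl, rfl, rfl⟩ | hs
    · exact ⟨hj, hfit⟩
    · exact ih hs
  | finish hH hst hnf hmin hπ ih =>
    intro i r' s hs
    exact ih (started_finish.1 hs)

theorem Inst.dur_nonneg {j : ℕ} (hj : j ∈ I.jobs) (r : Rect) : 0 ≤ I.dur j r := by
  unfold Inst.dur
  have := I.t_nonneg j hj
  positivity

theorem Run.dur_nonneg {H : History} (h : Run π I H) {j r s} (hs : Started H j r s) :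
    0 ≤ I.dur j r :=
  I.dur_nonneg (h.started_fits hs).1 r

/-- The running jobs end not before the present moment. -/
theorem Run.now_le_fin {H : History} (h : Run π I H) :
    ∀ {j r s}, Started H j r s → ¬ Finished H j → now H ≤ s + I.dur j r := by
  induction h with
  | init => intro j r s hs; exact absurd hs started_single_init
  | @start H τ j₀ r₀ hH hπ hτ hj hns hpre hfit hrun ih =>
    intro i r' s hs hf
    show τ ≤ _
    rcases started_start.1 hs with ⟨rfl, rfl, rfl⟩ | hs
    · linarith [I.dur_nonneg hj r']
    · rw [finished_start] at hf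
      exact (hrun i r' s hs hf).1.le
  | @finish H j₀ r₀ s₀ hH hst hnf hmin hπ ih =>
    intro i r' s hs hf
    show s₀ + I.dur j₀ r₀ ≤ _
    rw [finished_finish] at hf
    push Not at hf
    rcases hmin i r' s (started_finish.1 hs) hf.2 with h | h
    · exact h.le
    · exact h.1.le

/-- Times do not exceed the present moment. -/
theorem Run.time_le {H : History} (h : Run π I H) : ∀ e ∈ H, e.time ≤ now H := by
  induction h with
  | init => intro e he; simp at he; subst he; exact le_refl _
  | @start H τ j₀ r₀ hH hπ hτ hj hns hpre hfit hrun ih =>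
    intro e he
    rcases List.mem_cons.1 he with rfl | he
    · exact le_refl _
    · exact (ih e he).trans hτ
  | @finish H j₀ r₀ s₀ hH hst hnf hmin hπ ih =>
    intro e he
    rcases List.mem_cons.1 he with rfl | he
    · exact le_refl _
    · exact (ih e he).trans (hH.now_le_fin hst hnf)

theorem Run.now_le_cons {e : Entry} {H : History} (h : Run π I (e :: H)) (hH : H ≠ []) :
    now H ≤ e.time := by
  obtain ⟨e', H', rfl⟩ := List.exists_cons_of_ne_nil hH
  exact h.time_le e' (by simp)

theorem Run.now_mono {T H : History} (h : Run π I (T ++ H)) (hH : H ≠ []) :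
    now H ≤ now (T ++ H) := by
  obtain ⟨e', H', rfl⟩ := List.exists_cons_of_ne_nil hH
  exact h.time_le e' (by simp)

theorem Run.time_nonneg {H : History} (h : Run π I H) : ∀ e ∈ H, 0 ≤ e.time := by
  induction h with
  | init => intro e he; simp at he; subst he; exact le_refl _
  | @start H τ j₀ r₀ hH hπ hτ hj hns hpre hfit hrun ih =>
    intro e he
    rcases List.mem_cons.1 he with rfl | he
    · obtain ⟨e', H', rfl⟩ := List.exists_cons_of_ne_nil hH.ne_nil
      exact (ih e' (by simp)).trans hτ
    · exact ih e he
  | @finish H j₀ r₀ s₀ hH hst hnf hmin hπ ih =>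
    intro e he
    rcases List.mem_cons.1 he with rfl | he
    · obtain ⟨e', H', rfl⟩ := List.exists_cons_of_ne_nil hH.ne_nil
      exact (ih e' (by simp)).trans (hH.now_le_fin hst hnf)
    · exact ih e he

theorem Run.now_nonneg {H : History} (h : Run π I H) : 0 ≤ now H := by
  obtain ⟨e', H', rfl⟩ := List.exists_cons_of_ne_nil h.ne_nil
  exact h.time_nonneg e' (by simp)

theorem Run.started_nonneg {H : History} (h : Run π I H) {j r s} (hs : Started H j r s) :
    0 ≤ s := by
  obtain ⟨e, he, -, rfl⟩ := hs
  exact h.time_nonneg e he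

theorem Run.started_le {H : History} (h : Run π I H) {j r s} (hs : Started H j r s) :
    s ≤ now H := by
  obtain ⟨e, he, -, rfl⟩ := hs
  exact h.time_le e he

/-- A job is started at most once. -/
theorem Run.started_unique {H : History} (h : Run π I H) :
    ∀ {j r s r' s'}, Started H j r s → Started H j r' s' → r = r' ∧ s = s' := by
  induction h with
  | init => intro j r s r' s' hs; exact absurd hs started_single_init
  | @start H τ j₀ r₀ hH hπ hτ hj hns hpre hfit hrun ih =>
    intro i r s r' s' h1 h2
    rw [started_start] at h1 h2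
    rcases h1 with ⟨rfl, rfl, rfl⟩ | h1
    · rcases h2 with ⟨h3, rfl, rfl⟩ | h2
      · exact ⟨rfl, rfl⟩
      · exact absurd h2 (hns _ _)
    · rcases h2 with ⟨rfl, rfl, rfl⟩ | h2
      · exact absurd h1 (hns _ _)
      · exact ih h1 h2
  | finish hH hst hnf hmin hπ ih =>
    intro i r s r' s' h1 h2
    exact ih (started_finish.1 h1) (started_finish.1 h2)

/-- A finish event carries the right time. -/
theorem Run.finish_time {H : History} (h : Run π I H) :
    ∀ e ∈ H, ∀ j, e.ev = Ev.finish j → ∃ r s, Started H j r s ∧ e.time = s + I.dur j r := by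
  induction h with
  | init => intro e he j hj; simp at he; subst he; simp at hj
  | @start H τ j₀ r₀ hH hπ hτ hj hns hpre hfit hrun ih =>
    intro e he j hj
    rcases List.mem_cons.1 he with rfl | he
    · simp at hj
    · obtain ⟨r, s, h1, h2⟩ := ih e he j hj
      exact ⟨r, s, started_start.2 (Or.inr h1), h2⟩
  | @finish H j₀ r₀ s₀ hH hst hnf hmin hπ ih =>
    intro e he j hj
    rcases List.mem_cons.1 he with rfl | he
    · simp only [Ev.finish.injEq] at hj
      subst hj
      exact ⟨r₀, s₀, started_finish.2 hst, rfl⟩
    · obtain ⟨r, s, h1, h2⟩ := ih e he j hj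
      exact ⟨r, s, started_finish.2 h1, h2⟩

theorem Run.finished_started {H : History} (h : Run π I H) {j : ℕ} (hf : Finished H j) :
    ∃ r s, Started H j r s := by
  obtain ⟨e, he, hj⟩ := hf
  obtain ⟨r, s, h1, -⟩ := h.finish_time e he j hj
  exact ⟨r, s, h1⟩

theorem Run.fin_le_now {H : History} (h : Run π I H) {j r s} (hf : Finished H j)
    (hs : Started H j r s) : s + I.dur j r ≤ now H := by
  obtain ⟨e, he, hj⟩ := hf
  obtain ⟨r', s', h1, h2⟩ := h.finish_time e he j hj
  obtain ⟨rfl, rfl⟩ := h.started_unique hs h1
  rw [← h2]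
  exact h.time_le e he

/-- The predecessors of a started job ended before it started. -/
theorem Run.pre_fin {H : History} (h : Run π I H) :
    ∀ {j r s}, Started H j r s → ∀ i ∈ I.pre j, Finished H i ∧
      ∃ r' s', Started H i r' s' ∧ s' + I.dur i r' ≤ s := by
  induction h with
  | init => intro j r s hs; exact absurd hs started_single_init
  | @start H τ j₀ r₀ hH hπ hτ hj hns hpre hfit hrun ih =>
    intro j r s hs i hi
    rcases started_start.1 hs with ⟨rfl, rfl, rfl⟩ | hs
    · have hf := hpre i hi
      obtain ⟨r', s', h1⟩ := hH.finished_started hf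
      exact ⟨finished_start.2 hf, r', s', started_start.2 (Or.inr h1),
        (hH.fin_le_now hf h1).trans hτ⟩
    · obtain ⟨h1, r', s', h2, h3⟩ := ih hs i hi
      exact ⟨finished_start.2 h1, r', s', started_start.2 (Or.inr h2), h3⟩
  | @finish H j₀ r₀ s₀ hH hst hnf hmin hπ ih =>
    intro j r s hs i hi
    obtain ⟨h1, r', s', h2, h3⟩ := ih (started_finish.1 hs) i hi
    exact ⟨finished_finish.2 (Or.inr h1), r', s', started_finish.2 h2, h3⟩

/-- Two different jobs do not use a common processor at the same time. -/
theorem Run.conflict {H : History} (h : Run π I H) :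
    ∀ {i j r r' s s'}, Started H i r s → Started H j r' s' → i ≠ j →
      Disjoint r.cells r'.cells ∨ s + I.dur i r ≤ s' ∨ s' + I.dur j r' ≤ s := by
  induction h with
  | init => intro i j r r' s s' hs; exact absurd hs started_single_init
  | @start H τ j₀ r₀ hH hπ hτ hj hns hpre hfit hrun ih =>
    have key : ∀ {i r s}, Started H i r s → Disjoint r.cells r₀.cells ∨ s + I.dur i r ≤ τ := by
      intro i r s hs
      by_cases hf : Finished H i
      · exact Or.inr ((hH.fin_le_now hf hs).trans hτ)
      · exact Or.inl (hrun i r s hs hf).2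
    intro i j r r' s s' h1 h2 hij
    rw [started_start] at h1 h2
    rcases h1 with ⟨rfl, rfl, rfl⟩ | h1
    · rcases h2 with ⟨h3, rfl, rfl⟩ | h2
      · exact absurd h3.symm hij
      · rcases key h2 with h | h
        · exact Or.inl h.symm
        · exact Or.inr (Or.inr h)
    · rcases h2 with ⟨rfl, rfl, rfl⟩ | h2
      · rcases key h1 with h | h
        · exact Or.inl h
        · exact Or.inr (Or.inl h)
      · exact ih h1 h2 hij
  | @finish H j₀ r₀ s₀ hH hst hnf hmin hπ ih =>
    intro i j r r' s s' h1 h2 hij
    exact ih (started_finish.1 h1) (started_finish.1 h2) hij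

/-- The run is deterministic. -/
theorem Run.unique_of_length : ∀ {H H' : History}, Run π I H → Run π I H' →
    H.length = H'.length → H = H' := by
  intro H
  induction H with
  | nil => intro H' h; exact absurd rfl h.ne_nil
  | cons e H ih =>
    intro H' h h' hl
    rcases H' with _ | ⟨e', H'⟩
    · exact absurd rfl h'.ne_nil
    simp only [List.length_cons, add_left_inj] at hl
    by_cases hne : H = []
    · subst hne
      have : H' = [] := List.length_eq_zero_iff.1 hl.symm
      subst this
      have h1 : ∀ {e : Entry}, Run π I [e] → e = ⟨0, Ev.init, newInit I⟩ := by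
        intro e he
        cases he with
        | init => rfl
        | start hH => exact absurd rfl hH.ne_nil
        | finish hH => exact absurd rfl hH.ne_nil
      rw [h1 h, h1 h']
    have hne' : H' ≠ [] := by
      rintro rfl
      simp at hl
      exact hne hl
    obtain rfl := ih (h.tail hne) (h'.tail hne') hl
    cases h with
    | init => exact absurd rfl hne
    | @start _ τ j r hH hπ hτ hj hns hpre hfit hrun =>
      cases h' with
      | init => exact absurd rfl hne
      | @start _ τ' j' r' hH' hπ' hτ' hj' hns' hpre' hfit' hrun' =>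
        rw [hπ] at hπ'
        simp only [Option.some.injEq, Prod.mk.injEq] at hπ'
        obtain ⟨rfl, rfl, rfl⟩ := hπ'
        rfl
      | @finish _ j' r' s' hH' hst' hnf' hmin' hπ' =>
        have h1 := (hrun _ _ _ hst' hnf').1
        have h2 := hπ' _ _ _ hπ
        exact absurd h1 (not_lt.2 h2)
    | @finish _ j r s hH hst hnf hmin hπ =>
      cases h' with
      | init => exact absurd rfl hne
      | @start _ τ' j' r' hH' hπ' hτ' hj' hns' hpre' hfit' hrun' =>
        have h1 := (hrun' _ _ _ hst hnf).1
        have h2 := hπ _ _ _ hπ'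
        exact absurd h1 (not_lt.2 h2)
      | @finish _ j' r' s' hH' hst' hnf' hmin' hπ' =>
        have h1 := hmin _ _ _ hst' hnf'
        have h2 := hmin' _ _ _ hst hnf
        have hjj : j = j' := by
          rcases h1 with h1 | h1 <;> rcases h2 with h2 | h2
          · exact absurd h1 (not_lt.2 h2.le)
          · exact absurd h1 (not_lt.2 h2.1.le)
          · exact absurd h2 (not_lt.2 h1.1.le)
          · exact le_antisymm h1.2 h2.2
        subst hjj
        obtain ⟨rfl, rfl⟩ := hH.started_unique hst hst'
        rfl

/-- Of two histories of the run, one is an initial part of the other. -/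
theorem Run.comparable {H H' : History} (h : Run π I H) (h' : Run π I H') :
    (∃ T, H' = T ++ H) ∨ ∃ T, H = T ++ H' := by
  have key : ∀ {H H' : History}, Run π I H → Run π I H' → H.length ≤ H'.length →
      ∃ T, H' = T ++ H := by
    intro H H' h h' hl
    have h1 : H' = H'.take (H'.length - H.length) ++ H'.drop (H'.length - H.length) :=
      (List.take_append_drop _ _).symm
    have hpos : 0 < H.length := List.length_pos_of_ne_nil h.ne_nil
    have hlen : (H'.drop (H'.length - H.length)).length = H.length := by
      rw [List.length_drop]; omega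
    have hne : H'.drop (H'.length - H.length) ≠ [] := by
      intro h0
      rw [h0] at hlen
      simp at hlen
      omega
    have h2 : Run π I (H'.drop (H'.length - H.length)) := by
      apply Run.suffix (T := H'.take (H'.length - H.length)) _ hne
      rw [← h1]
      exact h'
    have h3 := h.unique_of_length h2 hlen.symm
    exact ⟨H'.take (H'.length - H.length), by rw [← h3] at h1; exact h1⟩
  rcases le_total H.length H'.length with hl | hl
  · exact Or.inl (key h h' hl)
  · exact Or.inr (key h' h hl)

/-- A complete history has no continuation. -/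
theorem Run.complete_maximal {H : History} (hH : Run π I H) (hc : Complete I H) {T : History}
    (h : Run π I (T ++ H)) : T = [] := by
  rcases List.eq_nil_or_concat T with rfl | ⟨T', e, rfl⟩
  · rfl
  exfalso
  rw [List.concat_eq_append, List.append_assoc] at h
  have h1 : Run π I (e :: H) := h.suffix (by simp)
  cases h1 with
  | init => exact hH.ne_nil rfl
  | @start _ τ j r hH hπ hτ hj hns hpre hfit hrun =>
    obtain ⟨r', s', h2⟩ := hH.finished_started (hc j hj)
    exact hns _ _ h2
  | @finish _ j r s hH hst hnf hmin hπ =>
    exact hnf (hc j (hH.started_fits hst).1)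

end Pool.Agent.Lib.MP_c7bce0_lc
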