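import Pool.Agent.Lib.MP_c7bce0_lc.RunFacts
import Pool.Agent.Lib.MP_c7bce0_lc.Geometry

/-!
# The upper bound: a greedy algorithm with one submesh for every class of sizes
-/

namespace Pool.Agent.Lib.MP_c7bce0_lc

/-- Parameters of the greedy algorithm. -/
structure GPar where
  n : ℕ
  q : ℕ
  h : ℕ
  two_le_q : 2 ≤ q
  n_lt : n < q ^ h
  h_pos : 0 < h
  h_le : h ≤ n

namespace GPar

variable (G : GPar)

/-- Side length of the submesh of a class. -/
def side : ℕ := G.n / G.h

/-- The side length used for jobs in class `i`. -/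
def len (i : ℕ) : ℕ := min (G.q ^ i) G.side

/-- The class of a side length. -/
def cls (a : ℕ) : ℕ := Nat.log G.q a

/-- The rectangles used for jobs of class `(i, j)`. -/
def gslot (i j u v : ℕ) : Rect :=
  ⟨i * G.side + u * G.len i, j * G.side + v * G.len j, G.len i, G.len j⟩

/-- `r` is one of the rectangles used for jobs requesting `a × b` processors. -/
def IsSlot (a b : ℕ) (r : Rect) : Prop :=
  ∃ u < G.side / G.len (G.cls a), ∃ v < G.side / G.len (G.cls b),
    r = G.gslot (G.cls a) (G.cls b) u v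

variable {G}

theorem side_pos (G : GPar) : 0 < G.side := Nat.div_pos G.h_le G.h_pos

theorem n_lt_side (G : GPar) : G.n < 2 * G.h * G.side := by
  have h1 : G.n < G.n / G.h * G.h + G.h := Nat.lt_div_mul_add G.h_pos
  have h2 : 1 * G.h ≤ G.n / G.h * G.h := Nat.mul_le_mul_right _ G.side_pos
  unfold side
  calc G.n < G.n / G.h * G.h + G.h := h1
    _ ≤ G.n / G.h * G.h + G.n / G.h * G.h := by omega
    _ = 2 * G.h * (G.n / G.h) := by ring

theorem len_pos (G : GPar) (i : ℕ) : 0 < G.len i := by
  unfold len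
  have := G.two_le_q
  exact lt_min (Nat.pow_pos (by omega)) G.side_pos

theorem len_le_side (G : GPar) (i : ℕ) : G.len i ≤ G.side := min_le_right _ _

theorem cls_lt {a : ℕ} (h : a ≤ G.n) : G.cls a < G.h := by
  unfold cls
  exact Nat.log_lt_of_lt_pow' G.h_pos.ne' (lt_of_le_of_lt h G.n_lt)

theorem len_cls_le {a : ℕ} (h : 1 ≤ a) : G.len (G.cls a) ≤ a :=
  (min_le_left _ _).trans (Nat.pow_log_le_self _ (by omega))

/-- The bound for the scaling factor of each side. -/
def mu (G : GPar) : ℕ := max G.q (2 * G.h)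

theorem le_mu_len {a : ℕ} (h : a ≤ G.n) : a ≤ G.mu * G.len (G.cls a) := by
  unfold len
  rcases min_cases (G.q ^ G.cls a) G.side with ⟨h1, -⟩ | ⟨h1, -⟩ <;> rw [h1]
  · have h2 : a < G.q ^ (G.cls a + 1) := Nat.lt_pow_succ_log_self (by have := G.two_le_q; omega) a
    calc a ≤ G.q ^ (G.cls a + 1) := h2.le
      _ = G.q * G.q ^ G.cls a := pow_succ' _ _
      _ ≤ G.mu * G.q ^ G.cls a := Nat.mul_le_mul_right _ (le_max_left _ _)
  · calc a ≤ G.n := h
      _ ≤ 2 * G.h * G.side := G.n_lt_side.le
      _ ≤ G.mu * G.side := Nat.mul_le_mul_right _ (le_max_right _ _)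

theorem mul_len_le {i u : ℕ} (h : u < G.side / G.len i) : u * G.len i + G.len i ≤ G.side := by
  calc u * G.len i + G.len i = (u + 1) * G.len i := by ring
    _ ≤ G.side / G.len i * G.len i := Nat.mul_le_mul_right _ h
    _ ≤ G.side := Nat.div_mul_le_self _ _

theorem two_mul_div_len (G : GPar) (i : ℕ) : G.side ≤ 2 * (G.side / G.len i * G.len i) := by
  have h1 : G.side < G.side / G.len i * G.len i + G.len i := Nat.lt_div_mul_add (G.len_pos i)
  have h2 : 1 * G.len i ≤ G.side / G.len i * G.len i :=
    Nat.mul_le_mul_right _ (Nat.div_pos (G.len_le_side i) (G.len_pos i))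
  omega

theorem Ico_disjoint_aux {s i u i' u' : ℕ} {l : ℕ → ℕ} (h : u * l i + l i ≤ s)
    (h' : u' * l i' + l i' ≤ s) (hne : ¬ (i = i' ∧ u = u')) :
    Disjoint (Finset.Ico (i * s + u * l i) (i * s + u * l i + l i))
      (Finset.Ico (i' * s + u' * l i') (i' * s + u' * l i' + l i')) := by
  rw [Finset.disjoint_left]
  intro x hx hx'
  rw [Finset.mem_Ico] at hx hx'
  have key : ∀ i i' : ℕ, i < i' → i * s + s ≤ i' * s := by
    intro i i' hii
    calc i * s + s = (i + 1) * s := by ring
      _ ≤ i' * s := Nat.mul_le_mul_right _ hii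
  rcases lt_trichotomy i i' with h1 | h1 | h1
  · have := key i i' h1
    omega
  · subst h1
    have hu : u ≠ u' := fun hu => hne ⟨rfl, hu⟩
    have key' : ∀ u u' : ℕ, u < u' → u * l i + l i ≤ u' * l i := by
      intro u u' huu
      calc u * l i + l i = (u + 1) * l i := by ring
        _ ≤ u' * l i := Nat.mul_le_mul_right _ huu
    rcases lt_or_gt_of_ne hu with h2 | h2
    · have := key' u u' h2
      omega
    · have := key' u' u h2
      omega
  · have := key i' i h1
    omega

theorem IsSlot.disjoint {a b a' b' : ℕ} {r r' : Rect} (h : G.IsSlot a b r)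
    (h' : G.IsSlot a' b' r') (hne : r ≠ r') : Disjoint r.cells r'.cells := by
  obtain ⟨u, hu, v, hv, rfl⟩ := h
  obtain ⟨u', hu', v', hv', rfl⟩ := h'
  unfold Rect.cells gslot
  rw [Finset.disjoint_product]
  by_cases h1 : G.cls a = G.cls a' ∧ u = u'
  · by_cases h2 : G.cls b = G.cls b' ∧ v = v'
    · exfalso
      apply hne
      rw [h1.1, h1.2, h2.1, h2.2]
    · right
      exact Ico_disjoint_aux (l := G.len) (mul_len_le hv) (mul_len_le hv') h2
  · left
    exact Ico_disjoint_aux (l := G.len) (mul_len_le hu) (mul_len_le hu') h1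

/-- Job `j`, requesting `a × b` processors, is known to be available. -/
def Known (H : History) (j a b : ℕ) : Prop := ∃ e ∈ H, (j, a, b) ∈ e.new

/-- The algorithm may start job `j` on the rectangle `r`. -/
def Cand (G : GPar) (H : History) (j : ℕ) (r : Rect) : Prop :=
  ∃ a b, Known H j a b ∧ (∀ r' s', ¬ Started H j r' s') ∧ G.IsSlot a b r ∧
    ∀ i s', Started H i r s' → Finished H i

open Classical in
/-- The greedy algorithm: whenever an available job has a free rectangle of its class, start such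
a job at once. -/
noncomputable def greedy (G : GPar) : Policy := fun H =>
  if h : ∃ p : ℕ × Rect, G.Cand H p.1 p.2 then some (now H, h.choose.1, h.choose.2) else none

theorem greedy_some {H : History} {τ : ℝ} {j : ℕ} {r : Rect}
    (h : G.greedy H = some (τ, j, r)) : τ = now H ∧ G.Cand H j r := by
  unfold greedy at h
  split_ifs at h with h1
  simp only [Option.some.injEq, Prod.mk.injEq] at h
  obtain ⟨h2, h3, h4⟩ := h
  refine ⟨h2.symm, ?_⟩
  rw [← h3, ← h4]
  exact h1.choose_spec

theorem greedy_none {H : History} (h : G.greedy H = none) (j : ℕ) (r : Rect) :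
    ¬ G.Cand H j r := by
  intro hc
  unfold greedy at h
  rw [dif_pos ⟨(j, r), hc⟩] at h
  exact absurd h (by simp)

variable {I : Inst G.n}

theorem known_iff {π : Policy} {H : History} (hH : Run π I H) {j a b : ℕ} :
    Known H j a b ↔ j ∈ I.jobs ∧ a = I.a j ∧ b = I.b j ∧ ∀ i ∈ I.pre j, Finished H i := by
  classical
  induction hH with
  | init =>
    unfold Known newInit
    simp only [List.mem_singleton, exists_eq_left, Finset.mem_image, Finset.mem_filter,
      Prod.mk.injEq]
    constructor
    · rintro ⟨k, ⟨h1, h2⟩, rfl, rfl, rfl⟩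
      exact ⟨h1, rfl, rfl, by rw [h2]; simp⟩
    · rintro ⟨h1, rfl, rfl, h2⟩
      refine ⟨j, ⟨h1, ?_⟩, rfl, rfl, rfl⟩
      rw [Finset.eq_empty_iff_forall_notMem]
      intro i hi
      exact finished_single_init (h2 i hi)
  | @start H τ j₀ r₀ hH hπ hτ hj hns hpre hfit hrun ih =>
    have h1 : Known (⟨τ, Ev.start j₀ r₀, ∅⟩ :: H) j a b ↔ Known H j a b := by
      unfold Known
      simp
    rw [h1, ih]
    simp only [finished_start]
  | @finish H j₀ r₀ s₀ hH hst hnf hmin hπ ih =>
    have h1 : Known (⟨s₀ + I.dur j₀ r₀, Ev.finish j₀, newAt I H j₀⟩ :: H) j a b ↔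
        (j, a, b) ∈ newAt I H j₀ ∨ Known H j a b := by
      unfold Known
      simp
    rw [h1, ih]
    unfold newAt
    simp only [Finset.mem_image, Finset.mem_filter, Prod.mk.injEq, finished_finish]
    constructor
    · rintro (⟨k, ⟨h2, h3, h4⟩, rfl, rfl, rfl⟩ | ⟨h2, h3, h4, h5⟩)
      · exact ⟨h2, rfl, rfl, h4⟩
      · exact ⟨h2, h3, h4, fun i hi => Or.inr (h5 i hi)⟩
    · rintro ⟨h2, rfl, rfl, h5⟩
      by_cases h6 : j₀ ∈ I.pre j
      · exact Or.inl ⟨j, ⟨h2, h6, h5⟩, rfl, rfl, rfl⟩
      · refine Or.inr ⟨h2, rfl, rfl, fun i hi => ?_⟩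
        rcases h5 i hi with rfl | h7
        · exact absurd hi h6
        · exact h7

theorem Cand.facts {π : Policy} {H : History} (hH : Run π I H) {j : ℕ} {r : Rect}
    (h : G.Cand H j r) : j ∈ I.jobs ∧ (∀ r' s', ¬ Started H j r' s') ∧
      (∀ i ∈ I.pre j, Finished H i) ∧ G.IsSlot (I.a j) (I.b j) r ∧
      ∀ i s', Started H i r s' → Finished H i := by
  obtain ⟨a, b, h1, h2, h3, h4⟩ := h
  obtain ⟨h5, rfl, rfl, h6⟩ := (known_iff hH).1 h1
  exact ⟨h5, h2, h6, h3, h4⟩

theorem IsSlot.fits {j : ℕ} (hj : j ∈ I.jobs) {r : Rect} (h : G.IsSlot (I.a j) (I.b j) r) :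
    I.Fits j r := by
  obtain ⟨u, hu, v, hv, rfl⟩ := h
  have key : ∀ (i u : ℕ), i < G.h → u < G.side / G.len i →
      i * G.side + u * G.len i + G.len i ≤ G.n := by
    intro i u hi hu
    calc i * G.side + u * G.len i + G.len i = i * G.side + (u * G.len i + G.len i) := by ring
      _ ≤ i * G.side + G.side := Nat.add_le_add_left (mul_len_le hu) _
      _ = (i + 1) * G.side := by ring
      _ ≤ G.h * G.side := Nat.mul_le_mul_right _ hi
      _ ≤ G.n := Nat.mul_div_le _ _
  exact ⟨G.len_pos _, len_cls_le (I.a_pos j hj), G.len_pos _, len_cls_le (I.b_pos j hj),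
    key _ _ (cls_lt (I.a_le j hj)) hu, key _ _ (cls_lt (I.b_le j hj)) hv⟩

theorem started_slot {H : History} (hH : Run G.greedy I H) :
    ∀ {j r s}, Started H j r s → G.IsSlot (I.a j) (I.b j) r := by
  induction hH with
  | init => intro j r s hs; exact absurd hs started_single_init
  | @start H τ j₀ r₀ hH hπ hτ hj hns hpre hfit hrun ih =>
    intro j r s hs
    rcases started_start.1 hs with ⟨rfl, rfl, rfl⟩ | hs
    · exact ((greedy_some hπ).2.facts hH).2.2.2.1
    · exact ih hs
  | finish hH hst hnf hmin hπ ih =>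
    intro j r s hs
    exact ih (started_finish.1 hs)

/-- A run that is not complete can be continued. -/
theorem exists_step {H : History} (hH : Run G.greedy I H) (hc : ¬ Complete I H) :
    ∃ e, Run G.greedy I (e :: H) := by
  classical
  -- the start rule applies when all running jobs end later
  have hstart : ∀ {j : ℕ} {r : Rect}, G.greedy H = some (now H, j, r) →
      (∀ i r' s', Started H i r' s' → ¬ Finished H i → now H < s' + I.dur i r') →
      ∃ e, Run G.greedy I (e :: H) := by
    intro j r h1 h2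
    obtain ⟨h3, h4, h5, h6, h7⟩ := (greedy_some h1).2.facts hH
    refine ⟨_, Run.start hH h1 le_rfl h3 h4 h5 (h6.fits h3) ?_⟩
    intro i r' s' h8 h9
    refine ⟨h2 i r' s' h8 h9, ?_⟩
    apply (started_slot hH h8).disjoint h6
    rintro rfl
    exact h9 (h7 i s' h8)
  by_cases hrun : ∃ j r s, Started H j r s ∧ ¬ Finished H j
  · -- choose the running job that ends first
    let A : Finset ℕ := I.jobs.filter fun j => (∃ r s, Started H j r s) ∧ ¬ Finished H j
    have hdata : ∀ j ∈ A, ∃ (r : Rect) (s : ℝ), Started H j r s := fun j hj =>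
      (Finset.mem_filter.1 hj).2.1
    have : Nonempty Rect := ⟨⟨0, 0, 0, 0⟩⟩
    choose! rc st hst using hdata
    have hAne : A.Nonempty := by
      obtain ⟨j, r, s, h1, h2⟩ := hrun
      exact ⟨j, Finset.mem_filter.2 ⟨(hH.started_fits h1).1, ⟨r, s, h1⟩, h2⟩⟩
    obtain ⟨j, hjA, hmin⟩ := A.exists_min_image
      (fun j => toLex (st j + I.dur j (rc j), j)) hAne
    have hjs := hst j hjA
    have hjf := (Finset.mem_filter.1 hjA).2.2
    have hmin' : ∀ i r' s', Started H i r' s' → ¬ Finished H i →
        st j + I.dur j (rc j) < s' + I.dur i r' ∨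
          (st j + I.dur j (rc j) = s' + I.dur i r' ∧ j ≤ i) := by
      intro i r' s' h1 h2
      have hi : i ∈ A := Finset.mem_filter.2 ⟨(hH.started_fits h1).1, ⟨r', s', h1⟩, h2⟩
      obtain ⟨rfl, rfl⟩ := hH.started_unique h1 (hst i hi)
      exact Prod.Lex.toLex_le_toLex.1 (hmin i hi)
    rcases hg : G.greedy H with _ | ⟨τ, j', r'⟩
    · refine ⟨_, Run.finish hH hjs hjf hmin' ?_⟩
      intro τ i r' h1
      rw [hg] at h1
      exact absurd h1 (by simp)
    · obtain ⟨rfl, -⟩ := greedy_some hg
      rcases lt_or_ge (now H) (st j + I.dur j (rc j)) with h1 | h1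
      · refine hstart hg fun i r'' s'' h2 h3 => ?_
        rcases hmin' i r'' s'' h2 h3 with h4 | h4
        · exact h1.trans h4
        · rw [← h4.1]; exact h1
      · refine ⟨_, Run.finish hH hjs hjf hmin' ?_⟩
        intro τ i r'' h2
        obtain ⟨rfl, -⟩ := greedy_some h2
        exact h1
  · -- no running job: some job is available and not started
    push Not at hrun
    obtain ⟨rank, hrank⟩ := I.acyclic
    unfold Complete at hc
    push Not at hc
    obtain ⟨j₀, hj₀, hf₀⟩ := hc
    let A : Finset ℕ := I.jobs.filter fun j => ¬ Finished H j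
    obtain ⟨j, hjA, hmin⟩ := A.exists_min_image rank ⟨j₀, Finset.mem_filter.2 ⟨hj₀, hf₀⟩⟩
    obtain ⟨hj, hjf⟩ := Finset.mem_filter.1 hjA
    have hpre : ∀ i ∈ I.pre j, Finished H i := by
      intro i hi
      by_contra hcon
      have h1 := hmin i (Finset.mem_filter.2 ⟨I.pre_sub j hj hi, hcon⟩)
      have h2 := hrank j hj i hi
      omega
    have hns : ∀ r' s', ¬ Started H j r' s' := fun r' s' h1 => hjf (hrun j r' s' h1)
    have hcand : G.Cand H j (G.gslot (G.cls (I.a j)) (G.cls (I.b j)) 0 0) := by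
      refine ⟨I.a j, I.b j, (known_iff hH).2 ⟨hj, rfl, rfl, hpre⟩, hns,
        ⟨0, Nat.div_pos (G.len_le_side _) (G.len_pos _), 0,
          Nat.div_pos (G.len_le_side _) (G.len_pos _), rfl⟩, ?_⟩
      intro i s' h1
      exact hrun i _ s' h1
    rcases hg : G.greedy H with _ | ⟨τ, j', r'⟩
    · exact absurd hcand (greedy_none hg _ _)
    · obtain ⟨rfl, -⟩ := greedy_some hg
      exact hstart hg fun i r'' s'' h2 h3 => absurd (hrun i r'' s'' h2) h3

open Classical in
theorem length_eq {π : Policy} {H : History} (hH : Run π I H) : H.length =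
    1 + (I.jobs.filter fun j => ∃ r s, Started H j r s).card +
      (I.jobs.filter fun j => Finished H j).card := by
  induction hH with
  | init => simp [started_single_init, finished_single_init]
  | @start H τ j₀ r₀ hH hπ hτ hj hns hpre hfit hrun ih =>
    have h1 : (I.jobs.filter fun j => ∃ r s, Started (⟨τ, Ev.start j₀ r₀, ∅⟩ :: H) j r s) =
        insert j₀ (I.jobs.filter fun j => ∃ r s, Started H j r s) := by
      ext j
      simp only [Finset.mem_filter, Finset.mem_insert, started_start]
      constructor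
      · rintro ⟨h1, r, s, (⟨h2, -, -⟩ | h2)⟩
        · exact Or.inl h2
        · exact Or.inr ⟨h1, r, s, h2⟩
      · rintro (rfl | ⟨h1, r, s, h2⟩)
        · exact ⟨hj, r₀, τ, Or.inl ⟨rfl, rfl, rfl⟩⟩
        · exact ⟨h1, r, s, Or.inr h2⟩
    have h2 : j₀ ∉ I.jobs.filter fun j => ∃ r s, Started H j r s := by
      rw [Finset.mem_filter]
      rintro ⟨-, r, s, h3⟩
      exact hns r s h3
    rw [h1, Finset.card_insert_of_notMem h2]
    simp only [finished_start, List.length_cons]
    omega
  | @finish H j₀ r₀ s₀ hH hst hnf hmin hπ ih =>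
    have h1 : (I.jobs.filter fun j =>
        Finished (⟨s₀ + I.dur j₀ r₀, Ev.finish j₀, newAt I H j₀⟩ :: H) j) =
        insert j₀ (I.jobs.filter fun j => Finished H j) := by
      ext j
      simp only [Finset.mem_filter, Finset.mem_insert, finished_finish]
      constructor
      · rintro ⟨h1, (h2 | h2)⟩
        · exact Or.inl h2
        · exact Or.inr ⟨h1, h2⟩
      · rintro (rfl | ⟨h1, h2⟩)
        · exact ⟨(hH.started_fits hst).1, Or.inl rfl⟩
        · exact ⟨h1, Or.inr h2⟩
    have h2 : j₀ ∉ I.jobs.filter fun j => Finished H j := by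
      rw [Finset.mem_filter]
      rintro ⟨-, h3⟩
      exact hnf h3
    rw [h1, Finset.card_insert_of_notMem h2]
    simp only [started_finish, List.length_cons]
    omega

/-- The greedy algorithm completes every instance. -/
theorem exists_complete (G : GPar) (I : Inst G.n) : ∃ H, Run G.greedy I H ∧ Complete I H := by
  classical
  by_contra hcon
  push Not at hcon
  have h1 : ∀ k : ℕ, ∃ H, Run G.greedy I H ∧ H.length = k + 1 := by
    intro k
    induction k with
    | zero => exact ⟨_, Run.init, rfl⟩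
    | succ k ih =>
      obtain ⟨H, hH, hl⟩ := ih
      obtain ⟨e, he⟩ := exists_step hH (hcon H hH)
      exact ⟨e :: H, he, by rw [List.length_cons, hl]⟩
  obtain ⟨H, hH, hl⟩ := h1 (2 * I.jobs.card + 1)
  have h2 := length_eq hH
  have h3 : (I.jobs.filter fun j => ∃ r s, Started H j r s).card ≤ I.jobs.card :=
    Finset.card_filter_le _ _
  have h4 : (I.jobs.filter fun j => Finished H j).card ≤ I.jobs.card := Finset.card_filter_le _ _
  omega

end GPar

end Pool.Agent.Lib.MP_c7bce0_lc
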